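import Pool.Agent.K6.H10.SU.Inc4

/-!
# The results on the forms which tame an `SU(2)`-invariant structure
-/

set_option autoImplicit false

open scoped ContDiff Topology ComplexConjugate

noncomputable section

namespace Pool.Agent.K6.H10.SU

open Pool.Agent.K6.H10.SY
open Complex (I normSq)

theorem TS_eq' (C : Set (V → Bil)) :
    TS C = {Ω : Forms | Ω ∈ S ∧ Ω.val ∈ C ∧ ∃ p : Par, TameF Ω.val p} := by
  rw [TS_eq]
  ext Ω
  constructor
  · rintro ⟨h1, h2, p, _, h4⟩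
    exact ⟨h1, h2, p, h4⟩
  · rintro ⟨h1, h2, p, h4⟩
    exact ⟨h1, h2, p, a_pos Ω.property h1.2 h4, h4⟩

theorem contractible_tame {C : Set (V → Bil)} (hC : Convex ℝ C)
    (h : ∀ Ω, IsForm Ω → InClass Ω → SUInv Ω → Ω ∈ C) :
    ContractibleSpace {Ω : Forms | Ω ∈ S ∧ Ω.val ∈ C ∧ ∃ p : Par, TameF Ω.val p} := by
  rw [← TS_eq']
  exact contractible_inv hC h

theorem isOpen_tame' : IsOpen {Ω : Forms | ∃ p : Par, TameF Ω.val p} := by
  have h := isOpen_tame Set.univ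
  simpa using h

theorem inv_tame {Ω : Forms} (h : Ω ∈ S) (hi : SUInv Ω.val) : ∃ p : Par, TameF Ω.val p := by
  obtain ⟨p, _, hp'⟩ := exists_par Ω.property h.1 h.2 hi
  exact ⟨p, hp'⟩

theorem convex_SUInv : Convex ℝ {Ω : V → Bil | SUInv Ω} := by
  intro Ω₁ h₁ Ω₂ h₂ a b _ _ _ α β h z v w
  show a * Ω₁ (rot α β z) (rot α β v) (rot α β w) + b * Ω₂ (rot α β z) (rot α β v) (rot α β w) =
    a * Ω₁ z v w + b * Ω₂ z v w
  rw [h₁ α β h, h₂ α β h]

theorem contractible_SUInv : ContractibleSpace {Ω : Forms | Ω ∈ S ∧ SUInv Ω.val} := by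
  have h1 := contractible_tame convex_SUInv fun Ω _ _ h => h
  have h2 : {Ω : Forms | Ω ∈ S ∧ Ω.val ∈ {Ω : V → Bil | SUInv Ω} ∧ ∃ p : Par, TameF Ω.val p} =
      {Ω : Forms | Ω ∈ S ∧ SUInv Ω.val} := by
    ext Ω
    constructor
    · rintro ⟨h3, h4, _⟩
      exact ⟨h3, h4⟩
    · rintro ⟨h3, h4⟩
      exact ⟨h3, h4, inv_tame h3 h4⟩
  rwa [h2] at h1

end Pool.Agent.K6.H10.SU
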