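import Pool.Agent.K6.H10.SU.Def

/-!
# The positivity is an open condition
-/

set_option autoImplicit false

open scoped ContDiff Topology ComplexConjugate

noncomputable section

namespace Pool.Agent.K6.H10.SU

open Pool.Agent.K6.H10.SY
open Complex (I)

/-- a real basis -/
def bs (k : Fin 3 × Fin 2) : V := if k.2 = 0 then Pi.single k.1 1 else I • Pi.single k.1 1

/-- the real coordinates -/
def co (v : V) (k : Fin 3 × Fin 2) : ℝ := if k.2 = 0 then (v k.1).re else (v k.1).im

theorem co_sum (v : V) : v = ∑ k, co v k • bs k := by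
  funext i
  rw [Finset.sum_apply]
  simp only [Fintype.sum_prod_type, Fin.sum_univ_two, Fin.sum_univ_three, co, bs,
    Pi.smul_apply, if_true, Fin.isValue, one_ne_zero, if_false, Pi.smul_apply]
  fin_cases i <;> apply Complex.ext <;> simp

theorem continuous_co (k : Fin 3 × Fin 2) : Continuous fun v : V => co v k := by
  unfold co
  split_ifs
  · exact Complex.continuous_re.comp (continuous_apply _)
  · exact Complex.continuous_im.comp (continuous_apply _)

/-- the space of the coefficients -/
abbrev N : Type := (Fin 3 × Fin 2) → (Fin 3 × Fin 2) → C(KK, ℝ)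

/-- the coefficients of a form -/
def resN (Ω : Forms) : N := fun i j => coefC (bs i) (bs j) Ω

theorem continuous_resN : Continuous resN :=
  continuous_pi fun i => continuous_pi fun j => continuous_coefC (bs i) (bs j)

/-- the value of a form with given coefficients -/
def PP (η : N) (z : KK) (v w : V) : ℝ := ∑ i, ∑ j, co v i * co w j * η i j z

theorem lin_sum (L : V →L[ℝ] ℝ) (w : V) : L w = ∑ j, co w j * L (bs j) := by
  conv_lhs => rw [co_sum w]
  rw [map_sum]
  refine Finset.sum_congr rfl fun j _ => ?_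
  rw [map_smul]
  rfl

theorem PP_res (Ω : Forms) (z : KK) (v w : V) : PP (resN Ω) z v w = Ω.val z v w := by
  have h1 : Ω.val z v w = ∑ i, co v i * Ω.val z (bs i) w := lin_sum ((Ω.val z).flip w) v
  rw [h1]
  unfold PP
  refine Finset.sum_congr rfl fun i _ => ?_
  rw [lin_sum (Ω.val z (bs i)) w, Finset.mul_sum]
  refine Finset.sum_congr rfl fun j _ => ?_
  show co v i * co w j * Ω.val z (bs i) (bs j) = _
  ring

/-- unit vectors orthogonal to the points of the sphere -/
def WW : Set (KK × V) := {q | nsq q.2 = 1 ∧ hp q.1 q.2 = 0}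

theorem continuous_nsq : Continuous nsq := nsq_smooth.continuous

theorem continuous_hp : Continuous fun q : V × V => hp q.1 q.2 := by
  unfold hp
  exact continuous_finsetSum _ fun k _ => (Complex.continuous_conj.comp
    ((continuous_apply k).comp continuous_fst)).mul ((continuous_apply k).comp continuous_snd)

theorem norm_le_of_nsq {v : V} (h : nsq v = 1) : ‖v‖ ≤ 1 := by
  rw [pi_norm_le_iff_of_nonneg zero_le_one]
  intro i
  rw [nsq_eq] at h
  have h0 := sq_nonneg ‖v 0‖
  have h1 := sq_nonneg ‖v 1‖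
  have h2 := sq_nonneg ‖v 2‖
  have : ‖v i‖ ^ 2 ≤ 1 := by
    fin_cases i
    · show ‖v 0‖ ^ 2 ≤ 1
      linarith
    · show ‖v 1‖ ^ 2 ≤ 1
      linarith
    · show ‖v 2‖ ^ 2 ≤ 1
      linarith
  nlinarith [norm_nonneg (v i)]

theorem isCompact_WW : IsCompact WW := by
  have h1 : IsClosed WW := by
    refine IsClosed.inter ?_ ?_
    · exact isClosed_eq (continuous_nsq.comp continuous_snd) continuous_const
    · refine isClosed_eq ?_ continuous_const
      have h : Continuous fun q : KK × V => ((q.1 : V), q.2) :=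
        (continuous_subtype_val.comp continuous_fst).prodMk continuous_snd
      exact continuous_hp.comp h
  refine IsCompact.of_isClosed_subset (s := Set.univ ×ˢ Metric.closedBall (0 : V) 1)
    (isCompact_univ.prod (isCompact_closedBall _ _)) h1 ?_
  rintro q ⟨h2, _⟩
  exact ⟨trivial, mem_closedBall_zero_iff.2 (norm_le_of_nsq h2)⟩

theorem continuous_tI : Continuous fun z : KK => tI z := by
  refine Continuous.subtype_mk ?_ _
  unfold TT
  have h : Continuous fun z : KK => nsq (z : V) := continuous_nsq.comp continuous_subtype_val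
  have h1 : Continuous fun z : KK => ‖(z : V) 0‖ ^ 2 :=
    (((continuous_apply (0 : Fin 3)).comp continuous_subtype_val).norm).pow 2
  exact h1.div h fun z => (nsq_pos (KK_ne z)).ne'

theorem continuous_crs : Continuous fun q : V × V => crs q.1 q.2 := by
  unfold crs
  refine continuous_pi fun i => ?_
  have hf : ∀ k : Fin 3, Continuous fun q : V × V => q.1 k := fun k =>
    (continuous_apply k).comp continuous_fst
  have hs : ∀ k : Fin 3, Continuous fun q : V × V => q.2 k := fun k =>
    (continuous_apply k).comp continuous_snd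
  fin_cases i
  · exact Complex.continuous_conj.comp (((hf 1).mul (hs 2)).sub ((hf 2).mul (hs 1)))
  · exact Complex.continuous_conj.comp (((hf 2).mul (hs 0)).sub ((hf 0).mul (hs 2)))
  · exact Complex.continuous_conj.comp (((hf 0).mul (hs 1)).sub ((hf 1).mul (hs 0)))

theorem continuous_J : Continuous fun q : Par × (KK × V) => J q.1 q.2.1 q.2.2 := by
  unfold J JJ
  have hz : Continuous fun q : Par × (KK × V) => q.2.1 := continuous_fst.comp continuous_snd
  have hv : Continuous fun q : Par × (KK × V) => q.2.2 := continuous_snd.comp continuous_snd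
  have hzv : Continuous fun q : Par × (KK × V) => (q.2.1 : V) := continuous_subtype_val.comp hz
  have ht : Continuous fun q : Par × (KK × V) => tI q.2.1 := continuous_tI.comp hz
  have h1 : Continuous fun q : Par × (KK × V) => q.1.1 (tI q.2.1) :=
    (continuous_fst.comp continuous_fst).eval ht
  have h2 : Continuous fun q : Par × (KK × V) => q.1.2 (tI q.2.1) :=
    (continuous_snd.comp continuous_fst).eval ht
  have h3 : Continuous fun q : Par × (KK × V) => (q.2.1 : V) 0 := (continuous_apply _).comp hzv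
  have h4 : Continuous fun q : Par × (KK × V) => (nsq (q.2.1 : V) : ℂ) :=
    Complex.continuous_ofReal.comp (continuous_nsq.comp hzv)
  have h5 : Continuous fun q : Par × (KK × V) => crs (q.2.1 : V) q.2.2 :=
    continuous_crs.comp (hzv.prodMk hv)
  have h6 : Continuous fun q : Par × (KK × V) =>
      q.1.2 (tI q.2.1) * (q.2.1 : V) 0 ^ 3 / (nsq (q.2.1 : V) : ℂ) ^ 2 := by
    refine (h2.mul (h3.pow 3)).div (h4.pow 2) fun q => ?_
    have := (nsq_pos (KK_ne q.2.1)).ne'
    exact pow_ne_zero 2 (by exact_mod_cast this)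
  exact ((Complex.continuous_ofReal.comp h1).smul (hv.const_smul I)).add (h6.smul h5)

/-- the pairs of coefficients and parameters with positivity -/
def OO : Set (N × Par) := {y | ∀ q ∈ WW, 0 < PP y.1 q.1 q.2 (J y.2 q.1 q.2)}

theorem isOpen_OO : IsOpen OO := by
  rw [isOpen_iff_eventually]
  intro y₀ h₀
  refine isCompact_WW.eventually_forall_of_forall_eventually
    (P := fun (y : N × Par) (q : KK × V) => 0 < PP y.1 q.1 q.2 (J y.2 q.1 q.2)) fun q hq => ?_
  have hc : Continuous fun r : (N × Par) × (KK × V) =>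
      PP r.1.1 r.2.1 r.2.2 (J r.1.2 r.2.1 r.2.2) := by
    unfold PP
    have hJ : Continuous fun r : (N × Par) × (KK × V) => J r.1.2 r.2.1 r.2.2 :=
      continuous_J.comp ((continuous_snd.comp continuous_fst).prodMk continuous_snd)
    refine continuous_finsetSum _ fun i _ => continuous_finsetSum _ fun j _ => ?_
    have h1 : Continuous fun r : (N × Par) × (KK × V) => co r.2.2 i :=
      (continuous_co i).comp (continuous_snd.comp continuous_snd)
    have h2 : Continuous fun r : (N × Par) × (KK × V) => co (J r.1.2 r.2.1 r.2.2) j :=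
      (continuous_co j).comp hJ
    have h3 : Continuous fun η : N => η i j := continuous_apply_apply i j
    have h4 : Continuous fun r : (N × Par) × (KK × V) => r.1.1 i j :=
      h3.comp (continuous_fst.comp continuous_fst)
    have h5 : Continuous fun r : (N × Par) × (KK × V) => (r.1.1 i j) r.2.1 :=
      h4.eval (continuous_fst.comp continuous_snd)
    exact (h1.mul h2).mul h5
  exact hc.continuousAt.eventually_const_lt (h₀ q hq)

theorem nsq_real (s : ℝ) (v : V) : nsq ((s : ℂ) • v) = s ^ 2 * nsq v := by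
  rw [nsq_scale]
  simp

theorem hp_real (z : V) (s : ℝ) (v : V) : hp z ((s : ℂ) • v) = s * hp z v := hp_smul _ _ _

theorem mem_OO (Ω : Forms) (p : Par) : (resN Ω, p) ∈ OO ↔ TameF Ω.val p := by
  constructor
  · intro h
    refine tameF_of_hor Ω.property fun z hz v hv h0 => ?_
    have hr : 0 < ‖z‖⁻¹ := inv_pos.2 (norm_pos_iff.2 hz)
    have hc : ((‖z‖⁻¹ : ℝ) : ℂ) ≠ 0 := by exact_mod_cast hr.ne'
    have hn : 0 < nsq v := nsq_pos hv
    have hs : 0 < (‖z‖ * (√(nsq v))⁻¹) :=
      mul_pos (norm_pos_iff.2 hz) (inv_pos.2 (Real.sqrt_pos.2 hn))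
    have h1 : ((‖z‖⁻¹ : ℝ) : ℂ) • z ∈ KK := by
      rw [mem_sphere_zero_iff_norm, norm_smul, Complex.norm_real, Real.norm_eq_abs,
        abs_of_pos hr, inv_mul_cancel₀ (norm_pos_iff.2 hz).ne']
    have h2 := h (⟨_, h1⟩, ((‖z‖⁻¹ : ℝ) : ℂ) • (((‖z‖ * (√(nsq v))⁻¹ : ℝ) : ℂ) • v)) ⟨?_, ?_⟩
    · rw [PP_res] at h2
      exact (pos_scale Ω.property p hz hc hs.ne' v).1 h2
    · show nsq (((‖z‖⁻¹ : ℝ) : ℂ) • (((‖z‖ * (√(nsq v))⁻¹ : ℝ) : ℂ) • v)) = 1
      rw [nsq_real, nsq_real]
      have h5 := (norm_pos_iff.2 hz).ne'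
      have h6 : √(nsq v) ^ 2 = nsq v := Real.sq_sqrt hn.le
      have h7 := (Real.sqrt_pos.2 hn).ne'
      field_simp
      rw [h6]
    · show hp (((‖z‖⁻¹ : ℝ) : ℂ) • z) (((‖z‖⁻¹ : ℝ) : ℂ) •
        (((‖z‖ * (√(nsq v))⁻¹ : ℝ) : ℂ) • v)) = 0
      rw [hp_scale, hp_real, h0, mul_zero, mul_zero]
  · rintro h ⟨z, v⟩ ⟨h1, h2⟩
    rw [PP_res]
    refine h z (KK_ne z) v ?_
    rintro ⟨c, hc⟩
    have h1' : nsq v = 1 := h1
    have h2' : hp (z : V) v = 0 := h2
    have hz := (nsq_pos (KK_ne z)).ne'
    rw [hc, hp_smul, hp_self] at h2'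
    have h3 : c = 0 := by
      rcases mul_eq_zero.1 h2' with h | h
      · exact h
      · exact absurd (by exact_mod_cast h) hz
    rw [hc, h3, zero_smul] at h1'
    rw [nsq_eq] at h1'
    simp at h1'

end Pool.Agent.K6.H10.SU
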