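import Pool.Agent.K6.H10.SU.Fin

/-!
# The symmetry
-/

set_option autoImplicit false

open scoped ContDiff Topology ComplexConjugate

noncomputable section

namespace Pool.Agent.K6.H10.SU

open Pool.Agent.K6.H10.SY
open Complex (I normSq)

/-- the matrix with rows `(α, - β̄)` and `(β, ᾱ)` acting on the last two coordinates -/
def rot (α β : ℂ) (z : V) : V := ![z 0, α * z 1 - conj β * z 2, β * z 1 + conj α * z 2]

/-- forms which are invariant under the group `SU(2)` acting on the last two coordinates -/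
def SUInv (Ω : V → Bil) : Prop :=
  ∀ α β : ℂ, ‖α‖ ^ 2 + ‖β‖ ^ 2 = 1 → ∀ z v w : V,
    Ω (rot α β z) (rot α β v) (rot α β w) = Ω z v w

section

variable {α β : ℂ} (h : ‖α‖ ^ 2 + ‖β‖ ^ 2 = 1)

theorem rot_zero (α β : ℂ) : rot α β 0 = 0 := by
  funext i
  fin_cases i <;> simp [rot]

theorem rot_comb (α β : ℂ) (z v : V) (t : ℝ) :
    rot α β (z + t • v) = rot α β z + t • rot α β v := by
  funext i
  fin_cases i <;> simp [rot] <;> ring

include h in
theorem unit_eq : α * conj α + β * conj β = 1 := by
  rw [Complex.mul_conj, Complex.mul_conj, Complex.normSq_eq_norm_sq, Complex.normSq_eq_norm_sq]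
  exact_mod_cast h

include h in
theorem hp_rot (z w : V) : hp (rot α β z) (rot α β w) = hp z w := by
  have h1 := unit_eq h
  rw [hp_eq, hp_eq]
  simp only [rot, Matrix.cons_val_zero, Matrix.cons_val_one, Matrix.cons_val, map_sub, map_add,
    map_mul, Complex.conj_conj]
  linear_combination (conj (z 1) * w 1 + conj (z 2) * w 2) * h1

include h in
theorem nsq_rot (z : V) : nsq (rot α β z) = nsq z := by
  have h1 := hp_rot h z z
  rw [hp_self, hp_self] at h1
  exact_mod_cast h1

include h in
theorem th_rot (z w : V) : th (rot α β z) (rot α β w) = th z w := by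
  have h1 := unit_eq h
  unfold th
  simp only [rot, Matrix.cons_val_zero, Matrix.cons_val_one, Matrix.cons_val]
  linear_combination (z 1 * w 2 - z 2 * w 1) * h1

theorem rot_0 (z : V) : rot α β z 0 = z 0 := rfl

include h in
theorem TT_rot (z : V) : TT (rot α β z) = TT z := by
  unfold TT
  rw [nsq_rot h, rot_0]

include h in
theorem rot_ne {z : V} (hz : z ≠ 0) : rot α β z ≠ 0 := by
  intro h0
  have h1 := nsq_rot h z
  rw [h0] at h1
  have h2 := nsq_pos hz
  rw [← h1, nsq_eq] at h2
  simp at h2

include h in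
theorem al_rot (k : ℝ → ℝ) (m : ℝ → ℂ) (z v : V) :
    al k m (rot α β z) (rot α β v) = al k m z v := by
  rw [al_apply, al_apply, TT_rot h, hp_rot h, nsq_rot h, th_rot h, rot_0, rot_0]

include h in
theorem ext_al_rot {k : ℝ → ℝ} {m : ℝ → ℂ} (hk : ContDiff ℝ ∞ k) (hm : ContDiff ℝ ∞ m) {z : V}
    (hz : z ≠ 0) (v w : V) :
    ext (al k m) (rot α β z) (rot α β v) (rot α β w) = ext (al k m) z v w := by
  have h0 : ∀ v w : V, fderiv ℝ (al k m) (rot α β z) (rot α β v) (rot α β w) =
      fderiv ℝ (al k m) z v w := by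
    intro v w
    have h1 := line_apply (al_smooth hk hm) (rot_ne h hz) (rot α β v) (const_line (rot α β w))
    have h2 := line_apply (al_smooth hk hm) hz v (const_line w)
    simp only [map_zero, add_zero] at h1 h2
    have h3 : (fun t : ℝ => al k m (rot α β z + t • rot α β v) (rot α β w)) =
        fun t : ℝ => al k m (z + t • v) w := by
      funext t
      rw [← rot_comb, al_rot h]
    rw [h3] at h1
    exact h1.unique h2
  show fderiv ℝ (al k m) (rot α β z) (rot α β v) (rot α β w) -
    fderiv ℝ (al k m) (rot α β z) (rot α β w) (rot α β v) =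
    fderiv ℝ (al k m) z v w - fderiv ℝ (al k m) z w v
  rw [h0, h0]

theorem herm_hp (z v w : V) : herm 1 s00 1 z v w =
    nsq z * hp v w - conj (hp z v) * hp z w := by
  have hd : ∀ (j : Fin 2) (u : V), ds s00 j z u = 0 := by
    intro j u
    unfold ds s00
    simp
  unfold herm qq hh
  rw [Phi_zero]
  simp [hd]

include h in
theorem fs_rot (z v w : V) : fs (rot α β z) (rot α β v) (rot α β w) = fs z v w := by
  by_cases hz : z = 0
  · rw [hz, rot_zero, fs, if_pos rfl]
    rfl
  · rw [fs, if_neg (rot_ne h hz), fs, if_neg hz, log_zero,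
      ext_formula sec_zero one_pos (rot_ne h hz), ext_formula sec_zero one_pos hz, herm_hp,
      herm_hp, Phi_zero, Phi_zero, nsq_rot h, hp_rot h, hp_rot h, hp_rot h]

end

theorem inv_Om {k : ℝ → ℝ} {m : ℝ → ℂ} (hk : ContDiff ℝ ∞ k) (hm : ContDiff ℝ ∞ m) :
    SUInv (Om k m) := by
  intro α β h z v w
  by_cases hz : z = 0
  · rw [hz, rot_zero, Om, if_pos rfl]
    rfl
  · rw [Om, if_neg (rot_ne h hz), Om, if_neg hz]
    show fs _ _ _ + ext _ _ _ _ = fs _ _ _ + ext _ _ _ _
    rw [fs_rot h, ext_al_rot h hk hm hz]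

/-- the theorem for a convex set of forms which contains the invariant forms -/
theorem contractible_inv {C : Set (V → Bil)} (hC : Convex ℝ C)
    (hex : ∀ Ω, IsForm Ω → InClass Ω → SUInv Ω → Ω ∈ C) : ContractibleSpace (TS C) :=
  contractible_TS hC fun _ _ hk hm =>
    hex _ (isForm_Om hk hm) (inClass_Om hk hm) (inv_Om hk hm)

end Pool.Agent.K6.H10.SU
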