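import Pool.Agent.K6.H10.SY.Final

/-!
# The exterior derivative of a one-form on the projective plane
-/

set_option autoImplicit false

open scoped ContDiff Topology ComplexConjugate

noncomputable section

namespace Pool.Agent.K6.H10.SU

open Pool.Agent.K6.H10.SY

/-- the value of the derivative of a one-form along a line -/
theorem line_apply {α : V → Lin} (h : ContDiffOn ℝ ∞ α V') {z : V} (hz : z ≠ 0) (v : V)
    {f : ℝ → V} {f' : V} (hf : HasDerivAt f f' 0) :
    HasDerivAt (fun t : ℝ => α (z + t • v) (f t)) (fderiv ℝ α z v (f 0) + α z f') 0 := by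
  have h1 := line (diffAt h hz).hasFDerivAt v
  have h2 := h1.clm_apply hf
  simpa using h2

theorem const_line (w : V) : HasDerivAt (fun _ : ℝ => w) (0 : V) 0 := hasDerivAt_const _ _

theorem eventually_ne {z : V} (hz : z ≠ 0) (v : V) : ∀ᶠ t : ℝ in 𝓝 0, z + t • v ≠ 0 := by
  have h : Continuous fun t : ℝ => z + t • v := by fun_prop
  have h1 : Filter.Tendsto (fun t : ℝ => z + t • v) (𝓝 0) (𝓝 z) := by
    have := h.tendsto 0
    simpa using this
  exact h1.eventually_ne hz

theorem ext_inv {α : V → Lin} (h : IsOne α) {z : V} (hz : z ≠ 0) {c : ℂ} (hc : c ≠ 0)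
    (v w : V) : fderiv ℝ α (c • z) (c • v) (c • w) = fderiv ℝ α z v w := by
  have h1 := line_apply h.smooth (smul_ne_zero hc hz) (c • v) (const_line (c • w))
  have h2 := line_apply h.smooth hz v (const_line w)
  simp only [map_zero, add_zero] at h1 h2
  have h3 : (fun t : ℝ => α (c • z + t • c • v) (c • w)) =ᶠ[𝓝 0]
      fun t : ℝ => α (z + t • v) w := by
    filter_upwards [eventually_ne hz v] with t ht
    have : c • z + t • c • v = c • (z + t • v) := by
      rw [smul_add, smul_comm]
    rw [this]
    exact h.inv _ ht c hc w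
  exact h1.unique (h2.congr_of_eventuallyEq h3)

theorem ext_hor {α : V → Lin} (h : IsOne α) {z : V} (hz : z ≠ 0) (c : ℂ) (w : V) :
    ext α z (c • z) w = 0 := by
  -- the derivative of `α y (c y) = 0` in the direction `w`
  have hw : HasDerivAt (fun t : ℝ => c • (z + t • w)) (c • w) 0 := by
    have h0 : HasDerivAt (fun t : ℝ => z + t • w) w 0 := by
      simpa using ((hasDerivAt_id (0 : ℝ)).smul_const w).const_add z
    exact h0.const_smul c
  have h1 := line_apply h.smooth hz w hw
  have h2 : HasDerivAt (fun t : ℝ => α (z + t • w) (c • (z + t • w))) 0 0 := by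
    refine (hasDerivAt_const (0 : ℝ) (0 : ℝ)).congr_of_eventuallyEq ?_
    filter_upwards [eventually_ne hz w] with t ht
    exact h.hor _ ht c
  have e1 := h1.unique h2
  -- the derivative of `α ((1 + t c) z) ((1 + t c) w) = α z w`
  have hv : HasDerivAt (fun t : ℝ => w + t • (c • w)) (c • w) 0 := by
    simpa using ((hasDerivAt_id (0 : ℝ)).smul_const (c • w)).const_add w
  have h3 := line_apply h.smooth hz (c • z) hv
  have h4 : HasDerivAt (fun t : ℝ => α (z + t • (c • z)) (w + t • (c • w))) 0 0 := by
    refine (hasDerivAt_const (0 : ℝ) (α z w)).congr_of_eventuallyEq ?_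
    filter_upwards [eventually_ne hz (c • z)] with t ht
    have hs : ∀ u : V, u + t • (c • u) = (1 + (t : ℂ) * c) • u := by
      intro u
      funext i
      simp only [Pi.add_apply, Pi.smul_apply, smul_eq_mul, Complex.real_smul]
      ring
    have hc0 : (1 + (t : ℂ) * c) ≠ 0 := by
      intro h0
      apply ht
      rw [hs, h0, zero_smul]
    rw [hs, hs]
    exact h.inv z hz _ hc0 w
  have e2 := h3.unique h4
  simp only [zero_smul, add_zero] at e1 e2
  show fderiv ℝ α z (c • z) w - fderiv ℝ α z w (c • z) = 0
  linarith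

/-- the exterior derivative of a one-form -/
theorem isForm_ext {α : V → Lin} (h : IsOne α) :
    IsForm (fun z => open Classical in if z = 0 then 0 else ext α z) where
  zero := by simp
  smooth := by
    have h0 : ContDiffOn ℝ ∞ (fun p : ℝ × V => α p.2) (Set.univ ×ˢ V') :=
      h.smooth.comp contDiff_snd.contDiffOn fun p hp => hp.2
    have h1 := ext_smooth (F := fun _ : ℝ => α) (isOpen_univ.prod isOpen_V') h0
    have h2 : ContDiffOn ℝ ∞ (ext α) V' :=
      h1.comp (contDiff_prodMk_right (0 : ℝ)).contDiffOn fun _ hz => ⟨trivial, hz⟩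
    refine h2.congr fun z hz => ?_
    exact if_neg hz
  alt z v := by
    by_cases hz : z = 0
    · simp [hz]
    · simp only [if_neg hz]
      exact sub_self _
  inv z hz c hc v w := by
    simp only [if_neg hz, if_neg (smul_ne_zero hc hz)]
    show fderiv ℝ α (c • z) (c • v) (c • w) - fderiv ℝ α (c • z) (c • w) (c • v) =
      fderiv ℝ α z v w - fderiv ℝ α z w v
    rw [ext_inv h hz hc, ext_inv h hz hc]
  hor z hz c w := by
    simp only [if_neg hz]
    exact ext_hor h hz c w

theorem isForm_fs : IsForm fs := by
  have h := isForm_tau sec_zero one_pos (ε := 1) one_pos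
  have h1 : tau 1 s00 1 = fs := by
    funext z
    by_cases hz : z = 0
    · rw [tau, if_pos hz, fs, if_pos hz]
    · rw [tau, if_neg hz, fs, if_neg hz, log_zero]
      simp
  rwa [h1] at h

end Pool.Agent.K6.H10.SU
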