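import Pool.Agent.K6.H10.SU.Quad
import Pool.Agent.K6.H10.SU.Ext

/-!
# The theorem of Stokes on a projective line
-/

set_option autoImplicit false

open scoped ContDiff Topology ComplexConjugate Interval
open MeasureTheory

noncomputable section

namespace Pool.Agent.K6.H10.SU

open Pool.Agent.K6.H10.SY
open Complex (I normSq)

/-- the line -/
def zz (p : ℝ × ℝ) : V := ![0, (Real.cos p.1 : ℂ), (Real.sin p.1 : ℂ) * Complex.exp (p.2 * I)]
/-- derivatives -/
def zs (p : ℝ × ℝ) : V := ![0, ((-Real.sin p.1 : ℝ) : ℂ), (Real.cos p.1 : ℂ) * Complex.exp (p.2 * I)]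
/-- derivatives -/
def zt (p : ℝ × ℝ) : V := ![0, 0, (Real.sin p.1 : ℂ) * (Complex.exp (p.2 * I) * I)]
/-- derivatives -/
def zst (p : ℝ × ℝ) : V := ![0, 0, (Real.cos p.1 : ℂ) * (Complex.exp (p.2 * I) * I)]
/-- derivatives -/
def zss (p : ℝ × ℝ) : V :=
  ![0, ((-Real.cos p.1 : ℝ) : ℂ), ((-Real.sin p.1 : ℝ) : ℂ) * Complex.exp (p.2 * I)]
/-- derivatives -/
def ztt (p : ℝ × ℝ) : V := ![0, 0, (Real.sin p.1 : ℂ) * (Complex.exp (p.2 * I) * I * I)]

/-- the linear map with given values -/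
def lm (u v : V) : ℝ × ℝ →L[ℝ] V :=
  (ContinuousLinearMap.fst ℝ ℝ ℝ).smulRight u + (ContinuousLinearMap.snd ℝ ℝ ℝ).smulRight v

theorem lm_apply (u v : V) (x : ℝ × ℝ) : lm u v x = x.1 • u + x.2 • v := rfl

theorem prod_deriv {c e : ℝ → ℂ} {c' e' : ℂ} {p : ℝ × ℝ} (hc : HasDerivAt c c' p.1)
    (he : HasDerivAt e e' p.2) : HasFDerivAt (fun q : ℝ × ℝ => c q.1 * e q.2)
      ((ContinuousLinearMap.fst ℝ ℝ ℝ).smulRight (c' * e p.2) +
        (ContinuousLinearMap.snd ℝ ℝ ℝ).smulRight (c p.1 * e')) p := by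
  have h1 := hc.hasFDerivAt.comp p (hasFDerivAt_fst (𝕜 := ℝ) (p := p))
  have h2 := he.hasFDerivAt.comp p (hasFDerivAt_snd (𝕜 := ℝ) (p := p))
  have h3 := h1.mul h2
  refine h3.congr_fderiv ?_
  ext <;> simp <;> ring

theorem exp_deriv (x : ℝ) : HasDerivAt (fun t : ℝ => Complex.exp (t * I))
    (Complex.exp (x * I) * I) x := by
  have h1 : HasDerivAt (fun t : ℝ => (t : ℂ) * I) (1 * I) x :=
    (Complex.ofRealCLM.hasDerivAt (x := x)).mul_const I
  have h2 := h1.cexp
  simpa using h2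

theorem exp_deriv' (x : ℝ) : HasDerivAt (fun t : ℝ => Complex.exp (t * I) * I)
    (Complex.exp (x * I) * I * I) x := (exp_deriv x).mul_const I

theorem cos_deriv (x : ℝ) : HasDerivAt (fun t : ℝ => (Real.cos t : ℂ)) ((-Real.sin x : ℝ) : ℂ) x :=
  (Real.hasDerivAt_cos x).ofReal_comp

theorem sin_deriv (x : ℝ) : HasDerivAt (fun t : ℝ => (Real.sin t : ℂ)) ((Real.cos x : ℝ) : ℂ) x :=
  (Real.hasDerivAt_sin x).ofReal_comp

theorem sin_deriv' (x : ℝ) : HasDerivAt (fun t : ℝ => ((-Real.sin t : ℝ) : ℂ))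
    ((-Real.cos x : ℝ) : ℂ) x :=
  (Real.hasDerivAt_sin x).neg.ofReal_comp

theorem one_deriv (x : ℝ) : HasDerivAt (fun _ : ℝ => (1 : ℂ)) 0 x := hasDerivAt_const _ _

theorem zz_deriv (p : ℝ × ℝ) : HasFDerivAt zz (lm (zs p) (zt p)) p := by
  rw [hasFDerivAt_pi']
  intro i
  fin_cases i
  · refine (hasFDerivAt_const (0 : ℂ) p).congr_fderiv ?_
    ext <;> simp [lm, zs, zt]
  · have h := prod_deriv (cos_deriv p.1) (one_deriv p.2)
    simp only [mul_one, mul_zero] at h
    refine h.congr_fderiv ?_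
    ext <;> simp [lm, zs, zt]
  · refine (prod_deriv (sin_deriv p.1) (exp_deriv p.2)).congr_fderiv ?_
    ext <;> simp [lm, zs, zt]

theorem zs_deriv (p : ℝ × ℝ) : HasFDerivAt zs (lm (zss p) (zst p)) p := by
  rw [hasFDerivAt_pi']
  intro i
  fin_cases i
  · refine (hasFDerivAt_const (0 : ℂ) p).congr_fderiv ?_
    ext <;> simp [lm, zss, zst]
  · have h := prod_deriv (sin_deriv' p.1) (one_deriv p.2)
    simp only [mul_one, mul_zero] at h
    refine h.congr_fderiv ?_
    ext <;> simp [lm, zss, zst]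
  · refine (prod_deriv (cos_deriv p.1) (exp_deriv p.2)).congr_fderiv ?_
    ext <;> simp [lm, zss, zst]

theorem zt_deriv (p : ℝ × ℝ) : HasFDerivAt zt (lm (zst p) (ztt p)) p := by
  rw [hasFDerivAt_pi']
  intro i
  fin_cases i
  · refine (hasFDerivAt_const (0 : ℂ) p).congr_fderiv ?_
    ext <;> simp [lm, ztt, zst]
  · refine (hasFDerivAt_const (0 : ℂ) p).congr_fderiv ?_
    ext <;> simp [lm, ztt, zst]
  · refine (prod_deriv (sin_deriv p.1) (exp_deriv' p.2)).congr_fderiv ?_
    ext <;> simp [lm, ztt, zst]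

theorem zz_ne (p : ℝ × ℝ) : zz p ≠ 0 := by
  intro h
  have h1 : zz p 1 = 0 := by rw [h]; rfl
  have h2 : zz p 2 = 0 := by rw [h]; rfl
  have h3 : (Real.cos p.1 : ℂ) = 0 := h1
  have h4 : (Real.sin p.1 : ℂ) * Complex.exp (p.2 * I) = 0 := h2
  have h5 : (Real.sin p.1 : ℂ) = 0 := by
    rcases mul_eq_zero.1 h4 with h5 | h5
    · exact h5
    · exact absurd h5 (Complex.exp_ne_zero _)
  have h6 : Real.cos p.1 = 0 := by exact_mod_cast h3
  have h7 : Real.sin p.1 = 0 := by exact_mod_cast h5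
  have h8 := Real.sin_sq_add_cos_sq p.1
  rw [h6, h7] at h8
  norm_num at h8

theorem cont_of {G : Type} [NormedAddCommGroup G] [NormedSpace ℝ G] {f : ℝ × ℝ → G}
    {f' : ℝ × ℝ → ℝ × ℝ →L[ℝ] G} (h : ∀ p, HasFDerivAt f (f' p) p) : Continuous f :=
  continuous_iff_continuousAt.2 fun p => (h p).continuousAt

section

variable {α : V → Lin} (h : IsOne α)

include h in
theorem al_deriv (p : ℝ × ℝ) : HasFDerivAt (fun q => α (zz q))
    ((fderiv ℝ α (zz p)).comp (lm (zs p) (zt p))) p :=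
  (diffAt h.smooth (zz_ne p)).hasFDerivAt.comp p (zz_deriv p)

include h in
theorem f_deriv (p : ℝ × ℝ) : HasFDerivAt (fun q => α (zz q) (zt q))
    ((α (zz p)).comp (lm (zst p) (ztt p)) +
      ((fderiv ℝ α (zz p)).comp (lm (zs p) (zt p))).flip (zt p)) p :=
  (al_deriv h p).clm_apply (zt_deriv p)

include h in
theorem g_deriv (p : ℝ × ℝ) : HasFDerivAt (fun q => -(α (zz q) (zs q)))
    (-((α (zz p)).comp (lm (zss p) (zst p)) +
      ((fderiv ℝ α (zz p)).comp (lm (zs p) (zt p))).flip (zs p))) p :=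
  ((al_deriv h p).clm_apply (zs_deriv p)).neg

include h in
theorem cont_fd : Continuous fun p : ℝ × ℝ => fderiv ℝ α (zz p) := by
  have h1 : ContDiffOn ℝ ∞ (fderiv ℝ α) V' :=
    h.smooth.fderiv_of_isOpen isOpen_V' (by simp)
  have h2 : ContinuousOn (fderiv ℝ α) V' := h1.continuousOn
  have h3 : Continuous fun p : ℝ × ℝ => (⟨zz p, zz_ne p⟩ : V') :=
    (cont_of zz_deriv).subtype_mk _
  exact (continuousOn_iff_continuous_domRestrict.1 h2).comp h3

include h in
theorem cont_ext : Continuous fun p : ℝ × ℝ => ext α (zz p) (zs p) (zt p) := by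
  have h1 := cont_fd h
  have h2 := cont_of zs_deriv
  have h3 := cont_of zt_deriv
  exact ((h1.clm_apply h2).clm_apply h3).sub ((h1.clm_apply h3).clm_apply h2)

include h in
/-- the theorem of Stokes on a line -/
theorem stokes : ∫ x in (0 : ℝ)..(Real.pi / 2), ∫ y in (0 : ℝ)..(2 * Real.pi),
    ext α (zz (x, y)) (zs (x, y)) (zt (x, y)) = 0 := by
  have key := integral2_divergence_prod_of_hasFDerivAt_off_countable
    (fun q => α (zz q) (zt q)) (fun q => -(α (zz q) (zs q))) _ _ (0 : ℝ) 0 (Real.pi / 2)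
    (2 * Real.pi) ∅ Set.countable_empty (cont_of (f_deriv h)).continuousOn
    (cont_of (g_deriv h)).continuousOn (fun x _ => f_deriv h x) (fun x _ => g_deriv h x) ?_
  · have e1 : ∀ p : ℝ × ℝ, ((α (zz p)).comp (lm (zst p) (ztt p)) +
        ((fderiv ℝ α (zz p)).comp (lm (zs p) (zt p))).flip (zt p)) (1, 0) +
        (-((α (zz p)).comp (lm (zss p) (zst p)) +
        ((fderiv ℝ α (zz p)).comp (lm (zs p) (zt p))).flip (zs p))) (0, 1) =
        ext α (zz p) (zs p) (zt p) := by
      intro p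
      show (α (zz p) (lm (zst p) (ztt p) (1, 0)) +
        fderiv ℝ α (zz p) (lm (zs p) (zt p) (1, 0)) (zt p)) +
        -(α (zz p) (lm (zss p) (zst p) (0, 1)) +
          fderiv ℝ α (zz p) (lm (zs p) (zt p) (0, 1)) (zs p)) =
        fderiv ℝ α (zz p) (zs p) (zt p) - fderiv ℝ α (zz p) (zt p) (zs p)
      simp only [lm_apply, one_smul, zero_smul, add_zero, zero_add]
      ring
    simp only [e1] at key
    rw [key]
    have e2 : ∀ x : ℝ, zz (x, 2 * Real.pi) = zz (x, 0) := by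
      intro x
      unfold zz
      simp only [Complex.ofReal_mul, Complex.ofReal_ofNat, Complex.exp_two_pi_mul_I,
        Complex.ofReal_zero, zero_mul, Complex.exp_zero]
    have e3 : ∀ x : ℝ, zs (x, 2 * Real.pi) = zs (x, 0) := by
      intro x
      unfold zs
      simp only [Complex.ofReal_mul, Complex.ofReal_ofNat, Complex.exp_two_pi_mul_I,
        Complex.ofReal_zero, zero_mul, Complex.exp_zero]
    have e4 : ∀ y : ℝ, α (zz (Real.pi / 2, y)) (zt (Real.pi / 2, y)) = 0 := by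
      intro y
      have : zt (Real.pi / 2, y) = I • zz (Real.pi / 2, y) := by
        unfold zt zz
        funext i
        fin_cases i
        · simp
        · simp
        · simp
          ring
      rw [this]
      exact h.hor _ (zz_ne _) I
    have e5 : ∀ y : ℝ, α (zz (0, y)) (zt (0, y)) = 0 := by
      intro y
      have : zt (0, y) = 0 := by
        unfold zt
        funext i
        fin_cases i <;> simp
      rw [this, map_zero]
    simp only [e2, e3, e4, e5]
    simp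
  · refine (Continuous.continuousOn ?_).integrableOn_compact
      (isCompact_uIcc.prod isCompact_uIcc)
    have h1 := cont_ext h
    refine h1.congr fun p => ?_
    show fderiv ℝ α (zz p) (zs p) (zt p) - fderiv ℝ α (zz p) (zt p) (zs p) =
      (α (zz p) (lm (zst p) (ztt p) (1, 0)) +
        fderiv ℝ α (zz p) (lm (zs p) (zt p) (1, 0)) (zt p)) +
        -(α (zz p) (lm (zss p) (zst p) (0, 1)) +
          fderiv ℝ α (zz p) (lm (zs p) (zt p) (0, 1)) (zs p))
    simp only [lm_apply, one_smul, zero_smul, add_zero, zero_add]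
    ring

end

theorem hp_zz_zs (p : ℝ × ℝ) : hp (zz p) (zs p) = 0 := by
  rw [hp_eq]
  have h1 : conj (Complex.exp (p.2 * I)) * Complex.exp (p.2 * I) = 1 := by
    rw [← Complex.exp_conj, ← Complex.exp_add]
    simp
  simp only [zz, zs, Matrix.cons_val_zero, Matrix.cons_val_one, Matrix.cons_val, map_mul,
    Complex.conj_ofReal, map_zero, zero_mul, zero_add]
  push_cast
  linear_combination (Complex.sin (p.1 : ℂ) * Complex.cos (p.1 : ℂ)) * h1

theorem nsq_zz (p : ℝ × ℝ) : nsq (zz p) = 1 := by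
  rw [nsq_eq]
  simp only [zz, Matrix.cons_val_zero, Matrix.cons_val_one, Matrix.cons_val, norm_mul,
    Complex.norm_real, Complex.norm_exp_ofReal_mul_I, mul_one, norm_zero, Real.norm_eq_abs,
    sq_abs]
  have := Real.sin_sq_add_cos_sq p.1
  linarith

theorem nsq_zs (p : ℝ × ℝ) : nsq (zs p) = 1 := by
  rw [nsq_eq]
  simp only [zs, Matrix.cons_val_zero, Matrix.cons_val_one, Matrix.cons_val, norm_mul,
    Complex.norm_real, Complex.norm_exp_ofReal_mul_I, mul_one, norm_zero, Real.norm_eq_abs,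
    sq_abs, neg_sq]
  have := Real.sin_sq_add_cos_sq p.1
  linarith

theorem zt_eq (p : ℝ × ℝ) : zt p = (((Real.sin p.1 ^ 2 : ℝ) : ℂ) * I) • zz p +
    (Real.sin p.1 * Real.cos p.1) • (I • zs p) := by
  have h := Complex.sin_sq_add_cos_sq (p.1 : ℂ)
  funext i
  fin_cases i
  · simp [zt, zz, zs]
  · simp [zt, zz, zs]
    ring
  · simp [zt, zz, zs]
    linear_combination (-(Complex.sin (p.1 : ℂ) * Complex.exp (p.2 * I) * I)) * h

theorem form_st {Ω : V → Bil} (h : IsForm Ω) (p : ℝ × ℝ) : Ω (zz p) (zs p) (zt p) =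
    Real.sin p.1 * Real.cos p.1 * Ω (zz p) (zs p) (I • zs p) := by
  have e : Ω (zz p) (zs p) ((((Real.sin p.1 ^ 2 : ℝ) : ℂ) * I) • zz p) = 0 := by
    rw [antisymm (h.alt (zz p)), h.hor _ (zz_ne p), neg_zero]
  rw [zt_eq, map_add, e, map_smul (Ω (zz p) (zs p)) (Real.sin p.1 * Real.cos p.1) (I • zs p),
    smul_eq_mul, zero_add]

theorem fs_st (p : ℝ × ℝ) : fs (zz p) (zs p) (I • zs p) = 4 := by
  rw [fs_hor (nsq_zz p) (hp_zz_zs p), hp_smul, hp_self, nsq_zs]
  simp

/-- a form in the class is positive somewhere on the line -/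
theorem exists_pos {Ω : V → Bil} (hF : IsForm Ω) (h : InClass Ω) :
    ∃ p : ℝ × ℝ, 0 < Ω (zz p) (zs p) (I • zs p) := by
  by_contra hc
  push Not at hc
  obtain ⟨α, hα, hΩ⟩ := h
  have h1 := stokes hα
  have h2 := cont_ext hα
  have h3 : ∀ p : ℝ × ℝ, -ext α (zz p) (zs p) (zt p) =
      Real.sin p.1 * Real.cos p.1 * (4 - Ω (zz p) (zs p) (I • zs p)) := by
    intro p
    have e1 := form_st hF p
    have e2 := form_st isForm_fs p
    rw [fs_st] at e2
    have e3 : Ω (zz p) (zs p) (zt p) = fs (zz p) (zs p) (zt p) + ext α (zz p) (zs p) (zt p) := by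
      rw [hΩ _ (zz_ne p)]
      rfl
    linarith
  have hpos : ∀ x ∈ Set.Ioo (0 : ℝ) (Real.pi / 2), ∀ y : ℝ,
      0 < -ext α (zz (x, y)) (zs (x, y)) (zt (x, y)) := by
    intro x hx y
    rw [h3]
    have s1 : 0 < Real.sin x := Real.sin_pos_of_pos_of_lt_pi hx.1 (by linarith [hx.2, Real.pi_pos])
    have s2 : 0 < Real.cos x := Real.cos_pos_of_mem_Ioo ⟨by linarith [hx.1, Real.pi_pos], hx.2⟩
    have s3 := hc (x, y)
    exact mul_pos (mul_pos s1 s2) (by linarith)
  have h4 : 0 < ∫ x in (0 : ℝ)..(Real.pi / 2), ∫ y in (0 : ℝ)..(2 * Real.pi),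
      -ext α (zz (x, y)) (zs (x, y)) (zt (x, y)) := by
    refine intervalIntegral.intervalIntegral_pos_of_pos_on ?_ (fun x hx => ?_) (by positivity)
    · refine Continuous.intervalIntegrable ?_ _ _
      exact intervalIntegral.continuous_parametric_intervalIntegral_of_continuous'
        (f := fun x y => -ext α (zz (x, y)) (zs (x, y)) (zt (x, y))) h2.neg _ _
    · refine intervalIntegral.intervalIntegral_pos_of_pos_on ?_ (fun y _ => hpos x hx y)
        (by positivity)
      refine Continuous.intervalIntegrable ?_ _ _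
      exact h2.neg.comp (Continuous.prodMk_right x)
  simp only [intervalIntegral.integral_neg] at h4
  rw [h1] at h4
  simp at h4

end Pool.Agent.K6.H10.SU
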