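import Mathlib

/-!
# The algebraic identities
-/

set_option autoImplicit false

open scoped ComplexConjugate

noncomputable section

namespace Pool.Agent.K6.H10.SU

open Complex (I normSq)

/-- an auxiliary expression -/
def DQ (a : ℝ) (c z x y : ℂ) : ℂ :=
  2 * ((conj z * x).re : ℂ) * (a * I * y - c * conj x) -
    2 * ((conj z * (a * I * x + c * conj y)).re : ℂ) * y

/-- an auxiliary expression -/
def FQ (a : ℝ) (c x y : ℂ) : ℂ :=
  conj x * (a * I * y - c * conj x) - conj (a * I * x + c * conj y) * y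

/-- the leading part -/
def M1 (a : ℝ) (b z x y : ℂ) : ℝ :=
  4 * a * (a * normSq x + (b * z ^ 3 * conj x * conj y).im) -
    2 * (conj b * conj z ^ 2 * DQ a (b * z ^ 3) z x y).re

/-- the remaining part -/
def N1 (a a' : ℝ) (b b' z x y : ℂ) (n : ℝ) : ℝ :=
  4 * a ^ 2 * n - 4 * a' * (a * normSq x + (b * z ^ 3 * conj x * conj y).im) +
    2 * (conj b' * conj z ^ 2 * DQ a (b * z ^ 3) z x y).re +
    4 * (conj b * conj z * FQ a (b * z ^ 3) x y).re + 4 * normSq b * normSq z ^ 3 * n

theorem split_id {a a' k k' n ρ E : ℝ} {b b' m m' z x y : ℂ}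
    (h1 : 1 + normSq z * k = ρ * a) (h2 : k + normSq z * k' = ρ * (-E * a + a'))
    (hm : m = 2 * ρ * conj b) (hm' : m' = ρ * (-2 * E * conj b + 2 * conj b')) :
    4 * a * n + ((-2 * I * (-((k' * (2 * (conj z * x).re) : ℝ) : ℂ) *
        (conj z * (a * I * x + b * z ^ 3 * conj y)) +
        k * (normSq z * (a * I * n) - conj x * (a * I * x + b * z ^ 3 * conj y))) +
      (m' * ((2 * (conj z * x).re : ℝ) : ℂ) * conj z ^ 2 + m * (2 * conj z * conj x)) *
        (a * I * y - b * z ^ 3 * conj x) + m * conj z ^ 2 * (b * z ^ 3 * conj z * n)).re -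
      (-2 * I * (-((k' * (2 * (conj z * (a * I * x + b * z ^ 3 * conj y)).re) : ℝ) : ℂ) *
        (conj z * x) + k * (-normSq z * (a * I * n) -
          conj (a * I * x + b * z ^ 3 * conj y) * x)) +
      (m' * ((2 * (conj z * (a * I * x + b * z ^ 3 * conj y)).re : ℝ) : ℂ) * conj z ^ 2 +
        m * (2 * conj z * conj (a * I * x + b * z ^ 3 * conj y))) * y +
        m * conj z ^ 2 * (-(b * z ^ 3 * conj z * n))).re) =
    ρ * (E * M1 a b z x y + N1 a a' b b' z x y n) := by
  subst hm hm'
  have e1 : 4 * a * n + ((-2 * I * (-((k' * (2 * (conj z * x).re) : ℝ) : ℂ) *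
        (conj z * (a * I * x + b * z ^ 3 * conj y)) +
        k * (normSq z * (a * I * n) - conj x * (a * I * x + b * z ^ 3 * conj y)))).re -
      (-2 * I * (-((k' * (2 * (conj z * (a * I * x + b * z ^ 3 * conj y)).re) : ℝ) : ℂ) *
        (conj z * x) + k * (-normSq z * (a * I * n) -
          conj (a * I * x + b * z ^ 3 * conj y) * x))).re) =
      4 * a * n * (1 + normSq z * k) - 4 * (k + normSq z * k') *
        (a * normSq x + (b * z ^ 3 * conj x * conj y).im) := by
    generalize b * z ^ 3 = c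
    simp only [Complex.add_re, Complex.add_im, Complex.mul_re, Complex.mul_im, Complex.sub_re,
      Complex.sub_im, Complex.conj_re, Complex.conj_im, Complex.ofReal_re, Complex.ofReal_im,
      Complex.I_re, Complex.I_im, Complex.neg_re, Complex.neg_im, Complex.normSq_apply,
      Complex.re_ofNat, Complex.im_ofNat]
    ring
  have e2 : ∀ m m' c : ℂ, ((m' * ((2 * (conj z * x).re : ℝ) : ℂ) * conj z ^ 2 +
        m * (2 * conj z * conj x)) *
        (a * I * y - c * conj x) + m * conj z ^ 2 * (c * conj z * n)) -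
      ((m' * ((2 * (conj z * (a * I * x + c * conj y)).re : ℝ) : ℂ) * conj z ^ 2 +
        m * (2 * conj z * conj (a * I * x + c * conj y))) * y +
        m * conj z ^ 2 * (-(c * conj z * n))) =
      m' * conj z ^ 2 * DQ a c z x y + m * (2 * conj z * FQ a c x y) +
        2 * m * conj z ^ 3 * c * n := by
    intro m m' c
    unfold DQ FQ
    push_cast
    ring
  have e3 : (2 * (2 * ρ * conj b) * conj z ^ 3 * (b * z ^ 3) * n : ℂ) =
      ((4 * ρ * normSq b * normSq z ^ 3 * n : ℝ) : ℂ) := by
    push_cast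
    rw [← Complex.mul_conj, ← Complex.mul_conj]
    ring
  have e4 := congrArg Complex.re (e2 (2 * ρ * conj b) (ρ * (-2 * E * conj b + 2 * conj b'))
    (b * z ^ 3))
  rw [e3] at e4
  simp only [Complex.add_re, Complex.sub_re, Complex.ofReal_re] at e4 e1 ⊢
  have e5 : (ρ * (-2 * E * conj b + 2 * conj b') * conj z ^ 2 * DQ a (b * z ^ 3) z x y : ℂ).re =
      ρ * (-2 * E * (conj b * conj z ^ 2 * DQ a (b * z ^ 3) z x y).re +
        2 * (conj b' * conj z ^ 2 * DQ a (b * z ^ 3) z x y).re) := by
    have : (ρ * (-2 * E * conj b + 2 * conj b') * conj z ^ 2 * DQ a (b * z ^ 3) z x y : ℂ) =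
        ((ρ * (-2 * E) : ℝ) : ℂ) * (conj b * conj z ^ 2 * DQ a (b * z ^ 3) z x y) +
        ((ρ * 2 : ℝ) : ℂ) * (conj b' * conj z ^ 2 * DQ a (b * z ^ 3) z x y) := by
      push_cast
      ring
    rw [this, Complex.add_re, Complex.re_ofReal_mul, Complex.re_ofReal_mul]
    ring
  have e6 : (2 * ρ * conj b * (2 * conj z * FQ a (b * z ^ 3) x y) : ℂ).re =
      4 * ρ * (conj b * conj z * FQ a (b * z ^ 3) x y).re := by
    have : (2 * ρ * conj b * (2 * conj z * FQ a (b * z ^ 3) x y) : ℂ) =
        ((4 * ρ : ℝ) : ℂ) * (conj b * conj z * FQ a (b * z ^ 3) x y) := by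
      push_cast
      ring
    rw [this, Complex.re_ofReal_mul]
  rw [e5, e6] at e4
  rw [h1, h2] at e1
  unfold M1 N1
  linear_combination e1 + e4

theorem X_conj (z x : ℂ) : conj z * x = conj (z * conj x) := by
  rw [map_mul, Complex.conj_conj]

theorem re_DQ (a : ℝ) (b z x y u : ℂ) :
    (conj u * conj z ^ 2 * DQ a (b * z ^ 3) z x y).re =
      2 * (z * conj x).re * (-a * (conj u * conj z ^ 2 * y).im -
        normSq z ^ 2 * (conj u * b * (z * conj x)).re) -
      2 * (a * (z * conj x).im + normSq z * (conj b * conj z ^ 2 * y).re) *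
        (conj u * conj z ^ 2 * y).re := by
  have h1 : (conj z * x).re = (z * conj x).re := by rw [X_conj, Complex.conj_re]
  have h2 : (conj z * (a * I * x + b * z ^ 3 * conj y)).re =
      a * (z * conj x).im + normSq z * (conj b * conj z ^ 2 * y).re := by
    have : conj z * (a * I * x + b * z ^ 3 * conj y) =
        (a : ℂ) * (I * conj (z * conj x)) + (normSq z : ℂ) * conj (conj b * conj z ^ 2 * y) := by
      rw [← X_conj, ← Complex.mul_conj]
      simp only [map_mul, map_pow, Complex.conj_conj]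
      ring
    rw [this, Complex.add_re, Complex.re_ofReal_mul, Complex.re_ofReal_mul, Complex.conj_re]
    congr 2
    rw [Complex.I_mul_re, Complex.conj_im, neg_neg]
  unfold DQ
  rw [h1, h2]
  have h3 : conj u * conj z ^ 2 * (2 * ((z * conj x).re : ℂ) * (a * I * y - b * z ^ 3 * conj x) -
      2 * ((a * (z * conj x).im + normSq z * (conj b * conj z ^ 2 * y).re : ℝ) : ℂ) * y) =
      ((2 * (z * conj x).re : ℝ) : ℂ) * ((a : ℂ) * (I * (conj u * conj z ^ 2 * y)) -
        ((normSq z ^ 2 : ℝ) : ℂ) * (conj u * b * (z * conj x))) -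
      ((2 * (a * (z * conj x).im + normSq z * (conj b * conj z ^ 2 * y).re) : ℝ) : ℂ) *
        (conj u * conj z ^ 2 * y) := by
    push_cast
    rw [← Complex.mul_conj]
    ring
  rw [h3]
  rw [Complex.sub_re, Complex.re_ofReal_mul, Complex.re_ofReal_mul, Complex.sub_re,
    Complex.re_ofReal_mul, Complex.re_ofReal_mul, Complex.I_mul_re]
  ring

theorem im_term (b z x y : ℂ) : (b * z ^ 3 * conj x * conj y).im =
    (z * conj x).im * (conj b * conj z ^ 2 * y).re - (z * conj x).re * (conj b * conj z ^ 2 * y).im := by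
  have : b * z ^ 3 * conj x * conj y = (z * conj x) * conj (conj b * conj z ^ 2 * y) := by
    simp only [map_mul, map_pow, Complex.conj_conj]
    ring
  rw [this, Complex.mul_im, Complex.conj_re, Complex.conj_im]
  ring

theorem M1_eq (a : ℝ) (b z x y : ℂ) : M1 a b z x y =
    4 * a ^ 2 * normSq x + 4 * normSq b * normSq z ^ 2 * (z * conj x).re ^ 2 +
      8 * a * (z * conj x).im * (conj b * conj z ^ 2 * y).re +
      4 * normSq z * (conj b * conj z ^ 2 * y).re ^ 2 := by
  unfold M1
  rw [re_DQ, im_term]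
  have h : (conj b * b * (z * conj x)).re = normSq b * (z * conj x).re := by
    rw [mul_comm (conj b) b, Complex.mul_conj, Complex.re_ofReal_mul]
  rw [h]
  ring

theorem normSq_X (z x : ℂ) : (z * conj x).re ^ 2 + (z * conj x).im ^ 2 = normSq z * normSq x := by
  have h := Complex.normSq_apply (z * conj x)
  rw [Complex.normSq_mul, Complex.normSq_conj] at h
  rw [h]
  ring

theorem T_M1 (a : ℝ) (b z x y : ℂ) : normSq z * M1 a b z x y =
    (4 * normSq z ^ 3 * normSq b + 4 * a ^ 2) * (z * conj x).re ^ 2 +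
      4 * (normSq z * (conj b * conj z ^ 2 * y).re + a * (z * conj x).im) ^ 2 := by
  rw [M1_eq]
  linear_combination (-4 * a ^ 2) * normSq_X z x

theorem M1_nonneg (a : ℝ) (b z x y : ℂ) : 0 ≤ M1 a b z x y := by
  rcases (Complex.normSq_nonneg z).lt_or_eq with h | h
  · have h1 := T_M1 a b z x y
    have h2 : 0 ≤ normSq z * M1 a b z x y := by
      rw [h1]
      have := Complex.normSq_nonneg b
      positivity
    exact nonneg_of_mul_nonneg_right h2 h
  · have hz : z = 0 := Complex.normSq_eq_zero.1 h.symm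
    rw [M1_eq, hz]
    have := Complex.normSq_nonneg x
    simp
    positivity

theorem T_FQ (a : ℝ) (b z x y : ℂ) :
    normSq z * (conj b * conj z * FQ a (b * z ^ 3) x y).re =
      -2 * a * ((z * conj x) * (conj b * conj z ^ 2 * y)).im -
        normSq b * normSq z ^ 2 * ((z * conj x) ^ 2).re -
        normSq z * ((conj b * conj z ^ 2 * y) ^ 2).re := by
  have h : (normSq z : ℂ) * (conj b * conj z * FQ a (b * z ^ 3) x y) =
      ((2 * a : ℝ) : ℂ) * (I * ((z * conj x) * (conj b * conj z ^ 2 * y))) -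
        ((normSq b * normSq z ^ 2 : ℝ) : ℂ) * (z * conj x) ^ 2 -
        (normSq z : ℂ) * (conj b * conj z ^ 2 * y) ^ 2 := by
    unfold FQ
    push_cast
    rw [← Complex.mul_conj, ← Complex.mul_conj]
    simp only [map_add, map_mul, map_pow, Complex.conj_conj, Complex.conj_ofReal, Complex.conj_I]
    ring
  have h2 := congrArg Complex.re h
  rw [Complex.re_ofReal_mul, Complex.sub_re, Complex.sub_re, Complex.re_ofReal_mul,
    Complex.re_ofReal_mul, Complex.re_ofReal_mul, Complex.I_mul_re] at h2
  rw [h2]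
  ring

theorem normSq_y (b z y : ℂ) : (conj b * conj z ^ 2 * y).re ^ 2 + (conj b * conj z ^ 2 * y).im ^ 2 =
    normSq b * normSq z ^ 2 * normSq y := by
  have h := Complex.normSq_apply (conj b * conj z ^ 2 * y)
  rw [Complex.normSq_mul, Complex.normSq_mul, map_pow, Complex.normSq_conj,
    Complex.normSq_conj] at h
  rw [h]
  ring

theorem sq_re (u : ℂ) : (u ^ 2).re = u.re ^ 2 - u.im ^ 2 := by
  rw [pow_two, Complex.mul_re]
  ring

/-- the remaining part on the zeros of the leading part -/
theorem N1_zero {a : ℝ} (a' : ℝ) {b z x y : ℂ} (b' : ℂ) {n : ℝ} (hz : 0 < normSq z)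
    (hx : (z * conj x).re = 0)
    (hy : normSq z * (conj b * conj z ^ 2 * y).re + a * (z * conj x).im = 0)
    (hn : normSq x + normSq y = (1 - normSq z) * n) :
    N1 a a' b b' z x y n = 4 * n * (a ^ 2 + normSq z ^ 2 * normSq b) := by
  have h1 := T_FQ a b z x y
  have h2 := normSq_X z x
  have h3 := normSq_y b z y
  have h4 : (conj b' * conj z ^ 2 * DQ a (b * z ^ 3) z x y).re = 0 := by
    rw [re_DQ, hx]
    linear_combination (-2 * (conj b' * conj z ^ 2 * y).re) * hy
  have h5 : normSq z * N1 a a' b b' z x y n =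
      normSq z * (4 * n * (a ^ 2 + normSq z ^ 2 * normSq b)) := by
    unfold N1
    rw [h4, im_term, hx]
    rw [hx] at h2
    rw [Complex.mul_im (z * conj x) (conj b * conj z ^ 2 * y), sq_re, sq_re, hx] at h1
    generalize (z * conj x).im = η at *
    generalize (conj b * conj z ^ 2 * y).re = y1 at *
    generalize (conj b * conj z ^ 2 * y).im = y2 at *
    generalize (conj b * conj z * FQ a (b * z ^ 3) x y).re = F at *
    generalize normSq z = T at *
    generalize normSq b = B at *
    generalize normSq x = nx at *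
    generalize normSq y = ny at *
    linear_combination 4 * h1 + (4 * a' * a + 4 * B * T ^ 2) * h2 -
      (4 * a' * η + 8 * y1) * hy + 4 * T * h3 + 4 * B * T ^ 3 * hn
  exact mul_left_cancel₀ hz.ne' h5

end Pool.Agent.K6.H10.SU
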