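import Pool.Agent.K6.H10.SU.Sel

/-!
# The contraction
-/

set_option autoImplicit false

open scoped ContDiff Topology ComplexConjugate

noncomputable section

namespace Pool.Agent.K6.H10.SU

open Pool.Agent.K6.H10.SY
open Complex (I)
open Polynomial (C X eval)

/-- the multiplication by `1 - t` on the unit interval -/
def sc (t : unitInterval) : C(unitInterval, unitInterval) :=
  ⟨fun s => unitInterval.symm t * s, continuous_const.mul continuous_id⟩

theorem continuous_sc : Continuous sc := by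
  refine ContinuousMap.continuous_of_continuous_uncurry _ ?_
  show Continuous fun q : unitInterval × unitInterval => unitInterval.symm q.1 * q.2
  exact (unitInterval.continuous_symm.comp continuous_fst).mul continuous_snd

/-- the contraction of the parameters -/
def con (t : unitInterval) (p : Par) : Par := (p.1.comp (sc t), p.2.comp (sc t))

theorem continuous_con : Continuous fun q : unitInterval × Par => con q.1 q.2 := by
  unfold con
  have h1 : Continuous fun q : unitInterval × Par => sc q.1 := continuous_sc.comp continuous_fst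
  have h2 : Continuous fun q : unitInterval × Par => q.2.1 := continuous_fst.comp continuous_snd
  have h3 : Continuous fun q : unitInterval × Par => q.2.2 := continuous_snd.comp continuous_snd
  exact (h2.compCM h1).prodMk (h3.compCM h1)

theorem con_zero (p : Par) : con 0 p = p := by
  have h : sc 0 = ContinuousMap.id _ := by
    ext s
    simp [sc]
  unfold con
  rw [h]
  rfl

theorem con_1 (t : unitInterval) (p : Par) (s : unitInterval) :
    (con t p).1 s = p.1 (unitInterval.symm t * s) := rfl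

theorem con_2 (t : unitInterval) (p : Par) (s : unitInterval) :
    (con t p).2 s = p.2 (unitInterval.symm t * s) := rfl

theorem con_PS {p : Par} (hp : p ∈ PS) (t : unitInterval) : con t p ∈ PS := by
  obtain ⟨⟨A, B, h1, h2⟩, h3, h4⟩ := hp
  refine ⟨⟨A.comp (C (1 - (t : ℝ)) * X), B.comp (C ((1 - (t : ℝ) : ℝ) : ℂ) * X), fun s => ?_,
    fun s => ?_⟩, ?_, fun s => ?_⟩
  · rw [con_1, h1]
    simp
  · rw [con_2, h2]
    simp
  · rw [con_1, mul_zero]
    exact h3
  · rw [con_1, con_2]
    rcases h4 (unitInterval.symm t * s) with h | h | h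
    · exact Or.inl h
    · exact Or.inr (Or.inl h)
    · left
      rw [h]
      exact h3.ne'

/-- the constant parameter -/
def p1 : Par := (1, 0)

/-- the last part of the contraction -/
def lin (t : unitInterval) (p : Par) : Par := (1 - (t : ℝ)) • con 1 p + (t : ℝ) • p1

theorem continuous_lin : Continuous fun q : unitInterval × Par => lin q.1 q.2 := by
  unfold lin
  have h0 : Continuous fun q : unitInterval × Par => (q.1 : ℝ) :=
    continuous_subtype_val.comp continuous_fst
  have h1 : Continuous fun q : unitInterval × Par => con 1 q.2 :=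
    continuous_con.comp (continuous_const.prodMk continuous_snd)
  exact ((continuous_const.sub h0).smul h1).add (h0.smul continuous_const)

theorem isPol_p1 : IsPol p1 := ⟨1, 0, fun t => by simp [p1], fun t => by simp [p1]⟩

theorem lin_PS {p : Par} (hp : p ∈ PS) (t : unitInterval) : lin t p ∈ PS := by
  have hpos : ∀ s, 0 < (lin t p).1 s := by
    intro s
    show 0 < (1 - (t : ℝ)) * p.1 (unitInterval.symm 1 * s) + (t : ℝ) * 1
    rw [unitInterval.symm_one, zero_mul]
    exact pos_comb hp.2.1 one_pos (by linarith [t.2.2]) t.2.1 (by ring)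
  exact ⟨(con_PS hp 1).1.comb isPol_p1 _ _, hpos 0, fun s => Or.inl (hpos s).ne'⟩

theorem lin_zero (p : Par) : lin 0 p = con 1 p := by
  refine Prod.ext ?_ ?_
  · ext t
    show (1 - (0 : ℝ)) * (con 1 p).1 t + (0 : ℝ) * 1 = _
    ring
  · ext t
    show (1 - (0 : ℝ)) • (con 1 p).2 t + (0 : ℝ) • (0 : ℂ) = _
    simp

theorem lin_one (p : Par) : lin 1 p = p1 := by
  refine Prod.ext ?_ ?_
  · ext t
    show (1 - (1 : ℝ)) * (con 1 p).1 t + (1 : ℝ) * 1 = 1
    ring
  · ext t
    show (1 - (1 : ℝ)) • (con 1 p).2 t + (1 : ℝ) • (0 : ℂ) = 0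
    simp

theorem p1_PS : p1 ∈ PS :=
  ⟨isPol_p1, by simp [p1], fun t => Or.inl (by simp [p1])⟩

theorem contractible_PS : ContractibleSpace PS := by
  rw [contractible_iff_id_nullhomotopic]
  have hv : Continuous fun q : unitInterval × PS => (q.2 : Par) :=
    continuous_subtype_val.comp continuous_snd
  have h1 : Continuous fun q : unitInterval × PS => con q.1 q.2 :=
    continuous_con.comp (continuous_fst.prodMk hv)
  have h2 : Continuous fun q : unitInterval × PS => lin q.1 q.2 :=
    continuous_lin.comp (continuous_fst.prodMk hv)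
  let F : C(PS, PS) := ⟨fun p => ⟨con 1 p, con_PS p.2 1⟩,
    Continuous.subtype_mk (h1.comp (continuous_const.prodMk continuous_id)) _⟩
  let H1 : ContinuousMap.Homotopy (ContinuousMap.id PS) F :=
    { toFun := fun q => ⟨con q.1 q.2, con_PS q.2.2 q.1⟩
      continuous_toFun := h1.subtype_mk _
      map_zero_left := fun p => Subtype.ext (con_zero p)
      map_one_left := fun p => rfl }
  let H2 : ContinuousMap.Homotopy F (ContinuousMap.const _ ⟨p1, p1_PS⟩) :=
    { toFun := fun q => ⟨lin q.1 q.2, lin_PS q.2.2 q.1⟩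
      continuous_toFun := h2.subtype_mk _
      map_zero_left := fun p => Subtype.ext (lin_zero p)
      map_one_left := fun p => Subtype.ext (lin_one p) }
  exact ⟨_, ⟨H1.trans H2⟩⟩

theorem dense_pol {O : Set Par} (hO : IsOpen O) {p : Par} (hp : p ∈ O) : ∃ q ∈ O, IsPol q := by
  rw [Metric.isOpen_iff] at hO
  obtain ⟨ε, hε, hb⟩ := hO p hp
  have h3 : 0 < ε / 3 := by linarith
  obtain ⟨A, hA⟩ := exists_polynomial_near_continuousMap 0 1 p.1 (ε / 3) h3
  let f : C(unitInterval, ℝ) := ⟨fun t => (p.2 t).re, Complex.continuous_re.comp p.2.continuous⟩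
  let g : C(unitInterval, ℝ) := ⟨fun t => (p.2 t).im, Complex.continuous_im.comp p.2.continuous⟩
  obtain ⟨F, hF⟩ := exists_polynomial_near_continuousMap 0 1 f (ε / 3) h3
  obtain ⟨G, hG⟩ := exists_polynomial_near_continuousMap 0 1 g (ε / 3) h3
  have hF' := (ContinuousMap.norm_lt_iff _ h3).1 hF
  have hG' := (ContinuousMap.norm_lt_iff _ h3).1 hG
  let B : Polynomial ℂ := F.map (algebraMap ℝ ℂ) + C I * G.map (algebraMap ℝ ℂ)
  have hB : ∀ t : ℝ, B.eval (t : ℂ) = ((F.eval t : ℝ) : ℂ) + I * ((G.eval t : ℝ) : ℂ) := by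
    intro t
    have h1 : ∀ Q : Polynomial ℝ, (Q.map (algebraMap ℝ ℂ)).eval (t : ℂ) = ((Q.eval t : ℝ) : ℂ) := by
      intro Q
      have := Polynomial.eval_map_algebraMap (B := ℂ) Q (t : ℂ)
      rw [this]
      have h2 := Polynomial.aeval_algebraMap_apply ℂ t Q
      rw [show (t : ℂ) = algebraMap ℝ ℂ t from rfl, h2]
      rfl
    simp only [B, Polynomial.eval_add, Polynomial.eval_mul, Polynomial.eval_C, h1]
  let q : Par := (A.toContinuousMapOn _,
    ⟨fun t => B.eval ((t : ℝ) : ℂ), B.continuous.comp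
      (Complex.continuous_ofReal.comp continuous_subtype_val)⟩)
  refine ⟨q, hb ?_, A, B, fun t => rfl, fun t => rfl⟩
  rw [Metric.mem_ball, dist_eq_norm]
  refine max_lt ?_ ?_
  · show ‖A.toContinuousMapOn _ - p.1‖ < ε
    linarith
  · refine (ContinuousMap.norm_lt_iff _ hε).2 fun t => ?_
    show ‖B.eval ((t : ℝ) : ℂ) - p.2 t‖ < ε
    have e1 : B.eval ((t : ℝ) : ℂ) - p.2 t =
        ((F.eval (t : ℝ) - (p.2 t).re : ℝ) : ℂ) + I * ((G.eval (t : ℝ) - (p.2 t).im : ℝ) : ℂ) := by
      rw [hB]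
      conv_lhs => rw [← Complex.re_add_im (p.2 t)]
      push_cast
      ring
    have e2 : ‖F.eval (t : ℝ) - (p.2 t).re‖ < ε / 3 := hF' t
    have e3 : ‖G.eval (t : ℝ) - (p.2 t).im‖ < ε / 3 := hG' t
    rw [e1]
    refine lt_of_le_of_lt (norm_add_le _ _) ?_
    rw [norm_mul, Complex.norm_I, one_mul, Complex.norm_real, Complex.norm_real]
    linarith

theorem nondeg_of_tame {Ω : V → Bil} {p : Par} (h : TameF Ω p) : Nondeg Ω := by
  intro z hz v hv
  by_contra hc
  have := h z hz v hc
  rw [hv] at this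
  exact lt_irrefl 0 this

/-- the forms in question -/
def TS (C : Set (V → Bil)) : Set Forms :=
  {Ω | InClass Ω.val ∧ Ω.val ∈ C ∧ ∃ p : Par, 0 < p.1 0 ∧ TameF Ω.val p}

theorem po_nonempty {C : Set (V → Bil)} {Ω : Forms} (h : Ω ∈ TS C) :
    (PO (resN Ω)).Nonempty := by
  obtain ⟨_, _, p, hp, ht⟩ := h
  have h1 : IsOpen {p' : Par | (resN Ω, p') ∈ OO ∧ 0 < p'.1 0} := by
    refine IsOpen.inter (isOpen_OO.preimage (Continuous.prodMk_right (resN Ω))) ?_
    have h2 : Continuous fun p' : Par => p'.1 0 := continuous_fst.eval_const 0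
    exact isOpen_lt continuous_const h2
  obtain ⟨q, ⟨h3, h4⟩, h5⟩ := dense_pol h1 (p := p) ⟨(mem_OO Ω p).2 ht, hp⟩
  exact ⟨q, h5, h4, h3⟩

/-- the section over the forms -/
theorem exists_section (C : Set (V → Bil)) :
    ∃ σ : C(TS C, PS), ∀ Ω : TS C, TameF Ω.1.val (σ Ω : Par) := by
  obtain ⟨s, hs⟩ := sel1
  have hρ : Continuous fun Ω : TS C =>
      (⟨resN Ω.1, po_nonempty Ω.2⟩ : {η : N // (PO η).Nonempty}) :=
    (continuous_resN.comp continuous_subtype_val).subtype_mk _
  have hP : ∀ Ω : TS C, s ⟨resN Ω.1, po_nonempty Ω.2⟩ ∈ PS := fun Ω => by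
    obtain ⟨h1, h2, h3⟩ := hs ⟨resN Ω.1, po_nonempty Ω.2⟩
    refine ⟨h1, h2, fun t => ?_⟩
    rcases nonvanish h3 t with h | h
    · exact Or.inl h
    · exact Or.inr (Or.inl h)
  exact ⟨⟨fun Ω => ⟨s ⟨resN Ω.1, po_nonempty Ω.2⟩, hP Ω⟩,
    Continuous.subtype_mk (s.continuous.comp hρ) _⟩,
    fun Ω => (mem_OO Ω.1 _).1 (hs ⟨resN Ω.1, po_nonempty Ω.2⟩).2.2⟩

/-- the section over the parameters -/
theorem exists_section' {C : Set (V → Bil)} (hC : Convex ℝ C)
    (hex : ∀ p ∈ PS, (GF C p).Nonempty) :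
    ∃ T : C(PS, TS C), ∀ p : PS, TameF (T p).1.val (p : Par) := by
  obtain ⟨T, hT, hTm⟩ := sel2 hC hex
  have h : ∀ p : PS, T p ∈ TS C := fun p => ⟨(hTm p).1, (hTm p).2.1, p, p.2.2.1, (hTm p).2.2⟩
  exact ⟨⟨fun p => ⟨T p, h p⟩, hT.subtype_mk _⟩, fun p => (hTm p).2.2⟩

theorem comb_TS {C : Set (V → Bil)} (hC : Convex ℝ C) {Ω₁ Ω₂ : TS C} {p : PS}
    (h₁ : TameF Ω₁.1.val (p : Par)) (h₂ : TameF Ω₂.1.val (p : Par)) (t : unitInterval) :
    comb (1 - t) t Ω₁.1 Ω₂.1 ∈ TS C := by
  have h1 : (0 : ℝ) ≤ 1 - (t : ℝ) := by linarith [t.2.2]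
  exact ⟨Ω₁.2.1.comb Ω₂.2.1 (by ring), hC Ω₁.2.2.1 Ω₂.2.2.1 h1 t.2.1 (by ring), p, p.2.2.1,
    h₁.comb h₂ h1 t.2.1 (by ring)⟩

theorem homotopic {C : Set (V → Bil)} (hC : Convex ℝ C) (σ : C(TS C, PS)) (T : C(PS, TS C))
    (hσ : ∀ Ω : TS C, TameF Ω.1.val (σ Ω : Par)) (hT : ∀ p : PS, TameF (T p).1.val (p : Par)) :
    (ContinuousMap.id (TS C)).Homotopic (T.comp σ) := by
  have hp : Continuous fun p : unitInterval × TS C => (p.1 : ℝ) :=
    continuous_subtype_val.comp continuous_fst
  have hc : Continuous fun q : unitInterval × TS C =>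
      comb (1 - q.1) q.1 q.2.1 (T (σ q.2)).1 :=
    continuous_comb (continuous_const.sub hp) hp (continuous_subtype_val.comp continuous_snd)
      (continuous_subtype_val.comp (T.continuous.comp (σ.continuous.comp continuous_snd)))
  exact ⟨{
    toFun := fun q => ⟨comb (1 - q.1) q.1 q.2.1 (T (σ q.2)).1,
      comb_TS hC (hσ q.2) (hT (σ q.2)) q.1⟩
    continuous_toFun := hc.subtype_mk _
    map_zero_left := fun Ω => Subtype.ext (comb_left (by simp) (by simp) _ _)
    map_one_left := fun Ω => Subtype.ext (comb_right (by simp) (by simp) _ _) }⟩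

/-- the main theorem, given the existence of positive forms -/
theorem main {C : Set (V → Bil)} (hC : Convex ℝ C) (hex : ∀ p ∈ PS, (GF C p).Nonempty) :
    ContractibleSpace (TS C) := by
  rw [contractible_iff_id_nullhomotopic]
  obtain ⟨σ, hσ⟩ := exists_section C
  obtain ⟨T, hT⟩ := exists_section' hC hex
  have h1 := homotopic hC σ T hσ hT
  have h2 : (ContinuousMap.id PS).Nullhomotopic :=
    (contractible_iff_id_nullhomotopic PS).1 contractible_PS
  obtain ⟨p, hp⟩ := h2
  refine ⟨T p, h1.trans ?_⟩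
  have h3 : ((T.comp (ContinuousMap.id PS)).comp σ).Homotopic
      ((T.comp (ContinuousMap.const PS p)).comp σ) :=
    ((ContinuousMap.Homotopic.refl T).comp hp).comp (ContinuousMap.Homotopic.refl σ)
  exact h3

end Pool.Agent.K6.H10.SU
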