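import Pool.Agent.K6.H10.SY.Final

/-!
# The almost complex structures with the symmetry group `SU(2)`
-/

set_option autoImplicit false

open scoped ContDiff Topology ComplexConjugate

noncomputable section

namespace Pool.Agent.K6.H10.SU

open Pool.Agent.K6.H10.SY
open Complex (I)

/-- the complex conjugate of the cross product of `z` and `v` -/
def crs (z v : V) : V :=
  ![conj (z 1 * v 2 - z 2 * v 1), conj (z 2 * v 0 - z 0 * v 2), conj (z 0 * v 1 - z 1 * v 0)]

/-- the function `|z₀|² / |z|²` -/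
def TT (z : V) : ℝ := ‖z 0‖ ^ 2 / nsq z

/-- `a i v + b z₀³ |z|⁻⁴ (z × v)¯` -/
def JJ (a : ℝ) (b : ℂ) (z v : V) : V :=
  (a : ℂ) • (I • v) + (b * z 0 ^ 3 / (nsq z : ℂ) ^ 2) • crs z v

theorem nsq_eq (z : V) : nsq z = ‖z 0‖ ^ 2 + ‖z 1‖ ^ 2 + ‖z 2‖ ^ 2 := by
  simp [nsq, Fin.sum_univ_three]

theorem hp_eq (z w : V) : hp z w = conj (z 0) * w 0 + conj (z 1) * w 1 + conj (z 2) * w 2 := by
  simp [hp, Fin.sum_univ_three]

theorem TT_mem (z : V) : TT z ∈ Set.Icc (0 : ℝ) 1 := by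
  have h : 0 ≤ nsq z := by rw [nsq_eq]; positivity
  refine ⟨div_nonneg (by positivity) h, div_le_one_of_le₀ ?_ h⟩
  rw [nsq_eq]
  have := sq_nonneg ‖z 1‖
  have := sq_nonneg ‖z 2‖
  linarith

/-- the value of `|z₀|² / |z|²` in the unit interval -/
def tI (z : V) : unitInterval := ⟨TT z, TT_mem z⟩

/-- pairs of a real and a complex continuous function on the unit interval -/
abbrev Par : Type := C(unitInterval, ℝ) × C(unitInterval, ℂ)

/-- the endomorphism defined by two functions of `|z₀|² / |z|²` -/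
def J (p : Par) (z v : V) : V := JJ (p.1 (tI z)) (p.2 (tI z)) z v

/-- `Ω (v, J v) > 0` for all nonzero directions -/
def TameF (Ω : V → Bil) (p : Par) : Prop :=
  ∀ z : V, z ≠ 0 → ∀ v, (¬ ∃ c : ℂ, v = c • z) → 0 < Ω z v (J p z v)

theorem TT_smul {c : ℂ} (hc : c ≠ 0) (z : V) : TT (c • z) = TT z := by
  have h : 0 < ‖c‖ ^ 2 := by have := norm_pos_iff.2 hc; positivity
  unfold TT
  rw [nsq_scale, Pi.smul_apply, smul_eq_mul, norm_mul, mul_pow,
    mul_div_mul_left _ _ h.ne']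

theorem tI_smul {c : ℂ} (hc : c ≠ 0) (z : V) : tI (c • z) = tI z := Subtype.ext (TT_smul hc z)

theorem crs_smul (c d : ℂ) (z v : V) : crs (c • z) (d • v) = (conj c * conj d) • crs z v := by
  funext i
  fin_cases i <;> simp [crs] <;> ring

theorem crs_add (z v w : V) : crs z (v + w) = crs z v + crs z w := by
  funext i
  fin_cases i <;> simp [crs] <;> ring

theorem crs_self (z : V) : crs z z = 0 := by
  funext i
  fin_cases i <;> simp [crs] <;> ring

theorem JJ_smul {c : ℂ} (hc : c ≠ 0) (a : ℝ) (b : ℂ) {z : V} (hz : z ≠ 0) (v : V) :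
    JJ a b (c • z) (c • v) = c • JJ a b z v := by
  have h1 : (nsq z : ℂ) ≠ 0 := by exact_mod_cast (nsq_pos hz).ne'
  have h2 : conj c ≠ 0 := by simpa using hc
  unfold JJ
  have h3 : ((‖c‖ ^ 2 * nsq z : ℝ) : ℂ) = c * conj c * nsq z := by
    rw [Complex.mul_conj, Complex.normSq_eq_norm_sq]
    push_cast
    ring
  have e : b * (c * z 0) ^ 3 / (c * conj c * nsq z) ^ 2 * (conj c * conj c) =
      c * (b * z 0 ^ 3 / (nsq z : ℂ) ^ 2) := by
    field_simp
  rw [crs_smul, nsq_scale, h3]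
  funext i
  simp only [Pi.add_apply, Pi.smul_apply, smul_eq_mul]
  linear_combination (crs z v i) * e

theorem JJ_real (s : ℝ) (a : ℝ) (b : ℂ) (z v : V) :
    JJ a b z ((s : ℂ) • v) = (s : ℂ) • JJ a b z v := by
  unfold JJ
  have h : crs z ((s : ℂ) • v) = (s : ℂ) • crs z v := by
    have := crs_smul 1 (s : ℂ) z v
    rw [one_smul, map_one, one_mul, Complex.conj_ofReal] at this
    exact this
  rw [h, smul_add]
  congr 1
  · rw [smul_smul, smul_smul, smul_smul, smul_smul]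
    congr 1
    ring
  · rw [smul_comm]

theorem JJ_add (a : ℝ) (b : ℂ) (z v : V) (c : ℂ) :
    JJ a b z (v + c • z) = JJ a b z v + (a * I * c) • z := by
  unfold JJ
  have h : crs z (c • z) = 0 := by
    have := crs_smul 1 c z z
    rw [one_smul, crs_self, smul_zero] at this
    exact this
  rw [crs_add, h, add_zero, smul_add, smul_add, smul_smul I c, smul_smul (a : ℂ) (I * c) z,
    mul_assoc (a : ℂ) I c]
  abel

theorem J_smul {c : ℂ} (hc : c ≠ 0) (p : Par) {z : V} (hz : z ≠ 0) (v : V) :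
    J p (c • z) (c • v) = c • J p z v := by
  unfold J
  rw [tI_smul hc, JJ_smul hc _ _ hz]

/-- the positivity for `v` orthogonal to `z` is enough -/
theorem tameF_of_hor {Ω : V → Bil} (h : IsForm Ω) {p : Par}
    (hp' : ∀ z : V, z ≠ 0 → ∀ v, v ≠ 0 → hp z v = 0 → 0 < Ω z v (J p z v)) : TameF Ω p := by
  intro z hz v hv
  have hn : (nsq z : ℂ) ≠ 0 := by exact_mod_cast (nsq_pos hz).ne'
  obtain ⟨c, hc⟩ : ∃ c : ℂ, c = hp z v / nsq z := ⟨_, rfl⟩
  obtain ⟨u, hu⟩ : ∃ u : V, u = v - c • z := ⟨_, rfl⟩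
  have hv2 : v = u + c • z := by rw [hu]; abel
  have hu1 : u ≠ 0 := fun h0 => hv ⟨c, by rw [hv2, h0, zero_add]⟩
  have hu0 : hp z u = 0 := by
    rw [hu, sub_eq_add_neg, ← neg_smul, hp_add, hp_smul, hp_self, hc]
    field_simp
    ring
  have h1 := hp' z hz u hu1 hu0
  have h4 : ∀ (d : ℂ) (w : V), Ω z w (d • z) = 0 := by
    intro d w
    rw [antisymm (h.alt z), h.hor z hz, neg_zero]
  unfold J at h1 ⊢
  rw [hv2, JJ_add, map_add (Ω z), add_apply, h.hor z hz, add_zero, map_add, h4, add_zero]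
  exact h1

/-- the invariance of the positivity under scaling -/
theorem pos_scale {Ω : V → Bil} (h : IsForm Ω) (p : Par) {z : V} (hz : z ≠ 0) {c : ℂ}
    (hc : c ≠ 0) {s : ℝ} (hs : s ≠ 0) (v : V) :
    0 < Ω (c • z) (c • ((s : ℂ) • v)) (J p (c • z) (c • ((s : ℂ) • v))) ↔
      0 < Ω z v (J p z v) := by
  rw [J_smul hc p hz, h.inv z hz c hc]
  unfold J
  rw [JJ_real]
  have h1 : ∀ w : V, (s : ℂ) • w = s • w := fun w => by
    funext i
    simp
  rw [h1, h1, map_smul, map_smul, smul_apply, smul_eq_mul, smul_eq_mul, ← mul_assoc]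
  exact mul_pos_iff_of_pos_left (mul_self_pos.2 hs)

end Pool.Agent.K6.H10.SU
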