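import Pool.Agent.K6.H10.SU.Quad
import Pool.Agent.K6.H10.SU.Ext
import Pool.Agent.K6.H10.SU.Cont

/-!
# Existence of symplectic forms which tame the almost complex structures
-/

set_option autoImplicit false

open scoped ContDiff Topology ComplexConjugate

noncomputable section

namespace Pool.Agent.K6.H10.SU

open Pool.Agent.K6.H10.SY
open Complex (I normSq)
open Polynomial (C X)

/-- orthogonal pairs of unit vectors -/
def W1 : Set (V × V) := {q | nsq q.1 = 1 ∧ nsq q.2 = 1 ∧ hp q.1 q.2 = 0}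

theorem isCompact_W1 : IsCompact W1 := by
  have h1 : IsClosed W1 := by
    refine IsClosed.inter ?_ (IsClosed.inter ?_ ?_)
    · exact isClosed_eq (continuous_nsq.comp continuous_fst) continuous_const
    · exact isClosed_eq (continuous_nsq.comp continuous_snd) continuous_const
    · exact isClosed_eq continuous_hp continuous_const
  refine IsCompact.of_isClosed_subset (s := Metric.closedBall (0 : V) 1 ×ˢ
    Metric.closedBall (0 : V) 1) ((isCompact_closedBall _ _).prod (isCompact_closedBall _ _)) h1 ?_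
  rintro q ⟨h2, h3, _⟩
  exact ⟨mem_closedBall_zero_iff.2 (norm_le_of_nsq h2),
    mem_closedBall_zero_iff.2 (norm_le_of_nsq h3)⟩

/-- the compactness argument -/
theorem exists_large {Y : Type} [TopologicalSpace Y] {W : Set Y} (hW : IsCompact W)
    {M N : Y → ℝ} (hM : Continuous M) (hN : Continuous N) (hM0 : ∀ y, 0 ≤ M y)
    (h : ∀ y ∈ W, M y = 0 → 0 < N y) : ∃ K : ℕ, ∀ y ∈ W, 0 < (K : ℝ) / 2 * M y + N y := by
  have h1 := hW.elim_directed_cover (fun K : ℕ => {y | 0 < (K : ℝ) / 2 * M y + N y})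
    (fun K => isOpen_lt continuous_const ((continuous_const.mul hM).add hN)) ?_ ?_
  · exact h1
  · intro y hy
    rw [Set.mem_iUnion]
    rcases (hM0 y).lt_or_eq with h2 | h2
    · obtain ⟨K, hK⟩ := exists_nat_gt (2 * |N y| / M y)
      refine ⟨K, ?_⟩
      rw [div_lt_iff₀ h2] at hK
      show 0 < (K : ℝ) / 2 * M y + N y
      have := neg_abs_le (N y)
      linarith
    · refine ⟨0, ?_⟩
      show 0 < ((0 : ℕ) : ℝ) / 2 * M y + N y
      have := h y hy h2.symm
      simpa using this
  · refine directed_of_isDirected_le fun K L hKL y hy => ?_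
    have hy' : 0 < (K : ℝ) / 2 * M y + N y := hy
    show 0 < (L : ℝ) / 2 * M y + N y
    have h2 : (K : ℝ) ≤ L := by exact_mod_cast hKL
    have h3 : 0 ≤ ((L : ℝ) - K) * M y := mul_nonneg (by linarith) (hM0 y)
    linarith

/-- positivity on the pairs of orthogonal unit vectors is enough -/
theorem tameF_of_W1 {Ω : V → Bil} (h : IsForm Ω) {p : Par}
    (hp' : ∀ q ∈ W1, 0 < Ω q.1 q.2 (J p q.1 q.2)) : TameF Ω p := by
  refine tameF_of_hor h fun z hz v hv h0 => ?_
  have hnz : 0 < nsq z := nsq_pos hz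
  have hnv : 0 < nsq v := nsq_pos hv
  have hsz := Real.sqrt_pos.2 hnz
  have hsv := Real.sqrt_pos.2 hnv
  have hr : 0 < (√(nsq z))⁻¹ := inv_pos.2 hsz
  have hc : (((√(nsq z))⁻¹ : ℝ) : ℂ) ≠ 0 := by exact_mod_cast hr.ne'
  have hs : 0 < √(nsq z) * (√(nsq v))⁻¹ := mul_pos hsz (inv_pos.2 hsv)
  have h2 := hp' ((((√(nsq z))⁻¹ : ℝ) : ℂ) • z,
    (((√(nsq z))⁻¹ : ℝ) : ℂ) • (((√(nsq z) * (√(nsq v))⁻¹ : ℝ) : ℂ) • v)) ⟨?_, ?_, ?_⟩
  · exact (pos_scale h p hz hc hs.ne' v).1 h2
  · show nsq ((((√(nsq z))⁻¹ : ℝ) : ℂ) • z) = 1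
    rw [nsq_real, inv_pow, Real.sq_sqrt hnz.le, inv_mul_cancel₀ hnz.ne']
  · show nsq ((((√(nsq z))⁻¹ : ℝ) : ℂ) • (((√(nsq z) * (√(nsq v))⁻¹ : ℝ) : ℂ) • v)) = 1
    rw [nsq_real, nsq_real, mul_pow, inv_pow, inv_pow, Real.sq_sqrt hnz.le, Real.sq_sqrt hnv.le]
    field_simp
  · show hp ((((√(nsq z))⁻¹ : ℝ) : ℂ) • z) ((((√(nsq z))⁻¹ : ℝ) : ℂ) •
      (((√(nsq z) * (√(nsq v))⁻¹ : ℝ) : ℂ) • v)) = 0
    rw [hp_scale, hp_real, h0, mul_zero, mul_zero]

/-- the form defined by two functions -/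
def Om (k : ℝ → ℝ) (m : ℝ → ℂ) (z : V) : Bil :=
  open Classical in if z = 0 then 0 else fs z + ext (al k m) z

theorem isForm_Om {k : ℝ → ℝ} {m : ℝ → ℂ} (hk : ContDiff ℝ ∞ k) (hm : ContDiff ℝ ∞ m) :
    IsForm (Om k m) := by
  have h := isForm_fs.comb (isForm_ext (isOne_al hk hm)) 1 1
  have h1 : Om k m = (1 : ℝ) • fs +
      (1 : ℝ) • (fun z => open Classical in if z = 0 then 0 else ext (al k m) z) := by
    funext z
    by_cases hz : z = 0
    · simp only [Om, if_pos hz, Pi.add_apply, one_smul]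
      rw [fs, if_pos hz]
      exact (add_zero (0 : Bil)).symm
    · simp only [Om, if_neg hz, Pi.add_apply, one_smul]
  rw [h1]
  exact h

theorem inClass_Om {k : ℝ → ℝ} {m : ℝ → ℂ} (hk : ContDiff ℝ ∞ k) (hm : ContDiff ℝ ∞ m) :
    InClass (Om k m) :=
  ⟨al k m, isOne_al hk hm, fun z hz => by rw [Om, if_neg hz]⟩

theorem J_smul_par (c : ℝ) (p : Par) (z v : V) : J (c • p) z v = (c : ℂ) • J p z v := by
  have h := J_comb p p c 0 z v
  have h1 : c • p + (0 : ℝ) • p = c • p := by
    refine Prod.ext ?_ ?_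
    · ext t
      show c * p.1 t + 0 * p.1 t = c * p.1 t
      ring
    · ext t
      show c • p.2 t + (0 : ℝ) • p.2 t = c • p.2 t
      simp
  rw [h1] at h
  rw [h]
  funext i
  simp

section

variable (A : Polynomial ℝ) (B : Polynomial ℂ)

/-- the weight -/
def RR (K : ℕ) : Polynomial ℝ := (1 - C (1 / 2) * X) ^ K

/-- the conjugate polynomial -/
def Bc : Polynomial ℂ := B.map (starRingEnd ℂ)

theorem Bc_eval (t : ℝ) : (Bc B).eval (t : ℂ) = conj (B.eval (t : ℂ)) := by
  unfold Bc
  have h := Polynomial.eval_map (p := B) (starRingEnd ℂ) (t : ℂ)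
  rw [h]
  have h2 := Polynomial.hom_eval₂ B (RingHom.id ℂ) (starRingEnd ℂ) (t : ℂ)
  rw [Polynomial.eval₂_id] at h2
  rw [h2, RingHom.comp_id, Complex.conj_ofReal]

/-- the first function -/
def kf (K : ℕ) (t : ℝ) : ℝ := (Polynomial.divX (RR K * A)).eval t

/-- the second function -/
def mf (K : ℕ) (t : ℝ) : ℂ := 2 * (((RR K).eval t : ℝ) : ℂ) * (Bc B).eval (t : ℂ)

theorem pol_smooth (P : Polynomial ℝ) : ContDiff ℝ ∞ fun t : ℝ => P.eval t := by
  have h := Polynomial.contDiff_aeval (𝕜 := ℝ) P ∞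
  simpa using h

theorem pol_smooth' (P : Polynomial ℂ) : ContDiff ℂ ∞ fun t : ℂ => P.eval t := by
  have h := Polynomial.contDiff_aeval (𝕜 := ℂ) P ∞
  simpa using h

theorem kf_smooth (K : ℕ) : ContDiff ℝ ∞ (kf A K) := pol_smooth (Polynomial.divX (RR K * A))

theorem mf_smooth (K : ℕ) : ContDiff ℝ ∞ (mf B K) := by
  have h1 : ContDiff ℝ ∞ fun t : ℝ => (((RR K).eval t : ℝ) : ℂ) :=
    Complex.ofRealCLM.contDiff.comp (pol_smooth (RR K))
  have h2 : ContDiff ℝ ∞ fun t : ℝ => (Bc B).eval (t : ℂ) := by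
    have h3 : ContDiff ℂ ∞ fun z : ℂ => (Bc B).eval z := pol_smooth' (Bc B)
    exact (h3.restrict_scalars ℝ).comp Complex.ofRealCLM.contDiff
  exact (contDiff_const.mul h1).mul h2

theorem RR_zero (K : ℕ) : (RR K).eval 0 = 1 := by
  simp [RR]

theorem RR_eval (K : ℕ) (t : ℝ) : (RR K).eval t = (1 - t / 2) ^ K := by
  simp only [RR, Polynomial.eval_pow, Polynomial.eval_sub, Polynomial.eval_one,
    Polynomial.eval_mul, Polynomial.eval_C, Polynomial.eval_X]
  ring

theorem RR_deriv (K : ℕ) {t : ℝ} (ht : t ≤ 1) : (Polynomial.derivative (RR K)).eval t =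
    -(K / (2 - t)) * (RR K).eval t := by
  have h2 : (2 - t) ≠ 0 := by linarith
  rw [RR_eval]
  unfold RR
  rw [Polynomial.derivative_pow]
  simp only [Polynomial.derivative_sub, Polynomial.derivative_one, Polynomial.derivative_mul,
    Polynomial.derivative_C, Polynomial.derivative_X, Polynomial.eval_mul, Polynomial.eval_C,
    Polynomial.eval_pow, Polynomial.eval_sub, Polynomial.eval_one, Polynomial.eval_X, zero_mul,
    mul_one, zero_add, zero_sub, Polynomial.eval_neg]
  rcases K with _ | K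
  · simp
  · rw [Nat.add_sub_cancel]
    have : (1 - 1 / 2 * t) = (2 - t) / 2 := by ring
    have h3 : (1 - t / 2) = (2 - t) / 2 := by ring
    rw [this, h3, pow_succ]
    field_simp

theorem kf_eq {A : Polynomial ℝ} (hA : A.eval 0 = 1) (K : ℕ) (t : ℝ) :
    1 + t * kf A K t = (RR K).eval t * A.eval t := by
  have h := Polynomial.divX_mul_X_add (RR K * A)
  have h1 : (RR K * A).coeff 0 = 1 := by
    rw [Polynomial.coeff_zero_eq_eval_zero, Polynomial.eval_mul, RR_zero, hA, one_mul]
  have h2 := congrArg (fun P => Polynomial.eval t P) h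
  simp only [Polynomial.eval_add, Polynomial.eval_mul, Polynomial.eval_X, Polynomial.eval_C,
    h1] at h2
  unfold kf
  linarith

theorem kf_deriv {A : Polynomial ℝ} (hA : A.eval 0 = 1) (K : ℕ) {t : ℝ} (ht : t ≤ 1) :
    kf A K t + t * deriv (kf A K) t =
      (RR K).eval t * (-(K / (2 - t)) * A.eval t + (Polynomial.derivative A).eval t) := by
  have h1 : HasDerivAt (fun s => 1 + s * kf A K s) (kf A K t + t * deriv (kf A K) t) t := by
    have h2 : HasDerivAt (kf A K) (deriv (kf A K) t) t :=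
      ((kf_smooth A K).differentiable (by simp)).differentiableAt.hasDerivAt
    have h3 := ((hasDerivAt_id t).mul h2).const_add 1
    refine h3.congr_deriv ?_
    simp
  have h4 : (fun s => 1 + s * kf A K s) = fun s => (RR K).eval s * A.eval s :=
    funext fun s => kf_eq hA K s
  rw [h4] at h1
  have h5 := ((RR K).hasDerivAt t).mul (A.hasDerivAt t)
  rw [h1.unique h5, RR_deriv K ht]
  ring

theorem mf_eq (K : ℕ) (t : ℝ) :
    mf B K t = 2 * (((RR K).eval t : ℝ) : ℂ) * conj (B.eval (t : ℂ)) := by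
  unfold mf
  rw [Bc_eval]

theorem mf_deriv (K : ℕ) {t : ℝ} (ht : t ≤ 1) : deriv (mf B K) t =
    (((RR K).eval t : ℝ) : ℂ) * (-2 * ((K / (2 - t) : ℝ) : ℂ) * conj (B.eval (t : ℂ)) +
      2 * conj ((Polynomial.derivative B).eval (t : ℂ))) := by
  have h1 : HasDerivAt (fun s : ℝ => (((RR K).eval s : ℝ) : ℂ))
      (((Polynomial.derivative (RR K)).eval t : ℝ) : ℂ) t := ((RR K).hasDerivAt t).ofReal_comp
  have h2 : HasDerivAt (fun s : ℝ => (Bc B).eval (s : ℂ))
      ((Polynomial.derivative (Bc B)).eval (t : ℂ)) t :=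
    ((Bc B).hasDerivAt (t : ℂ)).comp_ofReal
  have h3 : (Polynomial.derivative (Bc B)).eval (t : ℂ) =
      conj ((Polynomial.derivative B).eval (t : ℂ)) := by
    have : Polynomial.derivative (Bc B) = Bc (Polynomial.derivative B) :=
      Polynomial.derivative_map B (starRingEnd ℂ)
    rw [this, Bc_eval]
  have h4 := ((h1.const_mul 2).mul h2).deriv
  have h5 : deriv (mf B K) t = 2 * (((Polynomial.derivative (RR K)).eval t : ℝ) : ℂ) *
      (Bc B).eval (t : ℂ) + 2 * (((RR K).eval t : ℝ) : ℂ) *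
      (Polynomial.derivative (Bc B)).eval (t : ℂ) := h4
  rw [h5, h3, Bc_eval, RR_deriv K ht]
  push_cast
  ring

end

theorem polyC_cont (B : Polynomial ℂ) : Continuous fun q : V × V =>
    B.eval ((normSq (q.1 0) : ℝ) : ℂ) := by
  have h : Continuous fun q : V × V => normSq (q.1 0) :=
    Complex.continuous_normSq.comp ((continuous_apply 0).comp continuous_fst)
  exact B.continuous.comp (Complex.continuous_ofReal.comp h)

theorem polyR_cont (A : Polynomial ℝ) : Continuous fun q : V × V =>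
    A.eval (normSq (q.1 0)) := by
  have h : Continuous fun q : V × V => normSq (q.1 0) :=
    Complex.continuous_normSq.comp ((continuous_apply 0).comp continuous_fst)
  exact A.continuous.comp h

/-- the leading part on pairs -/
def MM (A : Polynomial ℝ) (B : Polynomial ℂ) (q : V × V) : ℝ :=
  M1 (A.eval (normSq (q.1 0))) (B.eval ((normSq (q.1 0) : ℝ) : ℂ)) (q.1 0) (q.2 0) (th q.1 q.2)

/-- the remaining part on pairs -/
def NR (A : Polynomial ℝ) (B : Polynomial ℂ) (q : V × V) : ℝ :=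
  N1 (A.eval (normSq (q.1 0))) ((Polynomial.derivative A).eval (normSq (q.1 0)))
    (B.eval ((normSq (q.1 0) : ℝ) : ℂ))
    ((Polynomial.derivative B).eval ((normSq (q.1 0) : ℝ) : ℂ)) (q.1 0) (q.2 0) (th q.1 q.2) 1

theorem th_cont : Continuous fun q : V × V => th q.1 q.2 := by
  unfold th
  fun_prop

theorem DQ_cont {f : V × V → ℝ} {g : V × V → ℂ} (hf : Continuous f) (hg : Continuous g) :
    Continuous fun q : V × V => DQ (f q) (g q * q.1 0 ^ 3) (q.1 0) (q.2 0) (th q.1 q.2) := by
  have ht := th_cont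
  have hz : Continuous fun q : V × V => q.1 0 := by fun_prop
  have hx : Continuous fun q : V × V => q.2 0 := by fun_prop
  unfold DQ
  fun_prop

theorem FQ_cont {f : V × V → ℝ} {g : V × V → ℂ} (hf : Continuous f) (hg : Continuous g) :
    Continuous fun q : V × V => FQ (f q) (g q * q.1 0 ^ 3) (q.2 0) (th q.1 q.2) := by
  have ht := th_cont
  have hz : Continuous fun q : V × V => q.1 0 := by fun_prop
  have hx : Continuous fun q : V × V => q.2 0 := by fun_prop
  unfold FQ
  fun_prop

theorem MM_cont (A : Polynomial ℝ) (B : Polynomial ℂ) : Continuous (MM A B) := by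
  have h1 := polyR_cont A
  have h2 := polyC_cont B
  have h3 := DQ_cont h1 h2
  have ht := th_cont
  have hz : Continuous fun q : V × V => q.1 0 := by fun_prop
  have hx : Continuous fun q : V × V => q.2 0 := by fun_prop
  have hn : Continuous fun q : V × V => normSq (q.2 0) := Complex.continuous_normSq.comp hx
  unfold MM M1
  fun_prop

theorem NR_cont (A : Polynomial ℝ) (B : Polynomial ℂ) : Continuous (NR A B) := by
  have h1 := polyR_cont A
  have h2 := polyC_cont B
  have h1' := polyR_cont (Polynomial.derivative A)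
  have h2' := polyC_cont (Polynomial.derivative B)
  have h3 := DQ_cont h1 h2
  have h4 := FQ_cont h1 h2
  have ht := th_cont
  have hz : Continuous fun q : V × V => q.1 0 := by fun_prop
  have hx : Continuous fun q : V × V => q.2 0 := by fun_prop
  have hn : Continuous fun q : V × V => normSq (q.2 0) := Complex.continuous_normSq.comp hx
  have hn' : Continuous fun q : V × V => normSq (q.1 0) := Complex.continuous_normSq.comp hz
  have hB : Continuous fun q : V × V => normSq (B.eval ((normSq (q.1 0) : ℝ) : ℂ)) :=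
    Complex.continuous_normSq.comp h2
  unfold NR N1
  fun_prop

end Pool.Agent.K6.H10.SU
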