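import Pool.Agent.K6.H10.SU.Ex

/-!
# Existence, and the theorem for all forms
-/

set_option autoImplicit false

open scoped ContDiff Topology ComplexConjugate

noncomputable section

namespace Pool.Agent.K6.H10.SU

open Pool.Agent.K6.H10.SY
open Complex (I normSq)
open Polynomial (C X)

theorem NR_pos {A : Polynomial ℝ} {B : Polynomial ℂ} (hA : A.eval 0 = 1)
    (hne : ∀ t : ℝ, 0 < t → t ≤ 1 → A.eval t ≠ 0 ∨ B.eval (t : ℂ) ≠ 0) {q : V × V}
    (hq : q ∈ W1) (h0 : MM A B q = 0) : 0 < NR A B q := by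
  obtain ⟨h1, h2, h3⟩ := hq
  have hrel := normSq_rel h1 h3
  rw [h2] at hrel
  have hT1 : normSq (q.1 0) ≤ 1 := by
    have := (TT_mem q.1).2
    rwa [TT_one h1] at this
  unfold MM at h0
  unfold NR
  rcases (Complex.normSq_nonneg (q.1 0)).lt_or_eq with hT | hT
  · have h4 := T_M1 (A.eval (normSq (q.1 0))) (B.eval ((normSq (q.1 0) : ℝ) : ℂ)) (q.1 0)
      (q.2 0) (th q.1 q.2)
    rw [h0, mul_zero] at h4
    have hpos : 0 < A.eval (normSq (q.1 0)) ^ 2 +
        normSq (q.1 0) ^ 3 * normSq (B.eval ((normSq (q.1 0) : ℝ) : ℂ)) := by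
      rcases hne _ hT hT1 with h | h
      · have := Complex.normSq_nonneg (B.eval ((normSq (q.1 0) : ℝ) : ℂ))
        positivity
      · have := Complex.normSq_pos.2 h
        positivity
    have h5 : (q.1 0 * conj (q.2 0)).re = 0 := by
      by_contra hc
      have h6 : 0 < (q.1 0 * conj (q.2 0)).re ^ 2 := by positivity
      have h7 := mul_pos hpos h6
      nlinarith [sq_nonneg (normSq (q.1 0) * (conj (B.eval ((normSq (q.1 0) : ℝ) : ℂ)) *
        conj (q.1 0) ^ 2 * th q.1 q.2).re + A.eval (normSq (q.1 0)) * (q.1 0 * conj (q.2 0)).im)]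
    rw [h5] at h4
    have h6 : normSq (q.1 0) * (conj (B.eval ((normSq (q.1 0) : ℝ) : ℂ)) *
        conj (q.1 0) ^ 2 * th q.1 q.2).re +
        A.eval (normSq (q.1 0)) * (q.1 0 * conj (q.2 0)).im = 0 := by
      have : (normSq (q.1 0) * (conj (B.eval ((normSq (q.1 0) : ℝ) : ℂ)) *
        conj (q.1 0) ^ 2 * th q.1 q.2).re +
        A.eval (normSq (q.1 0)) * (q.1 0 * conj (q.2 0)).im) ^ 2 = 0 := by
        linarith
      exact pow_eq_zero_iff (two_ne_zero) |>.1 this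
    rw [N1_zero _ _ hT h5 h6 hrel]
    have hpos' : 0 < A.eval (normSq (q.1 0)) ^ 2 +
        normSq (q.1 0) ^ 2 * normSq (B.eval ((normSq (q.1 0) : ℝ) : ℂ)) := by
      rcases hne _ hT hT1 with h | h
      · have := Complex.normSq_nonneg (B.eval ((normSq (q.1 0) : ℝ) : ℂ))
        positivity
      · have := Complex.normSq_pos.2 h
        positivity
    linarith
  · have hz : q.1 0 = 0 := Complex.normSq_eq_zero.1 hT.symm
    rw [M1_eq, ← hT, hA, hz] at h0
    have hx : normSq (q.2 0) = 0 := by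
      simp at h0
      simpa using h0
    have hx0 : q.2 0 = 0 := Complex.normSq_eq_zero.1 hx
    rw [← hT, hA]
    unfold N1
    rw [hz, hx0]
    simp

theorem val_pos {A : Polynomial ℝ} {B : Polynomial ℂ} (hA : A.eval 0 = 1)
    (hne : ∀ t : ℝ, 0 < t → t ≤ 1 → A.eval t ≠ 0 ∨ B.eval (t : ℂ) ≠ 0) :
    ∃ K : ℕ, ∀ q ∈ W1, 0 < Om (kf A K) (mf B K) q.1 q.2
      (JJ (A.eval (TT q.1)) (B.eval ((TT q.1 : ℝ) : ℂ)) q.1 q.2) := by
  obtain ⟨K, hK⟩ := exists_large isCompact_W1 (MM_cont A B) (NR_cont A B)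
    (fun q => M1_nonneg _ _ _ _ _) fun q hq => NR_pos hA hne hq
  refine ⟨K, fun q hq => ?_⟩
  have h := hK q hq
  obtain ⟨h1, h2, h3⟩ := hq
  have hT0 := (TT_mem q.1).1
  have hT1 := (TT_mem q.1).2
  have hz := ne_zero_of_nsq h1
  have key := quad_formula h1 h3 (kf_smooth A K) (mf_smooth B K)
    (kf_eq hA K (TT q.1)) (kf_deriv hA K hT1) (mf_eq B K (TT q.1)) (E := K / (2 - TT q.1))
    (b' := (Polynomial.derivative B).eval ((TT q.1 : ℝ) : ℂ)) (mf_deriv B K hT1)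
  rw [Om, if_neg hz]
  show 0 < fs q.1 q.2 (JJ _ _ q.1 q.2) + ext (al (kf A K) (mf B K)) q.1 q.2 (JJ _ _ q.1 q.2)
  rw [key, h2]
  have hρ : 0 < (RR K).eval (TT q.1) := by
    rw [RR_eval]
    have : 0 < 1 - TT q.1 / 2 := by linarith
    positivity
  refine mul_pos hρ ?_
  have hM := M1_nonneg (A.eval (TT q.1)) (B.eval ((TT q.1 : ℝ) : ℂ)) (q.1 0) (q.2 0)
    (th q.1 q.2)
  have hE : (K : ℝ) / 2 ≤ K / (2 - TT q.1) :=
    div_le_div_of_nonneg_left (Nat.cast_nonneg K) (by linarith) (by linarith)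
  have hE' := mul_le_mul_of_nonneg_right hE hM
  unfold MM NR at h
  rw [← TT_one h1] at h
  linarith

theorem JJ_scale (c a : ℝ) (b : ℂ) (z v : V) :
    JJ (c * a) (c * b) z v = c • JJ a b z v := by
  unfold JJ
  funext i
  simp only [Pi.add_apply, Pi.smul_apply, smul_eq_mul, Complex.real_smul]
  push_cast
  ring

/-- for all polynomial parameters there is a positive form -/
theorem exists_Om {p : Par} (hp : p ∈ PS) : ∃ (k : ℝ → ℝ) (m : ℝ → ℂ), ContDiff ℝ ∞ k ∧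
    ContDiff ℝ ∞ m ∧ TameF (Om k m) p := by
  obtain ⟨⟨A, B, hA, hB⟩, h0, h1⟩ := hp
  have hα : 0 < A.eval 0 := by
    have := hA 0
    rw [this] at h0
    simpa using h0
  have hα' : (A.eval 0)⁻¹ * A.eval 0 = 1 := inv_mul_cancel₀ hα.ne'
  obtain ⟨K, hK⟩ := val_pos (A := C (A.eval 0)⁻¹ * A) (B := C (((A.eval 0)⁻¹ : ℝ) : ℂ) * B)
    (by rw [Polynomial.eval_mul, Polynomial.eval_C, hα']) (by
      intro t ht ht1
      have h2 := h1 ⟨t, ht.le, ht1⟩
      rw [hA, hB] at h2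
      rcases h2 with h2 | h2 | h2
      · left
        rw [Polynomial.eval_mul, Polynomial.eval_C]
        exact mul_ne_zero (inv_ne_zero hα.ne') h2
      · right
        rw [Polynomial.eval_mul, Polynomial.eval_C]
        exact mul_ne_zero (by exact_mod_cast inv_ne_zero hα.ne') h2
      · exact absurd (congrArg Subtype.val h2) ht.ne')
  refine ⟨kf (C (A.eval 0)⁻¹ * A) K, mf (C (((A.eval 0)⁻¹ : ℝ) : ℂ) * B) K, kf_smooth _ K,
    mf_smooth _ K, ?_⟩
  have hF := isForm_Om (kf_smooth (C (A.eval 0)⁻¹ * A) K)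
    (mf_smooth (C (((A.eval 0)⁻¹ : ℝ) : ℂ) * B) K)
  refine tameF_of_W1 hF fun q hq => ?_
  have h2 := hK q hq
  rw [Polynomial.eval_mul, Polynomial.eval_mul, Polynomial.eval_C, Polynomial.eval_C,
    JJ_scale, map_smul, smul_eq_mul] at h2
  have h3 := (mul_pos_iff_of_pos_left (inv_pos.2 hα)).1 h2
  have h4 : J p q.1 q.2 = JJ (A.eval (TT q.1)) (B.eval ((TT q.1 : ℝ) : ℂ)) q.1 q.2 := by
    unfold J
    rw [hA, hB]
    rfl
  rw [h4]
  exact h3

/-- the theorem for all forms -/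
theorem contractible_TS {C : Set (V → Bil)} (hC : Convex ℝ C)
    (hex : ∀ (k : ℝ → ℝ) (m : ℝ → ℂ), ContDiff ℝ ∞ k → ContDiff ℝ ∞ m → Om k m ∈ C) :
    ContractibleSpace (TS C) := by
  refine main hC fun p hp => ?_
  obtain ⟨k, m, hk, hm, h⟩ := exists_Om hp
  exact ⟨⟨Om k m, isForm_Om hk hm⟩, inClass_Om hk hm, hex k m hk hm, h⟩

end Pool.Agent.K6.H10.SU
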