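import Mathlib

/-!
# The positivity of a quadratic form
-/

set_option autoImplicit false

namespace Pool.Agent.K6.H10.SU

/-- the positivity of a quadratic form in four variables -/
theorem quad_pos {P Q r1 r2 s1 s2 : ℝ} (hpf : 0 < P * Q - r1 * r2 + s1 * s2)
    {x1 x2 y1 y2 : ℝ} (hv : 0 < x1 ^ 2 + x2 ^ 2 + y1 ^ 2 + y2 ^ 2) {x1' x2' y1' y2' : ℝ}
    (h1 : x1' = -((P + Q) / 2 * x2) - ((r1 - r2) / 2 * y1 + (s1 + s2) / 2 * y2))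
    (h2 : x2' = (P + Q) / 2 * x1 - ((s1 + s2) / 2 * y1 - (r1 - r2) / 2 * y2))
    (h3 : y1' = -((P + Q) / 2 * y2) + ((r1 - r2) / 2 * x1 + (s1 + s2) / 2 * x2))
    (h4 : y2' = (P + Q) / 2 * y1 + ((s1 + s2) / 2 * x1 - (r1 - r2) / 2 * x2)) :
    0 < P * (x1 * x2' - x2 * x1') + Q * (y1 * y2' - y2 * y1') + r1 * (x1 * y1' - y1 * x1') +
      s1 * (x1 * y2' - y2 * x1') + s2 * (x2 * y1' - y1 * x2') + r2 * (x2 * y2' - y2 * x2') := by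
  obtain ⟨a, ha⟩ : ∃ a, a = (P + Q) / 2 := ⟨_, rfl⟩
  obtain ⟨b, hb⟩ : ∃ b, b = (r1 - r2) / 2 := ⟨_, rfl⟩
  obtain ⟨c, hc⟩ : ∃ c, c = (s1 + s2) / 2 := ⟨_, rfl⟩
  obtain ⟨d, hd⟩ : ∃ d, d = (P - Q) / 2 := ⟨_, rfl⟩
  obtain ⟨e, he⟩ : ∃ e, e = (s1 - s2) / 2 := ⟨_, rfl⟩
  obtain ⟨f, hf⟩ : ∃ f, f = (r1 + r2) / 2 := ⟨_, rfl⟩
  have hP : P = a + d := by rw [ha, hd]; ring
  have hQ : Q = a - d := by rw [ha, hd]; ring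
  have hr1 : r1 = b + f := by rw [hb, hf]; ring
  have hr2 : r2 = f - b := by rw [hb, hf]; ring
  have hs1 : s1 = c + e := by rw [hc, he]; ring
  have hs2 : s2 = c - e := by rw [hc, he]; ring
  rw [← ha, ← hb, ← hc] at h1 h2 h3 h4
  obtain ⟨n, hn⟩ : ∃ n, n = x1 ^ 2 + x2 ^ 2 + y1 ^ 2 + y2 ^ 2 := ⟨_, rfl⟩
  obtain ⟨R, hR⟩ : ∃ R, R = a ^ 2 + b ^ 2 + c ^ 2 := ⟨_, rfl⟩
  obtain ⟨D, hD⟩ : ∃ D, D = d ^ 2 + e ^ 2 + f ^ 2 := ⟨_, rfl⟩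
  have hRD : D < R := by
    rw [hP, hQ, hr1, hr2, hs1, hs2] at hpf
    rw [hR, hD]
    nlinarith
  obtain ⟨u, hu⟩ : ∃ u, u = (x1 * x2' - x2 * x1') - (y1 * y2' - y2 * y1') := ⟨_, rfl⟩
  obtain ⟨v, hv'⟩ : ∃ v, v = (x1 * y2' - y2 * x1') - (x2 * y1' - y1 * x2') := ⟨_, rfl⟩
  obtain ⟨w, hw⟩ : ∃ w, w = (x1 * y1' - y1 * x1') + (x2 * y2' - y2 * x2') := ⟨_, rfl⟩
  have e1 : u ^ 2 + v ^ 2 + w ^ 2 = R * n ^ 2 := by
    rw [hu, hv', hw, hR, hn, h1, h2, h3, h4]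
    ring
  have e2 : P * (x1 * x2' - x2 * x1') + Q * (y1 * y2' - y2 * y1') + r1 * (x1 * y1' - y1 * x1') +
      s1 * (x1 * y2' - y2 * x1') + s2 * (x2 * y1' - y1 * x2') + r2 * (x2 * y2' - y2 * x2') =
      R * n + (d * u + e * v + f * w) := by
    rw [hu, hv', hw, hR, hn, hP, hQ, hr1, hr2, hs1, hs2, h1, h2, h3, h4]
    ring
  rw [e2]
  rw [← hn] at hv
  have hD0 : 0 ≤ D := by rw [hD]; positivity
  have hR0 : 0 < R := by linarith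
  have e3 : (d * u + e * v + f * w) ^ 2 ≤ D * (u ^ 2 + v ^ 2 + w ^ 2) := by
    rw [hD]
    nlinarith [sq_nonneg (d * v - e * u), sq_nonneg (d * w - f * u), sq_nonneg (e * w - f * v)]
  have e4 : (d * u + e * v + f * w) ^ 2 < (R * n) ^ 2 := by
    rw [e1] at e3
    have e5 : D * (R * n ^ 2) < R * (R * n ^ 2) := mul_lt_mul_of_pos_right hRD (by positivity)
    nlinarith
  have e6 := (abs_lt_of_sq_lt_sq' e4 (by positivity)).1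
  linarith

end Pool.Agent.K6.H10.SU
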