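import Pool.Agent.K6.H10.SU.Res
import Pool.Agent.K6.H10.SU.Sto
import Pool.Agent.K6.H10.SU.QP

/-!
# Invariant symplectic forms tame an invariant structure
-/

set_option autoImplicit false

open scoped ContDiff Topology ComplexConjugate

noncomputable section

namespace Pool.Agent.K6.H10.SU

open Pool.Agent.K6.H10.SY
open Complex (I normSq)

/-- `a (0) > 0` is automatic -/
theorem a_pos {Ω : V → Bil} (hF : IsForm Ω) (h : InClass Ω) {p : Par} (ht : TameF Ω p) :
    0 < p.1 0 := by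
  obtain ⟨q, hq⟩ := exists_pos hF h
  have h1 : ¬ ∃ c : ℂ, zs q = c • zz q := by
    rintro ⟨c, hc⟩
    have h2 := hp_zz_zs q
    have h3 := nsq_zs q
    rw [hc, hp_smul, hp_self, nsq_zz] at h2
    have h4 : c = 0 := by simpa using h2
    rw [hc, h4, zero_smul, nsq_eq] at h3
    simp at h3
  have h2 := ht (zz q) (zz_ne q) (zs q) h1
  have h3 : tI (zz q) = 0 := by
    refine Subtype.ext ?_
    show TT (zz q) = 0
    unfold TT zz
    simp
  have h4 : J p (zz q) (zs q) = p.1 0 • (I • zs q) := by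
    unfold J JJ
    rw [h3]
    have h5 : zz q 0 = 0 := rfl
    rw [h5]
    funext i
    simp
  rw [h4, map_smul, smul_eq_mul] at h2
  exact (mul_pos_iff_of_pos_right hq).1 h2

/-- the points on the meridian -/
def et (t : ℝ) : V := ![(√t : ℝ), (√(1 - t) : ℝ), 0]
/-- the first vector of the frame -/
def ea (t : ℝ) : V := ![((-√(1 - t) : ℝ) : ℂ), (√t : ℝ), 0]
/-- the second vector of the frame -/
def eb : V := ![0, 0, 1]

theorem cont_et : Continuous et := by
  refine continuous_pi fun i => ?_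
  fin_cases i
  · exact Complex.continuous_ofReal.comp Real.continuous_sqrt
  · exact Complex.continuous_ofReal.comp (Real.continuous_sqrt.comp (continuous_const.sub
      continuous_id))
  · exact continuous_const

theorem cont_ea : Continuous ea := by
  refine continuous_pi fun i => ?_
  fin_cases i
  · exact Complex.continuous_ofReal.comp (Real.continuous_sqrt.comp (continuous_const.sub
      continuous_id)).neg
  · exact Complex.continuous_ofReal.comp Real.continuous_sqrt
  · exact continuous_const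

section

variable {t : ℝ} (ht : 0 ≤ t) (ht1 : t ≤ 1)

include ht ht1 in
theorem sq_sum : ((√t : ℝ) : ℂ) * (√t : ℝ) + ((√(1 - t) : ℝ) : ℂ) * (√(1 - t) : ℝ) = 1 := by
  have h1 := Real.mul_self_sqrt ht
  have h2 := Real.mul_self_sqrt (sub_nonneg.2 ht1)
  have h3 : √t * √t + √(1 - t) * √(1 - t) = 1 := by rw [h1, h2]; ring
  exact_mod_cast h3

include ht ht1 in
theorem nsq_et : nsq (et t) = 1 := by
  have h1 := Real.sq_sqrt ht
  have h2 := Real.sq_sqrt (sub_nonneg.2 ht1)
  rw [nsq_eq]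
  simp only [et, Matrix.cons_val_zero, Matrix.cons_val_one, Matrix.cons_val, Complex.norm_real,
    Real.norm_eq_abs, sq_abs, norm_zero]
  rw [h1, h2]
  ring

include ht ht1 in
theorem et_ne : et t ≠ 0 := ne_zero_of_nsq (nsq_et ht ht1)

include ht ht1 in
theorem TT_et : TT (et t) = t := by
  unfold TT
  rw [nsq_et ht ht1]
  simp only [et, Matrix.cons_val_zero, Complex.norm_real, Real.norm_eq_abs, sq_abs, div_one]
  exact Real.sq_sqrt ht

include ht ht1 in
/-- the decomposition of a vector -/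
theorem decomp_et (v : V) : v = hp (et t) v • et t + (hp (ea t) v • ea t + v 2 • eb) := by
  have h := sq_sum ht ht1
  rw [hp_eq, hp_eq]
  funext i
  fin_cases i
  · simp [et, ea, eb]
    linear_combination (-(v 0)) * h
  · simp [et, ea, eb]
    linear_combination (-(v 1)) * h
  · simp [et, ea, eb]

include ht ht1 in
theorem indep_et {x y : ℂ} (h : ∃ c : ℂ, x • ea t + y • eb = c • et t) : x = 0 ∧ y = 0 := by
  obtain ⟨c, hc⟩ := h
  have h1 := sq_sum ht ht1
  have h2 := congrFun hc 0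
  have h3 := congrFun hc 1
  have h4 := congrFun hc 2
  simp [et, ea, eb] at h2 h3 h4
  refine ⟨?_, h4⟩
  linear_combination (-(((√(1 - t) : ℝ) : ℂ))) * h2 + (((√t : ℝ) : ℂ)) * h3 - x * h1

end

/-- the value of an alternating form in a frame -/
theorem bil_frame {B : Bil} (h : ∀ v, B v v = 0) (e f : V) (x y x' y' : ℂ) :
    B (x • e + y • f) (x' • e + y' • f) =
      B e (I • e) * (x.re * x'.im - x.im * x'.re) + B f (I • f) * (y.re * y'.im - y.im * y'.re) +
        B e f * (x.re * y'.re - y.re * x'.re) + B e (I • f) * (x.re * y'.im - y.im * x'.re) +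
        B (I • e) f * (x.im * y'.re - y.re * x'.im) +
        B (I • e) (I • f) * (x.im * y'.im - y.im * x'.im) := by
  rw [smulC x e, smulC y f, smulC x' e, smulC y' f]
  simp only [map_add, map_smul, add_apply, smul_apply, smul_eq_mul, h]
  rw [antisymm h (I • e) e, antisymm h f e, antisymm h (I • f) e, antisymm h f (I • e),
    antisymm h (I • f) (I • e), antisymm h (I • f) f]
  ring

section

variable {t : ℝ} (ht : 0 ≤ t) (ht1 : t ≤ 1)

include ht ht1 in
theorem crs_et (x y : ℂ) : crs (et t) (x • ea t + y • eb) = (-conj y) • ea t + conj x • eb := by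
  have h := sq_sum ht ht1
  funext i
  fin_cases i
  · simp [crs, et, ea, eb]
    ring
  · simp [crs, et, ea, eb]
    ring
  · simp [crs, et, ea, eb]
    linear_combination (conj x) * h

include ht ht1 in
theorem JJ_et (a : ℝ) (b x y : ℂ) : JJ a b (et t) (x • ea t + y • eb) =
    (a * I * x - b * ((√t : ℝ) : ℂ) ^ 3 * conj y) • ea t +
      (a * I * y + b * ((√t : ℝ) : ℂ) ^ 3 * conj x) • eb := by
  unfold JJ
  rw [crs_et ht ht1, nsq_et ht ht1]
  have h0 : et t 0 = ((√t : ℝ) : ℂ) := rfl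
  rw [h0]
  funext i
  simp only [Pi.add_apply, Pi.smul_apply, smul_eq_mul, Complex.ofReal_one, one_pow, div_one]
  ring

/-- the real parameter of a form at a point of the meridian -/
def ra (Ω : V → Bil) (t : ℝ) : ℝ :=
  (Ω (et t) (ea t) (I • ea t) + Ω (et t) eb (I • eb)) / 2

/-- the complex parameter of a form at a point of the meridian -/
def cb (Ω : V → Bil) (t : ℝ) : ℂ :=
  ⟨(Ω (et t) (ea t) eb - Ω (et t) (I • ea t) (I • eb)) / 2,
    (Ω (et t) (ea t) (I • eb) + Ω (et t) (I • ea t) eb) / 2⟩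

theorem nz_sq {x y : ℂ} (h : x ≠ 0 ∨ y ≠ 0) :
    0 < x.re ^ 2 + x.im ^ 2 + y.re ^ 2 + y.im ^ 2 := by
  have h1 := Complex.normSq_apply x
  have h2 := Complex.normSq_apply y
  have h3 := Complex.normSq_nonneg x
  have h4 := Complex.normSq_nonneg y
  rcases h with h | h
  · have := Complex.normSq_pos.2 h
    nlinarith
  · have := Complex.normSq_pos.2 h
    nlinarith

include ht ht1 in
/-- a form with positive Pfaffian tames the structure given by its parameters -/
theorem tame_plus {Ω : V → Bil} (hF : IsForm Ω) (hpf : 0 < pf (Ω (et t)) (ea t) eb) {x y : ℂ}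
    (h : x ≠ 0 ∨ y ≠ 0) {b : ℂ} (hb : b * ((√t : ℝ) : ℂ) ^ 3 = cb Ω t) :
    0 < Ω (et t) (x • ea t + y • eb) (JJ (ra Ω t) b (et t) (x • ea t + y • eb)) := by
  rw [JJ_et ht ht1, bil_frame (hF.alt _), hb]
  have hpf' : 0 < Ω (et t) (ea t) (I • ea t) * Ω (et t) eb (I • eb) -
      Ω (et t) (ea t) eb * Ω (et t) (I • ea t) (I • eb) +
      Ω (et t) (ea t) (I • eb) * Ω (et t) (I • ea t) eb := hpf
  refine quad_pos hpf' (nz_sq h) ?_ ?_ ?_ ?_
  · simp [ra, cb]
  · simp [ra, cb]
    ring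
  · simp [ra, cb]
  · simp [ra, cb]
    ring

include ht ht1 in
/-- a form with a simple condition tames the multiplication by `i` -/
theorem tame_i {Ω : V → Bil} (hF : IsForm Ω) (h1 : 0 < Ω (et t) (ea t) (I • ea t))
    (h2 : (Ω (et t) (ea t) eb + Ω (et t) (I • ea t) (I • eb)) ^ 2 +
      (Ω (et t) (ea t) (I • eb) - Ω (et t) (I • ea t) eb) ^ 2 <
      4 * (Ω (et t) (ea t) (I • ea t) * Ω (et t) eb (I • eb))) {x y : ℂ}
    (h : x ≠ 0 ∨ y ≠ 0) :
    0 < Ω (et t) (x • ea t + y • eb) (JJ 1 0 (et t) (x • ea t + y • eb)) := by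
  rw [JJ_et ht ht1, bil_frame (hF.alt _)]
  generalize Ω (et t) (ea t) (I • ea t) = P at *
  generalize Ω (et t) eb (I • eb) = Q at *
  generalize Ω (et t) (ea t) eb = r1 at *
  generalize Ω (et t) (I • ea t) (I • eb) = r2 at *
  generalize Ω (et t) (ea t) (I • eb) = s1 at *
  generalize Ω (et t) (I • ea t) eb = s2 at *
  have hv := nz_sq h
  simp
  generalize x.re = x1 at *
  generalize x.im = x2 at *
  generalize y.re = y1 at *
  generalize y.im = y2 at *
  obtain ⟨X, hX⟩ : ∃ X, X = x1 ^ 2 + x2 ^ 2 := ⟨_, rfl⟩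
  obtain ⟨Y, hY⟩ : ∃ Y, Y = y1 ^ 2 + y2 ^ 2 := ⟨_, rfl⟩
  obtain ⟨D, hD⟩ : ∃ D, D = (r1 + r2) ^ 2 + (s1 - s2) ^ 2 := ⟨_, rfl⟩
  obtain ⟨c, hc⟩ : ∃ c, c = (r1 + r2) * (x2 * y1 - x1 * y2) + (s1 - s2) * (x1 * y1 + x2 * y2) :=
    ⟨_, rfl⟩
  have hX0 : 0 ≤ X := by rw [hX]; positivity
  have hY0 : 0 ≤ Y := by rw [hY]; positivity
  have hD0 : 0 ≤ D := by rw [hD]; positivity
  have hXY : 0 < X + Y := by rw [hX, hY]; linarith
  rw [← hD] at h2
  have hQ : 0 < Q := by
    have h3 : 0 < P * Q := by linarith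
    exact (mul_pos_iff_of_pos_left h1).1 h3
  have e1 : c ^ 2 ≤ D * (X * Y) := by
    rw [hc, hD, hX, hY]
    nlinarith [sq_nonneg ((r1 + r2) * (x1 * y1 + x2 * y2) - (s1 - s2) * (x2 * y1 - x1 * y2))]
  have e2 : 0 < P * X + Q * Y := by
    rcases hX0.lt_or_eq with h3 | h3
    · have := mul_pos h1 h3
      have := mul_nonneg hQ.le hY0
      linarith
    · have h4 : 0 < Y := by linarith
      have := mul_pos hQ h4
      rw [← h3]
      linarith
  have e3 : c ^ 2 < (P * X + Q * Y) ^ 2 := by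
    rcases (mul_nonneg hX0 hY0).lt_or_eq with h3 | h3
    · have h4 : D * (X * Y) < 4 * (P * Q) * (X * Y) := mul_lt_mul_of_pos_right h2 h3
      nlinarith [sq_nonneg (P * X - Q * Y)]
    · rw [← h3, mul_zero] at e1
      have : 0 < (P * X + Q * Y) ^ 2 := by positivity
      linarith
  have e4 := (abs_lt_of_sq_lt_sq' e3 e2.le).1
  have e5 : P * (x1 * x1 + x2 * x2) + Q * (y1 * y1 + y2 * y2) + r1 * (-(x1 * y2) + y1 * x2) +
      s1 * (x1 * y1 + y2 * x2) + s2 * (-(x2 * y2) - y1 * x1) + r2 * (x2 * y1 - y2 * x1) =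
      P * X + Q * Y + c := by
    rw [hX, hY, hc]
    ring
  rw [e5]
  linarith

end

end Pool.Agent.K6.H10.SU
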