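import Pool.Agent.K6.H10.SU.Inc

/-!
# Invariant symplectic forms tame an invariant structure, second part
-/

set_option autoImplicit false

open scoped ContDiff Topology ComplexConjugate

noncomputable section

namespace Pool.Agent.K6.H10.SU

open Pool.Agent.K6.H10.SY
open Complex (I normSq)

section

variable {Ω : V → Bil} (hF : IsForm Ω)

include hF in
/-- the continuity of the coefficients on the meridian -/
theorem cont_mer {f g : ℝ → V} (hf : Continuous f) (hg : Continuous g) :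
    ContinuousOn (fun t => Ω (et t) (f t) (g t)) (Set.Icc 0 1) := by
  have h1 : ContinuousOn (fun t => Ω (et t)) (Set.Icc 0 1) :=
    hF.smooth.continuousOn.comp cont_et.continuousOn fun t ht => et_ne ht.1 ht.2
  exact (h1.clm_apply hf.continuousOn).clm_apply hg.continuousOn

theorem cont_I {f : ℝ → V} (hf : Continuous f) : Continuous fun t => I • f t :=
  hf.const_smul I

include hF in
theorem cont_pf_mer : ContinuousOn (fun t => pf (Ω (et t)) (ea t) eb) (Set.Icc 0 1) := by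
  unfold pf
  have c : ∀ {f g : ℝ → V}, Continuous f → Continuous g →
      ContinuousOn (fun t => Ω (et t) (f t) (g t)) (Set.Icc 0 1) :=
    fun hf hg => cont_mer hF hf hg
  have h1 := cont_ea
  have h2 : Continuous fun _ : ℝ => eb := continuous_const
  exact (((c h1 (cont_I h1)).mul (c h2 (cont_I h2))).sub ((c h1 h2).mul
    (c (cont_I h1) (cont_I h2)))).add ((c h1 (cont_I h2)).mul (c (cont_I h1) h2))

include hF in
theorem pf_mer_ne (hn : Nondeg Ω) {t : ℝ} (ht : 0 ≤ t) (ht1 : t ≤ 1) :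
    pf (Ω (et t)) (ea t) eb ≠ 0 := by
  intro hq
  have hz0 := et_ne ht ht1
  obtain ⟨x, y, hxy, h1, h2, h3, h4⟩ := pf_zero (hF.alt _) _ _ hq
  have h5 := hn (et t) hz0 (x • ea t + y • eb) fun w => ?_
  · obtain ⟨rfl, rfl⟩ := indep_et ht ht1 h5
    simp at hxy
  · have hw := decomp_et ht ht1 w
    generalize hp (ea t) w = x' at *
    generalize hp (et t) w = c at *
    generalize w 2 = y' at *
    generalize x • ea t + y • eb = v at *
    rw [hw, map_add, antisymm (hF.alt _) _ (c • et t), hF.hor _ hz0, smulC x', smulC y']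
    simp only [map_add, map_smul, h1, h2, h3, h4]
    simp

theorem et_one : et 1 = ![1, 0, 0] := by
  funext i
  fin_cases i <;> simp [et]

theorem ea_one : ea 1 = ![0, 1, 0] := by
  funext i
  fin_cases i <;> simp [ea]

theorem et_zero : et 0 = ![0, 1, 0] := by
  funext i
  fin_cases i <;> simp [et]

theorem ea_zero : ea 0 = ![-1, 0, 0] := by
  funext i
  fin_cases i <;> simp [ea]

theorem vec_neg (a b c : ℂ) : -(![a, b, c] : V) = ![-a, -b, -c] := by
  funext i
  fin_cases i <;> simp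

theorem vec_smul (k a b c : ℂ) : k • (![a, b, c] : V) = ![k * a, k * b, k * c] := by
  funext i
  fin_cases i <;> simp

theorem rot_vec (α β a b c : ℂ) : rot α β ![a, b, c] =
    ![a, α * b - conj β * c, β * b + conj α * c] := by
  funext i
  fin_cases i <;> simp [rot]

include hF in
/-- the Pfaffian is positive at the fixed point -/
theorem pf_mer_one (hn : Nondeg Ω) (hi : SUInv Ω) : 0 < pf (Ω (et 1)) (ea 1) eb := by
  have h0 := pf_mer_ne hF hn zero_le_one le_rfl
  rw [ea_one] at h0 ⊢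
  have hI : ‖I‖ ^ 2 + ‖(0 : ℂ)‖ ^ 2 = 1 := by simp
  have h1 : ‖(0 : ℂ)‖ ^ 2 + ‖(1 : ℂ)‖ ^ 2 = 1 := by simp
  have e1 := hi I 0 hI (et 1) ![0, 1, 0] eb
  have e2 := hi I 0 hI (et 1) ![0, 1, 0] (I • eb)
  have e3 := hi 0 1 h1 (et 1) ![0, 1, 0] (I • ![0, 1, 0])
  rw [et_one] at *
  simp only [eb, rot_vec, vec_smul, map_zero, map_one, mul_zero, mul_one, zero_mul, one_mul,
    sub_zero, add_zero, zero_add, Complex.conj_I] at *
  have e4 : (![0, 0, -I] : V) = -![0, 0, I] := by rw [vec_neg]; simp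
  have e5 : (![0, 0, -I * I] : V) = ![0, 0, 1] := by simp
  rw [e4, map_neg] at e1
  rw [e5] at e2
  unfold pf at h0 ⊢
  simp only [vec_smul, mul_zero, mul_one] at h0 ⊢
  rw [← e1, ← e2, e3] at h0 ⊢
  refine lt_of_le_of_ne ?_ h0.symm
  nlinarith [sq_nonneg (Ω ![1, 0, 0] ![0, 1, 0] ![0, I, 0]),
    sq_nonneg (Ω ![1, 0, 0] ![0, I, 0] ![0, 0, I]), sq_nonneg (Ω ![1, 0, 0] ![0, I, 0] ![0, 0, 1])]

include hF in
/-- the Pfaffian is positive on the meridian -/
theorem pf_mer_pos (hn : Nondeg Ω) (hi : SUInv Ω) {t : ℝ} (ht : 0 ≤ t) (ht1 : t ≤ 1) :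
    0 < pf (Ω (et t)) (ea t) eb := by
  by_contra hc
  rw [not_lt] at hc
  obtain ⟨y, hy, hy'⟩ := isPreconnected_Icc.intermediate_value₂ (a := t) (b := 1)
    (s := Set.Icc (0 : ℝ) 1) ⟨ht, ht1⟩ ⟨zero_le_one, le_rfl⟩
    (f := fun t => pf (Ω (et t)) (ea t) eb) (g := fun _ => 0) (cont_pf_mer hF)
    continuousOn_const hc (pf_mer_one hF hn hi).le
  exact pf_mer_ne hF hn hy.1 hy.2 hy'

theorem rot_smul (α β c : ℂ) (z : V) : rot α β (c • z) = c • rot α β z := by
  funext i
  fin_cases i <;> simp [rot] <;> ring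

include hF in
/-- the mixed terms vanish at the line `z₀ = 0` -/
theorem mer_zero (hi : SUInv Ω) : Ω (et 0) (ea 0) eb = 0 ∧ Ω (et 0) (I • ea 0) (I • eb) = 0 ∧
    Ω (et 0) (ea 0) (I • eb) = 0 ∧ Ω (et 0) (I • ea 0) eb = 0 := by
  have hI : ‖I‖ ^ 2 + ‖(0 : ℂ)‖ ^ 2 = 1 := by simp
  have hz := et_ne le_rfl (zero_le_one (α := ℝ))
  have e0 : rot I 0 (et 0) = I • et 0 := by
    rw [et_zero, rot_vec, vec_smul]
    simp
  have key : ∀ v w, Ω (et 0) v w = Ω (et 0) (-I • rot I 0 v) (-I • rot I 0 w) := by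
    intro v w
    rw [← hi I 0 hI (et 0) v w, e0, ← hF.inv (et 0) hz I Complex.I_ne_zero, smul_smul, smul_smul]
    simp
  have e1 : rot I 0 (ea 0) = ea 0 := by
    rw [ea_zero, rot_vec]
    simp
  have e2 : -I • rot I 0 eb = -eb := by
    rw [eb, rot_vec, vec_smul, vec_neg]
    simp
  have e3 : -I • rot I 0 (ea 0) = -(I • ea 0) := by rw [e1, neg_smul]
  have e4 : -I • rot I 0 (I • ea 0) = ea 0 := by
    rw [rot_smul, e1, smul_smul]
    simp
  have e5 : -I • rot I 0 (I • eb) = -(I • eb) := by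
    rw [rot_smul, smul_comm, e2, smul_neg]
  have h1 := key (ea 0) eb
  have h2 := key (I • ea 0) (I • eb)
  have h3 := key (ea 0) (I • eb)
  have h4 := key (I • ea 0) eb
  rw [e2, e3] at h1
  rw [e4, e5] at h2
  rw [e3, e5] at h3
  rw [e4, e2] at h4
  simp only [map_neg, neg_apply, neg_neg] at h1 h2 h3 h4
  refine ⟨by linarith, by linarith, by linarith, by linarith⟩

include hF in
theorem q_pos (hi : SUInv Ω) (hc : InClass Ω) : 0 < Ω (et 0) eb (I • eb) := by
  obtain ⟨p, hp'⟩ := exists_pos hF hc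
  obtain ⟨k, hk⟩ : ∃ k, k = Complex.exp (p.2 * I) := ⟨_, rfl⟩
  have hk0 : k ≠ 0 := by rw [hk]; exact Complex.exp_ne_zero _
  have hkk : k * conj k = 1 := by
    rw [hk, ← Complex.exp_conj, ← Complex.exp_add]
    simp
  have h1 : ‖((Real.cos p.1 : ℝ) : ℂ)‖ ^ 2 + ‖((Real.sin p.1 : ℝ) : ℂ) * k‖ ^ 2 = 1 := by
    rw [norm_mul, hk, Complex.norm_exp_ofReal_mul_I, mul_one, Complex.norm_real,
      Complex.norm_real, Real.norm_eq_abs, Real.norm_eq_abs, sq_abs, sq_abs]
    exact Real.cos_sq_add_sin_sq p.1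
  have e1 : zz p = rot ((Real.cos p.1 : ℝ) : ℂ) (((Real.sin p.1 : ℝ) : ℂ) * k) (et 0) := by
    rw [et_zero, rot_vec, zz, hk]
    simp
  have hs : conj (Complex.sin (p.1 : ℂ)) = Complex.sin (p.1 : ℂ) := by
    rw [← Complex.ofReal_sin, Complex.conj_ofReal]
  have hcs : conj (Complex.cos (p.1 : ℂ)) = Complex.cos (p.1 : ℂ) := by
    rw [← Complex.ofReal_cos, Complex.conj_ofReal]
  have e2 : zs p = rot ((Real.cos p.1 : ℝ) : ℂ) (((Real.sin p.1 : ℝ) : ℂ) * k) (k • eb) := by
    rw [rot_smul, eb, rot_vec, vec_smul, zs, ← hk]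
    funext i
    fin_cases i
    · simp
    · simp
      rw [hs]
      linear_combination (-(Complex.sin (p.1 : ℂ))) * hkk
    · simp
      rw [hcs]
      ring
  rw [e2, ← rot_smul, e1, hi _ _ h1] at hp'
  have h2 := bil_frame (hF.alt (et 0)) eb eb k 0 (I * k) 0
  have h3 : k • eb + (0 : ℂ) • eb = k • eb := by rw [zero_smul, add_zero]
  have h4 : (I * k) • eb + (0 : ℂ) • eb = I • k • eb := by rw [zero_smul, add_zero, smul_smul]
  rw [h3, h4] at h2
  rw [h2] at hp'
  simp at hp'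
  have h5 := Complex.normSq_pos.2 hk0
  rw [Complex.normSq_apply] at h5
  exact (mul_pos_iff_of_pos_right h5).1 hp'

end

end Pool.Agent.K6.H10.SU
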