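import Pool.Agent.K6.H10.SU.Inc2

/-!
# Invariant symplectic forms tame an invariant structure, third part
-/

set_option autoImplicit false

open scoped ContDiff Topology ComplexConjugate

noncomputable section

namespace Pool.Agent.K6.H10.SU

open Pool.Agent.K6.H10.SY
open Complex (I normSq)

/-- every point is equivalent to a point of the meridian -/
theorem exists_rot {z : V} (hz : z ≠ 0) : ∃ (α β c : ℂ) (t : ℝ), ‖α‖ ^ 2 + ‖β‖ ^ 2 = 1 ∧
    c ≠ 0 ∧ 0 ≤ t ∧ t ≤ 1 ∧ z = c • rot α β (et t) := by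
  by_cases h12 : z 1 = 0 ∧ z 2 = 0
  · have h0 : z 0 ≠ 0 := by
      intro h0
      apply hz
      funext i
      fin_cases i
      · exact h0
      · exact h12.1
      · exact h12.2
    refine ⟨1, 0, z 0, 1, by simp, h0, zero_le_one, le_rfl, ?_⟩
    rw [et_one, rot_vec, vec_smul]
    funext i
    fin_cases i
    · simp
    · simpa using h12.1
    · simpa using h12.2
  · obtain ⟨κ, hκ, hκ0⟩ : ∃ κ : ℂ, ‖κ‖ = 1 ∧ z 0 = κ * (‖z 0‖ : ℝ) := by
      by_cases h0 : z 0 = 0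
      · exact ⟨1, by simp, by simp [h0]⟩
      · refine ⟨z 0 / (‖z 0‖ : ℝ), ?_, ?_⟩
        · rw [norm_div, Complex.norm_real, norm_norm, div_self (norm_ne_zero_iff.2 h0)]
        · rw [div_mul_cancel₀]
          exact_mod_cast norm_ne_zero_iff.2 h0
    have hm : 0 < ‖z 1‖ ^ 2 + ‖z 2‖ ^ 2 := by
      rcases not_and_or.1 h12 with h | h
      · have := norm_pos_iff.2 h
        positivity
      · have := norm_pos_iff.2 h
        positivity
    obtain ⟨m, hm0⟩ : ∃ m, m = √(‖z 1‖ ^ 2 + ‖z 2‖ ^ 2) := ⟨_, rfl⟩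
    have hmp : 0 < m := by rw [hm0]; exact Real.sqrt_pos.2 hm
    have hm2 : m ^ 2 = ‖z 1‖ ^ 2 + ‖z 2‖ ^ 2 := by rw [hm0]; exact Real.sq_sqrt hm.le
    have hn := nsq_pos hz
    obtain ⟨n, hn0⟩ : ∃ n, n = √(nsq z) := ⟨_, rfl⟩
    have hnp : 0 < n := by rw [hn0]; exact Real.sqrt_pos.2 hn
    have hn2 : n ^ 2 = nsq z := by rw [hn0]; exact Real.sq_sqrt hn.le
    have hnm : n ^ 2 = ‖z 0‖ ^ 2 + m ^ 2 := by rw [hn2, hm2, nsq_eq]; ring
    have hκn : κ ≠ 0 := norm_ne_zero_iff.1 (by rw [hκ]; exact one_ne_zero)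
    have hmc : (m : ℂ) ≠ 0 := by exact_mod_cast hmp.ne'
    have hnc : (n : ℂ) ≠ 0 := by exact_mod_cast hnp.ne'
    have e1 : √((‖z 0‖ / n) ^ 2) = ‖z 0‖ / n := Real.sqrt_sq (by positivity)
    have e2 : 1 - (‖z 0‖ / n) ^ 2 = (m / n) ^ 2 := by
      rw [div_pow, div_pow, eq_div_iff (by positivity), sub_mul, div_mul_cancel₀ _ (by positivity)]
      linarith
    have e3 : √(1 - (‖z 0‖ / n) ^ 2) = m / n := by rw [e2]; exact Real.sqrt_sq (by positivity)
    refine ⟨z 1 / (κ * m), z 2 / (κ * m), κ * n, (‖z 0‖ / n) ^ 2, ?_, mul_ne_zero hκn hnc,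
      sq_nonneg _, ?_, ?_⟩
    · rw [norm_div, norm_div, norm_mul, hκ, one_mul, Complex.norm_real, Real.norm_eq_abs,
        div_pow, div_pow, sq_abs, ← add_div, ← hm2, div_self (by positivity)]
    · have : 0 ≤ (m / n) ^ 2 := sq_nonneg _
      linarith
    · rw [et, rot_vec, vec_smul, e1, e3]
      funext i
      fin_cases i
      · simp
        rw [hκ0]
        simp [hκ]
        field_simp
      · simp
        field_simp
      · simp
        field_simp

theorem rot_inv {α β : ℂ} (h : ‖α‖ ^ 2 + ‖β‖ ^ 2 = 1) (w : V) :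
    rot α β (rot (conj α) (-β) w) = w := by
  have h1 := unit_eq h
  funext i
  fin_cases i
  · rfl
  · simp [rot]
    linear_combination (w 1) * h1
  · simp [rot]
    linear_combination (w 2) * h1

/-- the positivity on the meridian is enough -/
theorem tameF_of_mer {Ω : V → Bil} (hF : IsForm Ω) (hi : SUInv Ω) {p : Par}
    (hp' : ∀ t : ℝ, 0 ≤ t → t ≤ 1 → ∀ x y : ℂ, (x ≠ 0 ∨ y ≠ 0) →
      0 < Ω (et t) (x • ea t + y • eb) (J p (et t) (x • ea t + y • eb))) : TameF Ω p := by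
  refine tameF_of_hor hF fun z hz v hv h0 => ?_
  obtain ⟨α, β, c, t, h1, hc, ht, ht1, rfl⟩ := exists_rot hz
  have hz1 : rot α β (et t) ≠ 0 := rot_ne h1 (et_ne ht ht1)
  obtain ⟨u, hu⟩ : ∃ u, v = c • rot α β u := ⟨rot (conj α) (-β) (c⁻¹ • v), by
    rw [rot_inv h1, smul_smul, mul_inv_cancel₀ hc, one_smul]⟩
  subst hu
  have hu0 : u ≠ 0 := by
    rintro rfl
    apply hv
    rw [rot_zero, smul_zero]
  rw [hp_scale, hp_rot h1] at h0
  have hc2 : ((‖c‖ ^ 2 : ℝ) : ℂ) ≠ 0 := by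
    have := norm_pos_iff.2 hc
    exact_mod_cast (by positivity : ‖c‖ ^ 2 ≠ 0)
  have h2 : hp (et t) u = 0 := (mul_eq_zero.1 h0).resolve_left hc2
  rw [J_smul hc p hz1, hF.inv _ hz1 c hc, J_rot h1, hi α β h1]
  have h3 := decomp_et ht ht1 u
  rw [h2, zero_smul, zero_add] at h3
  have h4 : hp (ea t) u ≠ 0 ∨ u 2 ≠ 0 := by
    by_contra hc'
    rw [not_or, not_not, not_not] at hc'
    rw [hc'.1, hc'.2, zero_smul, zero_smul, zero_add] at h3
    exact hu0 h3
  have h5 := hp' t ht ht1 _ _ h4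
  rw [← h3] at h5
  exact h5

end Pool.Agent.K6.H10.SU
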