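import Pool.Agent.K6.H10.SU.Inc3

/-!
# Invariant symplectic forms tame an invariant structure, last part
-/

set_option autoImplicit false

open scoped ContDiff Topology ComplexConjugate

noncomputable section

namespace Pool.Agent.K6.H10.SU

open Pool.Agent.K6.H10.SY
open Complex (I normSq)

theorem JJ_mix (χ a : ℝ) (b : ℂ) (z v : V) :
    JJ (χ + (1 - χ) * a) (((1 - χ : ℝ) : ℂ) * b) z v =
      χ • JJ 1 0 z v + (1 - χ) • JJ a b z v := by
  unfold JJ
  funext i
  simp only [Pi.add_apply, Pi.smul_apply, smul_eq_mul, Complex.real_smul]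
  push_cast
  ring

/-- the cut off function -/
def cut (ε t : ℝ) : ℝ := max 0 (min 1 (2 - 3 * t / ε))

theorem cut_cont (ε : ℝ) : Continuous (cut ε) := by
  unfold cut
  exact continuous_const.max (continuous_const.min (continuous_const.sub
    ((continuous_const.mul continuous_id).div_const ε)))

theorem cut_nonneg (ε t : ℝ) : 0 ≤ cut ε t := le_max_left _ _

theorem cut_le (ε t : ℝ) : cut ε t ≤ 1 := max_le zero_le_one (min_le_left _ _)

theorem cut_one {ε t : ℝ} (hε : 0 < ε) (h : t ≤ ε / 3) : cut ε t = 1 := by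
  unfold cut
  have h1 : 3 * t / ε ≤ 1 := by
    rw [div_le_one hε]
    linarith
  rw [min_eq_left (by linarith), max_eq_right zero_le_one]

theorem cut_zero {ε t : ℝ} (hε : 0 < ε) (h : ε ≤ t) : cut ε t = 0 := by
  unfold cut
  have h1 : 3 ≤ 3 * t / ε := by
    rw [le_div_iff₀ hε]
    linarith
  exact max_eq_left ((min_le_right _ _).trans (by linarith))

section

variable {Ω : V → Bil} (hF : IsForm Ω)

include hF in
theorem ra_cont : ContinuousOn (ra Ω) (Set.Icc 0 1) := by
  unfold ra
  exact ((cont_mer hF cont_ea (cont_I cont_ea)).add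
    (cont_mer hF continuous_const continuous_const)).div_const 2

include hF in
theorem cb_cont : ContinuousOn (cb Ω) (Set.Icc 0 1) := by
  have h1 : ContinuousOn (fun t => (Ω (et t) (ea t) eb - Ω (et t) (I • ea t) (I • eb)) / 2)
      (Set.Icc 0 1) :=
    ((cont_mer hF cont_ea continuous_const).sub
      (cont_mer hF (cont_I cont_ea) continuous_const)).div_const 2
  have h2 : ContinuousOn (fun t => (Ω (et t) (ea t) (I • eb) + Ω (et t) (I • ea t) eb) / 2)
      (Set.Icc 0 1) :=
    ((cont_mer hF cont_ea continuous_const).add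
      (cont_mer hF (cont_I cont_ea) continuous_const)).div_const 2
  have h3 : cb Ω = fun t => (((Ω (et t) (ea t) eb - Ω (et t) (I • ea t) (I • eb)) / 2 : ℝ) : ℂ) +
      (((Ω (et t) (ea t) (I • eb) + Ω (et t) (I • ea t) eb) / 2 : ℝ) : ℂ) * I := by
    funext t
    exact Complex.mk_eq_add_mul_I _ _
  rw [h3]
  exact (Complex.continuous_ofReal.comp_continuousOn h1).add
    ((Complex.continuous_ofReal.comp_continuousOn h2).mul continuousOn_const)

/-- the parameter -/
def par (hF : IsForm Ω) {ε : ℝ} (hε : 0 < ε) : Par :=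
  (⟨fun t => cut ε t + (1 - cut ε t) * ra Ω t, by
    have h1 : Continuous fun t : unitInterval => cut ε t :=
      (cut_cont ε).comp continuous_subtype_val
    have h2 : Continuous fun t : unitInterval => ra Ω t :=
      (ra_cont hF).comp_continuous continuous_subtype_val fun t => t.2
    exact h1.add ((continuous_const.sub h1).mul h2)⟩,
   ⟨fun t => ((1 - cut ε t : ℝ) : ℂ) * (cb Ω t / ((√(max (t : ℝ) (ε / 3)) : ℝ) : ℂ) ^ 3), by
    have h1 : Continuous fun t : unitInterval => cut ε t :=
      (cut_cont ε).comp continuous_subtype_val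
    have h2 : Continuous fun t : unitInterval => cb Ω t :=
      (cb_cont hF).comp_continuous continuous_subtype_val fun t => t.2
    have h3 : Continuous fun t : unitInterval => ((√(max (t : ℝ) (ε / 3)) : ℝ) : ℂ) ^ 3 :=
      (Complex.continuous_ofReal.comp (Real.continuous_sqrt.comp
        (continuous_subtype_val.max continuous_const))).pow 3
    refine (Complex.continuous_ofReal.comp (continuous_const.sub h1)).mul (h2.div h3 fun t => ?_)
    have h4 : 0 < √(max (t : ℝ) (ε / 3)) := Real.sqrt_pos.2 (lt_max_of_lt_right (by positivity))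
    exact pow_ne_zero 3 (by exact_mod_cast h4.ne')⟩)

include hF in
/-- every invariant symplectic form in the class tames an invariant structure -/
theorem exists_par (hn : Nondeg Ω) (hc : InClass Ω) (hi : SUInv Ω) :
    ∃ p : Par, 0 < p.1 0 ∧ TameF Ω p := by
  have c1 : ContinuousOn (fun t => Ω (et t) (ea t) (I • ea t)) (Set.Icc 0 1) :=
    cont_mer hF cont_ea (cont_I cont_ea)
  have c2 : ContinuousOn (fun t => 4 * (Ω (et t) (ea t) (I • ea t) * Ω (et t) eb (I • eb)) -
      ((Ω (et t) (ea t) eb + Ω (et t) (I • ea t) (I • eb)) ^ 2 +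
      (Ω (et t) (ea t) (I • eb) - Ω (et t) (I • ea t) eb) ^ 2)) (Set.Icc 0 1) := by
    have hb : Continuous fun _ : ℝ => eb := continuous_const
    have c3 := cont_mer hF hb (cont_I hb)
    have c4 := cont_mer hF cont_ea hb
    have c5 := cont_mer hF (cont_I cont_ea) (cont_I hb)
    have c6 := cont_mer hF cont_ea (cont_I hb)
    have c7 := cont_mer hF (cont_I cont_ea) hb
    exact (continuousOn_const.mul (c1.mul c3)).sub (((c4.add c5).pow 2).add ((c6.sub c7).pow 2))
  obtain ⟨z1, z2, z3, z4⟩ := mer_zero hF hi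
  have q := q_pos hF hi hc
  have h0 := pf_mer_pos hF hn hi le_rfl zero_le_one
  unfold pf at h0
  rw [z1, z2, z3, z4] at h0
  have h0' : 0 < Ω (et 0) (ea 0) (I • ea 0) * Ω (et 0) eb (I • eb) := by linarith
  have P0 := (mul_pos_iff_of_pos_right q).1 h0'
  have m0 : (0 : ℝ) ∈ Set.Icc (0 : ℝ) 1 := ⟨le_rfl, zero_le_one⟩
  have n1 := (c1 0 m0).eventually_const_lt P0
  have n2 := (c2 0 m0).eventually_const_lt (u := 0) (by
    show 0 < 4 * (Ω (et 0) (ea 0) (I • ea 0) * Ω (et 0) eb (I • eb)) -
      ((Ω (et 0) (ea 0) eb + Ω (et 0) (I • ea 0) (I • eb)) ^ 2 +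
      (Ω (et 0) (ea 0) (I • eb) - Ω (et 0) (I • ea 0) eb) ^ 2)
    rw [z1, z2, z3, z4]
    linarith)
  obtain ⟨ε, hε, hball⟩ := Metric.eventually_nhds_iff.1
    (eventually_nhdsWithin_iff.1 (n1.and n2))
  have near : ∀ t : ℝ, 0 ≤ t → t ≤ 1 → t < ε → ∀ x y : ℂ, (x ≠ 0 ∨ y ≠ 0) →
      0 < Ω (et t) (x • ea t + y • eb) (JJ 1 0 (et t) (x • ea t + y • eb)) := by
    intro t ht ht1 htε x y hxy
    have h1 := hball (y := t) (by rw [Real.dist_eq, sub_zero, abs_of_nonneg ht]; exact htε)
      ⟨ht, ht1⟩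
    exact tame_i ht ht1 hF h1.1 (by linarith [h1.2]) hxy
  refine ⟨par hF hε, ?_, tameF_of_mer hF hi fun t ht ht1 x y hxy => ?_⟩
  · show 0 < cut ε ((0 : unitInterval) : ℝ) + (1 - cut ε ((0 : unitInterval) : ℝ)) * ra Ω _
    have : cut ε ((0 : unitInterval) : ℝ) = 1 := cut_one hε (by
      show (0 : ℝ) ≤ ε / 3
      positivity)
    rw [this]
    norm_num
  · have hJ : J (par hF hε) (et t) (x • ea t + y • eb) =
        JJ (cut ε t + (1 - cut ε t) * ra Ω t)
          (((1 - cut ε t : ℝ) : ℂ) * (cb Ω t / ((√(max t (ε / 3)) : ℝ) : ℂ) ^ 3))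
          (et t) (x • ea t + y • eb) := by
      unfold J
      have h1 : tI (et t) = ⟨t, ht, ht1⟩ := Subtype.ext (TT_et ht ht1)
      rw [h1]
      rfl
    rw [hJ, JJ_mix]
    by_cases h3 : t ≤ ε / 3
    · rw [cut_one hε h3, sub_self, zero_smul, add_zero, one_smul]
      exact near t ht ht1 (by linarith) x y hxy
    · rw [not_le] at h3
      have h4 : max t (ε / 3) = t := max_eq_left h3.le
      have ht0 : 0 < t := lt_trans (by positivity) h3
      have h5 : ((√t : ℝ) : ℂ) ^ 3 ≠ 0 := by
        have := Real.sqrt_pos.2 ht0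
        exact pow_ne_zero 3 (by exact_mod_cast this.ne')
      rw [h4]
      have h6 := tame_plus ht ht1 hF (pf_mer_pos hF hn hi ht ht1) hxy
        (b := cb Ω t / ((√t : ℝ) : ℂ) ^ 3) (div_mul_cancel₀ _ h5)
      by_cases h7 : t < ε
      · have h8 := near t ht ht1 h7 x y hxy
        rw [map_add, map_smul, map_smul, smul_eq_mul, smul_eq_mul]
        exact pos_comb h8 h6 (cut_nonneg ε t) (by linarith [cut_le ε t]) (by ring)
      · rw [cut_zero hε (not_lt.1 h7), zero_smul, zero_add, sub_zero, one_smul]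
        exact h6

end

end Pool.Agent.K6.H10.SU
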