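import Pool.Agent.K6.H10.SU.Def

/-!
# Some one-forms on the projective plane with `SU(2)`-symmetry
-/

set_option autoImplicit false

open scoped ContDiff Topology ComplexConjugate

noncomputable section

namespace Pool.Agent.K6.H10.SU

open Pool.Agent.K6.H10.SY
open Complex (I)

/-- the linear form `v ↦ Re (∑ uᵢ vᵢ)` -/
def reL : V →L[ℝ] Lin := LinearMap.toContinuousLinearMap
  { toFun := fun u => LinearMap.toContinuousLinearMap
      { toFun := fun v => (∑ i, u i * v i).re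
        map_add' := fun v w => by
          simp only [Pi.add_apply, mul_add, Finset.sum_add_distrib, Complex.add_re]
        map_smul' := fun c v => by
          simp only [Pi.smul_apply, Complex.real_smul, RingHom.id_apply, smul_eq_mul]
          rw [← Complex.re_ofReal_mul, Finset.mul_sum]
          congr 1
          exact Finset.sum_congr rfl fun i _ => by ring }
    map_add' := fun u u' => by
      ext v
      show (∑ i, (u + u') i * v i).re = (∑ i, u i * v i).re + (∑ i, u' i * v i).re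
      simp only [Pi.add_apply, add_mul, Finset.sum_add_distrib, Complex.add_re]
    map_smul' := fun c u => by
      ext v
      show (∑ i, (c • u) i * v i).re = c * (∑ i, u i * v i).re
      simp only [Pi.smul_apply, Complex.real_smul]
      rw [← Complex.re_ofReal_mul, Finset.mul_sum]
      congr 1
      exact Finset.sum_congr rfl fun i _ => by ring }

theorem reL_apply (u v : V) : reL u v = (∑ i, u i * v i).re := rfl

/-- the vector `(0, - z₂, z₁)` -/
def cc (z : V) : V := ![0, -z 2, z 1]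

/-- `z₁ v₂ - z₂ v₁` -/
def th (z v : V) : ℂ := z 1 * v 2 - z 2 * v 1

/-- the first unit vector times a number -/
def dl (x : ℂ) : V := ![x, 0, 0]

/-- the coefficients of the one-form -/
def UU (k : ℝ → ℝ) (m : ℝ → ℂ) (z : V) (i : Fin 3) : ℂ :=
  -2 * I * (k (TT z) : ℂ) * ((TT z : ℂ) * conj (z i) - dl (conj (z 0)) i) / (nsq z : ℂ) +
    m (TT z) * conj (z 0) ^ 2 / (nsq z : ℂ) ^ 2 * cc z i

/-- the one-form -/
def al (k : ℝ → ℝ) (m : ℝ → ℂ) (z : V) : Lin := reL (UU k m z)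

theorem al_apply (k : ℝ → ℝ) (m : ℝ → ℂ) (z v : V) : al k m z v =
    (-2 * I * (k (TT z) : ℂ) * ((TT z : ℂ) * hp z v - conj (z 0) * v 0) / (nsq z : ℂ) +
      m (TT z) * conj (z 0) ^ 2 / (nsq z : ℂ) ^ 2 * th z v).re := by
  unfold al
  rw [reL_apply]
  congr 1
  rw [Fin.sum_univ_three, hp_eq, th]
  simp only [UU, cc, dl, Matrix.cons_val_zero, Matrix.cons_val_one, Matrix.cons_val]
  ring

theorem TT_nsq {z : V} (hz : z ≠ 0) : (TT z : ℂ) * (nsq z : ℂ) = z 0 * conj (z 0) := by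
  have h := (nsq_pos hz).ne'
  rw [Complex.mul_conj, Complex.normSq_eq_norm_sq, ← Complex.ofReal_mul]
  unfold TT
  rw [div_mul_cancel₀ _ h]

theorem conj_smooth (i : Fin 3) : ContDiff ℝ ∞ fun z : V => conj (z i) :=
  Complex.conjCLE.contDiff.comp (contDiff_apply ℝ ℂ i)

theorem TT_smooth : ContDiffOn ℝ ∞ TT V' := by
  unfold TT
  refine ContDiffOn.div ?_ nsq_smooth.contDiffOn fun z hz => (nsq_pos hz).ne'
  exact ((contDiff_apply ℝ ℂ (0 : Fin 3)).norm_sq ℝ).contDiffOn

theorem UU_smooth {k : ℝ → ℝ} {m : ℝ → ℂ} (hk : ContDiff ℝ ∞ k) (hm : ContDiff ℝ ∞ m) :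
    ContDiffOn ℝ ∞ (UU k m) V' := by
  have hn : ContDiffOn ℝ ∞ (fun z : V => (nsq z : ℂ)) V' :=
    (Complex.ofRealCLM.contDiff.comp nsq_smooth).contDiffOn
  have hn0 : ∀ z ∈ V', (nsq z : ℂ) ≠ 0 := fun z hz => by exact_mod_cast (nsq_pos hz).ne'
  have hT : ContDiffOn ℝ ∞ (fun z : V => (TT z : ℂ)) V' :=
    Complex.ofRealCLM.contDiff.comp_contDiffOn TT_smooth
  have hk' : ContDiffOn ℝ ∞ (fun z : V => (k (TT z) : ℂ)) V' :=
    Complex.ofRealCLM.contDiff.comp_contDiffOn (hk.comp_contDiffOn TT_smooth)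
  have hm' : ContDiffOn ℝ ∞ (fun z : V => m (TT z)) V' := hm.comp_contDiffOn TT_smooth
  have hc : ∀ i, ContDiffOn ℝ ∞ (fun z : V => conj (z i)) V' := fun i =>
    (conj_smooth i).contDiffOn
  have ha : ∀ i : Fin 3, ContDiffOn ℝ ∞ (fun z : V => z i) V' := fun i =>
    (contDiff_apply ℝ ℂ i).contDiffOn
  have hdl : ∀ i : Fin 3, ContDiffOn ℝ ∞ (fun z : V => dl (conj (z 0)) i) V' := by
    intro i
    fin_cases i
    · exact hc 0
    · exact contDiffOn_const
    · exact contDiffOn_const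
  have hcc : ∀ i : Fin 3, ContDiffOn ℝ ∞ (fun z : V => cc z i) V' := by
    intro i
    fin_cases i
    · exact contDiffOn_const
    · exact (ha 2).neg
    · exact ha 1
  have hn1 : ContDiffOn ℝ ∞ (fun z : V => ((nsq z : ℂ))⁻¹) V' := hn.inv hn0
  have hn2 : ContDiffOn ℝ ∞ (fun z : V => ((nsq z : ℂ) ^ 2)⁻¹) V' :=
    (hn.pow 2).inv fun z hz => pow_ne_zero 2 (hn0 z hz)
  refine contDiffOn_pi.2 fun i => ?_
  unfold UU
  simp only [div_eq_mul_inv]
  exact (((contDiffOn_const.mul hk').mul ((hT.mul (hc i)).sub (hdl i))).mul hn1).add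
    (((hm'.mul ((hc 0).pow 2)).mul hn2).mul (hcc i))

theorem al_smooth {k : ℝ → ℝ} {m : ℝ → ℂ} (hk : ContDiff ℝ ∞ k) (hm : ContDiff ℝ ∞ m) :
    ContDiffOn ℝ ∞ (al k m) V' :=
  reL.contDiff.comp_contDiffOn (UU_smooth hk hm)

theorem isOne_al {k : ℝ → ℝ} {m : ℝ → ℂ} (hk : ContDiff ℝ ∞ k) (hm : ContDiff ℝ ∞ m) :
    IsOne (al k m) where
  smooth := al_smooth hk hm
  inv z hz c hc v := by
    have h1 : (nsq z : ℂ) ≠ 0 := by exact_mod_cast (nsq_pos hz).ne'
    have h2 : conj c ≠ 0 := by simpa using hc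
    have h3 : ((‖c‖ ^ 2 : ℝ) : ℂ) = c * conj c := by
      rw [Complex.mul_conj, Complex.normSq_eq_norm_sq]
    rw [al_apply, al_apply, TT_smul hc, nsq_scale, hp_scale, Complex.ofReal_mul, h3]
    congr 1
    simp only [th, Pi.smul_apply, smul_eq_mul, map_mul]
    field_simp
  hor z hz c := by
    rw [al_apply, hp_smul, hp_self]
    have h1 : th z (c • z) = 0 := by
      simp only [th, Pi.smul_apply, smul_eq_mul]
      ring
    have h2 := TT_nsq hz
    have h3 : (TT z : ℂ) * (c * (nsq z : ℂ)) - conj (z 0) * (c • z) 0 = 0 := by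
      rw [Pi.smul_apply, smul_eq_mul]
      linear_combination c * h2
    rw [h1, h3]
    simp

/-- the derivative of the coefficients in a direction orthogonal to `z` -/
def DD (k k' : ℝ) (m m' : ℂ) (z v : V) (i : Fin 3) : ℂ :=
  -2 * I * (((k' * (2 * (conj (z 0) * v 0).re) : ℝ) : ℂ) *
      ((TT z : ℂ) * conj (z i) - dl (conj (z 0)) i) +
    (k : ℂ) * (((2 * (conj (z 0) * v 0).re : ℝ) : ℂ) * conj (z i) + (TT z : ℂ) * conj (v i) -
      dl (conj (v 0)) i)) +
  ((m' * ((2 * (conj (z 0) * v 0).re : ℝ) : ℂ) * conj (z 0) ^ 2 +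
    m * (2 * conj (z 0) * conj (v 0))) * cc z i + m * conj (z 0) ^ 2 * cc v i)

theorem TT_line {z v : V} (hn : nsq z = 1) (h0 : hp z v = 0) :
    HasDerivAt (fun t : ℝ => TT (z + t • v)) (2 * (conj (z 0) * v 0).re) 0 := by
  have h1 := nsq_line z v
  rw [h0] at h1
  have h2 : HasDerivAt (fun t : ℝ => (z + t • v) 0) (v 0) 0 := by
    have h3 := (((hasDerivAt_id (0 : ℝ)).smul_const (v 0)).const_add (z 0))
    simpa using h3
  have h4 := h2.norm_sq
  simp only [zero_smul, add_zero, Complex.inner] at h4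
  have h5 := h4.div h1 (by simp [hn])
  refine h5.congr_deriv ?_
  simp only [zero_smul, add_zero, hn, Complex.zero_re, mul_zero, mul_one, sub_zero, one_pow,
    div_one]
  rw [mul_comm (conj _)]

theorem UU_line {k : ℝ → ℝ} {m : ℝ → ℂ} {k' : ℝ} {m' : ℂ} {z v : V} (hn : nsq z = 1)
    (h0 : hp z v = 0) (hk : HasDerivAt k k' (TT z)) (hm : HasDerivAt m m' (TT z)) :
    HasDerivAt (fun t : ℝ => UU k m (z + t • v)) (DD (k (TT z)) k' (m (TT z)) m' z v) 0 := by
  have hT := TT_line hn h0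
  have hTC : HasDerivAt (fun t : ℝ => (TT (z + t • v) : ℂ))
      ((2 * (conj (z 0) * v 0).re : ℝ) : ℂ) 0 := hT.ofReal_comp
  have hkT : HasDerivAt (fun t : ℝ => k (TT (z + t • v)))
      (k' * (2 * (conj (z 0) * v 0).re)) 0 := by
    have : HasDerivAt k k' (TT (z + (0 : ℝ) • v)) := by simpa using hk
    exact HasDerivAt.comp (h₂ := k) (0 : ℝ) this hT
  have hkC := hkT.ofReal_comp
  have hmT : HasDerivAt (fun t : ℝ => m (TT (z + t • v)))
      ((2 * (conj (z 0) * v 0).re) • m') 0 := by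
    have : HasDerivAt m m' (TT (z + (0 : ℝ) • v)) := by simpa using hm
    exact HasDerivAt.scomp (0 : ℝ) this hT
  have hN : HasDerivAt (fun t : ℝ => (nsq (z + t • v) : ℂ)) 0 0 := by
    have h1 := (nsq_line z v).ofReal_comp
    rw [h0] at h1
    simpa using h1
  have hz : ∀ i, HasDerivAt (fun t : ℝ => (z + t • v) i) (v i) 0 := by
    intro i
    have h3 := (((hasDerivAt_id (0 : ℝ)).smul_const (v i)).const_add (z i))
    simpa using h3
  have hzc : ∀ i, HasDerivAt (fun t : ℝ => conj ((z + t • v) i)) (conj (v i)) 0 := fun i =>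
    Complex.conjCLE.hasFDerivAt.comp_hasDerivAt (0 : ℝ) (hz i)
  have hdl : ∀ i : Fin 3, HasDerivAt (fun t : ℝ => dl (conj ((z + t • v) 0)) i)
      (dl (conj (v 0)) i) 0 := by
    intro i
    fin_cases i
    · exact hzc 0
    · exact hasDerivAt_const (0 : ℝ) (0 : ℂ)
    · exact hasDerivAt_const (0 : ℝ) (0 : ℂ)
  have hcc : ∀ i : Fin 3, HasDerivAt (fun t : ℝ => cc (z + t • v) i) (cc v i) 0 := by
    intro i
    fin_cases i
    · exact hasDerivAt_const (0 : ℝ) (0 : ℂ)
    · exact (hz 2).neg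
    · exact hz 1
  rw [hasDerivAt_pi]
  intro i
  unfold UU
  have hN0 : (nsq (z + (0 : ℝ) • v) : ℂ) ≠ 0 := by simp [hn]
  have h1 := ((hkC.const_mul (-2 * I)).mul ((hTC.mul (hzc i)).sub (hdl i))).div hN hN0
  have h2 := ((hmT.mul ((hzc 0).pow 2)).div (hN.pow 2) (pow_ne_zero 2 hN0)).mul (hcc i)
  refine (h1.add h2).congr_deriv ?_
  simp only [Pi.mul_apply, Pi.sub_apply, Pi.div_apply, Pi.pow_apply, zero_smul, add_zero, hn, DD,
    Complex.ofReal_one, mul_zero, sub_zero, one_pow, div_one, mul_one, Complex.real_smul]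
  push_cast
  ring

theorem fderiv_al {k : ℝ → ℝ} {m : ℝ → ℂ} (hk : ContDiff ℝ ∞ k) (hm : ContDiff ℝ ∞ m)
    {z v : V} (hn : nsq z = 1) (h0 : hp z v = 0) :
    fderiv ℝ (al k m) z v = reL (DD (k (TT z)) (deriv k (TT z)) (m (TT z)) (deriv m (TT z)) z v) := by
  have hz : z ≠ 0 := by
    rintro rfl
    rw [nsq_eq] at hn
    simp at hn
  have h1 := line (diffAt (al_smooth hk hm) hz).hasFDerivAt v
  have h2 := UU_line hn h0 ((hk.differentiable (by simp)).differentiableAt.hasDerivAt)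
    ((hm.differentiable (by simp)).differentiableAt.hasDerivAt)
  have h3 : HasDerivAt (fun t : ℝ => reL (UU k m (z + t • v)))
      (reL (DD (k (TT z)) (deriv k (TT z)) (m (TT z)) (deriv m (TT z)) z v)) 0 :=
    reL.hasFDerivAt.comp_hasDerivAt (0 : ℝ) h2
  exact h1.unique h3

end Pool.Agent.K6.H10.SU
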