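import Pool.Agent.K6.H10.SU.One
import Pool.Agent.K6.H10.SU.Alg

/-!
# The values of the forms on `(v, J v)`
-/

set_option autoImplicit false

open scoped ContDiff Topology ComplexConjugate

noncomputable section

namespace Pool.Agent.K6.H10.SU

open Pool.Agent.K6.H10.SY
open Complex (I normSq)

theorem ne_zero_of_nsq {z : V} (hn : nsq z = 1) : z ≠ 0 := by
  rintro rfl
  rw [nsq_eq] at hn
  simp at hn

theorem fs_hor {z v : V} (hn : nsq z = 1) (h0 : hp z v = 0) (w : V) :
    fs z v w = 4 * (hp v w).im := by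
  have hz := ne_zero_of_nsq hn
  rw [fs, if_neg hz, log_zero, ext_formula sec_zero one_pos hz, Phi_zero, hn]
  have h1 : herm 1 s00 1 z v w = hp v w := by
    have hd : ∀ (j : Fin 2) (u : V), ds s00 j z u = 0 := by
      intro j u
      unfold ds s00
      simp
    unfold herm qq hh
    rw [Phi_zero, hn, h0]
    simp [hd]
  rw [h1]
  ring

theorem DD_sum (k k' : ℝ) (m m' : ℂ) (z v w : V) : ∑ i, DD k k' m m' z v i * w i =
    -2 * I * (((k' * (2 * (conj (z 0) * v 0).re) : ℝ) : ℂ) *
      ((TT z : ℂ) * hp z w - conj (z 0) * w 0) +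
    (k : ℂ) * (((2 * (conj (z 0) * v 0).re : ℝ) : ℂ) * hp z w + (TT z : ℂ) * hp v w -
      conj (v 0) * w 0)) +
    (m' * ((2 * (conj (z 0) * v 0).re : ℝ) : ℂ) * conj (z 0) ^ 2 +
      m * (2 * conj (z 0) * conj (v 0))) * th z w + m * conj (z 0) ^ 2 * th v w := by
  rw [Fin.sum_univ_three, hp_eq, hp_eq, th, th]
  simp only [DD, cc, dl, Matrix.cons_val_zero, Matrix.cons_val_one, Matrix.cons_val]
  ring

section

variable {z v : V} (hn : nsq z = 1) (h0 : hp z v = 0)

include hn in
theorem TT_one : TT z = normSq (z 0) := by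
  unfold TT
  rw [hn, div_one, Complex.normSq_eq_norm_sq]

include hn in
theorem JJ_one (a : ℝ) (b : ℂ) (i : Fin 3) :
    JJ a b z v i = a * I * v i + b * z 0 ^ 3 * crs z v i := by
  unfold JJ
  rw [hn]
  simp only [Pi.add_apply, Pi.smul_apply, smul_eq_mul, Complex.ofReal_one, one_pow, div_one]
  ring

include hn in
theorem sum_one : z 0 * conj (z 0) + z 1 * conj (z 1) + z 2 * conj (z 2) = 1 := by
  have h := hp_self z
  rw [hn, hp_eq] at h
  rw [Complex.ofReal_one] at h
  linear_combination h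

theorem sum_v (v : V) : v 0 * conj (v 0) + v 1 * conj (v 1) + v 2 * conj (v 2) = nsq v := by
  have h := hp_self v
  rw [hp_eq] at h
  linear_combination h

include h0 in
theorem sum_conj : z 0 * conj (v 0) + z 1 * conj (v 1) + z 2 * conj (v 2) = 0 := by
  have h := hp_conj z v
  rw [h0, map_zero, hp_eq] at h
  linear_combination h

include hn h0 in
theorem f1 (a : ℝ) (b : ℂ) : hp z (JJ a b z v) = 0 := by
  rw [hp_eq] at h0 ⊢
  rw [JJ_one hn, JJ_one hn, JJ_one hn]
  simp only [crs, Matrix.cons_val_zero, Matrix.cons_val_one, Matrix.cons_val, map_sub, map_mul]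
  linear_combination (a * I) * h0

include hn in
theorem f2 (a : ℝ) (b : ℂ) : hp v (JJ a b z v) = a * I * nsq v := by
  rw [hp_eq, JJ_one hn, JJ_one hn, JJ_one hn]
  simp only [crs, Matrix.cons_val_zero, Matrix.cons_val_one, Matrix.cons_val, map_sub, map_mul]
  linear_combination (a * I) * sum_v v

include hn in
theorem f3 (a : ℝ) (b : ℂ) : JJ a b z v 0 = a * I * v 0 + b * z 0 ^ 3 * conj (th z v) := by
  rw [JJ_one hn]
  rfl

include hn h0 in
theorem f4 (a : ℝ) (b : ℂ) :
    th z (JJ a b z v) = a * I * th z v - b * z 0 ^ 3 * conj (v 0) := by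
  have h1 := sum_one hn
  have h2 := sum_conj h0
  rw [th, JJ_one hn, JJ_one hn, th]
  simp only [crs, Matrix.cons_val_one, Matrix.cons_val, map_sub, map_mul]
  linear_combination (b * z 0 ^ 3) * (conj (z 0) * h2 - conj (v 0) * h1)

include hn h0 in
theorem f5 (a : ℝ) (b : ℂ) : th v (JJ a b z v) = b * z 0 ^ 3 * conj (z 0) * nsq v := by
  have h2 := sum_v v
  rw [hp_eq] at h0
  rw [th, JJ_one hn, JJ_one hn]
  simp only [crs, Matrix.cons_val_one, Matrix.cons_val, map_sub, map_mul]
  linear_combination (b * z 0 ^ 3) * (conj (z 0) * h2 - conj (v 0) * h0)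

theorem th_anti (v w : V) : th w v = -th v w := by
  unfold th
  ring

include hn h0 in
/-- the values on `(v, J v)` -/
theorem quad_formula {k : ℝ → ℝ} {m : ℝ → ℂ} (hk : ContDiff ℝ ∞ k) (hm : ContDiff ℝ ∞ m)
    {a a' ρ E : ℝ} {b b' : ℂ} (h1 : 1 + TT z * k (TT z) = ρ * a)
    (h2 : k (TT z) + TT z * deriv k (TT z) = ρ * (-E * a + a'))
    (h3 : m (TT z) = 2 * ρ * conj b) (h4 : deriv m (TT z) = ρ * (-2 * E * conj b + 2 * conj b')) :
    fs z v (JJ a b z v) + ext (al k m) z v (JJ a b z v) =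
      ρ * (E * M1 a b (z 0) (v 0) (th z v) + N1 a a' b b' (z 0) (v 0) (th z v) (nsq v)) := by
  have g1 := f1 hn h0 a b
  have g2 := f2 (v := v) hn a b
  have g3 := f3 (v := v) hn a b
  have g4 := f4 hn h0 a b
  have g5 := f5 hn h0 a b
  have g6 : hp (JJ a b z v) v = -(a * I * nsq v) := by
    rw [hp_conj, g2]
    simp
  have g7 : th (JJ a b z v) v = -(b * z 0 ^ 3 * conj (z 0) * nsq v) := by
    rw [th_anti, g5]
  have e1 : ext (al k m) z v (JJ a b z v) =
      (∑ i, DD (k (TT z)) (deriv k (TT z)) (m (TT z)) (deriv m (TT z)) z v i *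
        JJ a b z v i).re -
      (∑ i, DD (k (TT z)) (deriv k (TT z)) (m (TT z)) (deriv m (TT z)) z (JJ a b z v) i *
        v i).re := by
    show (fderiv ℝ (al k m) z v) (JJ a b z v) - (fderiv ℝ (al k m) z (JJ a b z v)) v = _
    rw [fderiv_al hk hm hn h0, fderiv_al hk hm hn g1, reL_apply, reL_apply]
  have e2 : fs z v (JJ a b z v) = 4 * a * nsq v := by
    rw [fs_hor hn h0, g2]
    simp
    ring
  have hT := TT_one hn
  rw [e1, e2, DD_sum, DD_sum, g1, g2, g3, g4, g5, g6, g7, h0, hT]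
  rw [hT] at h1 h2 h3 h4
  have key := split_id (n := nsq v) (x := v 0) (y := th z v) (z := z 0) h1 h2 h3 h4
  rw [← key]
  congr 1
  congr 1
  · congr 1
    ring
  · congr 1
    ring

theorem normSq_rel (hn : nsq z = 1) (h0 : hp z v = 0) :
    normSq (v 0) + normSq (th z v) = (1 - normSq (z 0)) * nsq v := by
  have h1 := sum_one hn
  have h2 := sum_v v
  have h3 := sum_conj h0
  rw [hp_eq] at h0
  have : ((normSq (v 0) + normSq (th z v) : ℝ) : ℂ) = (((1 - normSq (z 0)) * nsq v : ℝ) : ℂ) := by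
    push_cast
    rw [← Complex.mul_conj, ← Complex.mul_conj, ← Complex.mul_conj, ← h2, th]
    simp only [map_sub, map_mul]
    linear_combination (v 1 * conj (v 1) + v 2 * conj (v 2)) * h1 -
      (z 1 * conj (v 1) + z 2 * conj (v 2)) * h0 + (conj (z 0) * v 0) * h3
  exact_mod_cast this

end

end Pool.Agent.K6.H10.SU
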