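import Pool.Agent.K6.H10.SU.Inv
import Pool.Agent.K6.H10.SY.Stmt

/-!
# The result on the forms which tame an almost complex structure with symmetry group `SU(2)`
-/

set_option autoImplicit false

open scoped ContDiff Topology ComplexConjugate

noncomputable section

namespace Pool.Agent.K6.H10.SU

open Pool.Agent.K6.H10.SY
open Complex (I normSq)

/-- the set of the parameters and its openness -/
theorem isOpen_tame (P : Set Par) : IsOpen {Ω : Forms | ∃ p ∈ P, TameF Ω.val p} := by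
  have h : {Ω : Forms | ∃ p ∈ P, TameF Ω.val p} = ⋃ p ∈ P, {Ω : Forms | (resN Ω, p) ∈ OO} := by
    ext Ω
    simp only [Set.mem_ofPred_eq, Set.mem_iUnion, exists_prop]
    exact exists_congr fun p => and_congr_right fun _ => (mem_OO Ω p).symm
  rw [h]
  refine isOpen_biUnion fun p _ => ?_
  exact isOpen_OO.preimage (continuous_resN.prodMk continuous_const)

theorem TS_eq (C : Set (V → Bil)) :
    TS C = {Ω : Forms | Ω ∈ S ∧ Ω.val ∈ C ∧ ∃ p : Par, 0 < p.1 0 ∧ TameF Ω.val p} := by
  ext Ω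
  constructor
  · rintro ⟨h1, h2, p, h3, h4⟩
    exact ⟨⟨nondeg_of_tame h4, h1⟩, h2, p, h3, h4⟩
  · rintro ⟨⟨_, h1⟩, h2, h3⟩
    exact ⟨h1, h2, h3⟩

/-- `J² = - (a² + T³ |b|²)` on the vectors which are orthogonal to `z` -/
theorem J_sq (p : Par) {z v : V} (hz : z ≠ 0) (h0 : hp z v = 0) :
    J p z (J p z v) =
      (-(p.1 (tI z) ^ 2 + TT z ^ 3 * normSq (p.2 (tI z)) : ℝ) : ℂ) • v := by
  have hn : (nsq z : ℂ) ≠ 0 := by exact_mod_cast (nsq_pos hz).ne'
  have h1 : z 0 * conj (z 0) + z 1 * conj (z 1) + z 2 * conj (z 2) = nsq z := by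
    have h := hp_self z
    rw [hp_eq] at h
    linear_combination h
  have h2 : crs z (crs z v) = (-(nsq z : ℂ)) • v := by
    rw [hp_eq] at h0
    funext i
    fin_cases i
    · simp [crs]
      linear_combination z 0 * h0 - v 0 * h1
    · simp [crs]
      linear_combination z 1 * h0 - v 1 * h1
    · simp [crs]
      linear_combination z 2 * h0 - v 2 * h1
  have hT := TT_nsq hz
  have h3 : ∀ (c : ℂ) (u : V), crs z (c • u) = conj c • crs z u := by
    intro c u
    have := crs_smul 1 c z u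
    rwa [one_smul, map_one, one_mul] at this
  unfold J
  generalize p.1 (tI z) = a
  generalize p.2 (tI z) = b
  unfold JJ
  rw [crs_add, h3, h3, h3, h2]
  have h4 : ((TT z ^ 3 * normSq b : ℝ) : ℂ) =
      (b * z 0 ^ 3 / (nsq z : ℂ) ^ 2) * conj (b * z 0 ^ 3 / (nsq z : ℂ) ^ 2) * nsq z := by
    push_cast
    rw [← Complex.mul_conj]
    simp only [map_div₀, map_mul, map_pow, Complex.conj_ofReal]
    field_simp
    have e : ((TT z : ℂ) * nsq z) ^ 3 = z 0 ^ 3 * conj (z 0) ^ 3 := by
      rw [hT]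
      ring
    linear_combination (b * conj b) * e
  funext i
  simp only [Pi.add_apply, Pi.smul_apply, smul_eq_mul, Complex.conj_ofReal, Complex.conj_I]
  rw [show ((a ^ 2 + TT z ^ 3 * normSq b : ℝ) : ℂ) =
    (a : ℂ) ^ 2 + ((TT z ^ 3 * normSq b : ℝ) : ℂ) by push_cast; ring, h4]
  linear_combination (a ^ 2 * v i) * Complex.I_sq

/-- the equivariance -/
theorem J_rot {α β : ℂ} (h : ‖α‖ ^ 2 + ‖β‖ ^ 2 = 1) (p : Par) (z v : V) :
    J p (rot α β z) (rot α β v) = rot α β (J p z v) := by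
  have h1 := unit_eq h
  unfold J
  have h2 : tI (rot α β z) = tI z := Subtype.ext (TT_rot h z)
  rw [h2]
  unfold JJ
  rw [nsq_rot h, rot_0]
  generalize p.1 (tI z) = a
  generalize (p.2 (tI z) * z 0 ^ 3 / (nsq z : ℂ) ^ 2) = b
  funext i
  fin_cases i
  · simp [crs, rot]
    left
    linear_combination (conj (z 1) * conj (v 2) - conj (z 2) * conj (v 1)) * h1
  · simp [crs, rot]
    ring
  · simp [crs, rot]
    ring

end Pool.Agent.K6.H10.SU
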