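import Pool.Agent.K6.H10.SU.Top

/-!
# Continuous selections
-/

set_option autoImplicit false

open scoped ContDiff Topology ComplexConjugate

noncomputable section

namespace Pool.Agent.K6.H10.SU

open Pool.Agent.K6.H10.SY
open Complex (I)
open Polynomial (C X eval)

/-- pairs of polynomials -/
def IsPol (p : Par) : Prop :=
  ∃ (A : Polynomial ℝ) (B : Polynomial ℂ), (∀ t : unitInterval, p.1 t = A.eval (t : ℝ)) ∧
    ∀ t : unitInterval, p.2 t = B.eval ((t : ℝ) : ℂ)

theorem IsPol.comb {p q : Par} (hp : IsPol p) (hq : IsPol q) (a b : ℝ) :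
    IsPol (a • p + b • q) := by
  obtain ⟨A, B, h1, h2⟩ := hp
  obtain ⟨A', B', h3, h4⟩ := hq
  refine ⟨C a * A + C b * A', C (a : ℂ) * B + C (b : ℂ) * B', fun t => ?_, fun t => ?_⟩
  · show a * p.1 t + b * q.1 t = _
    rw [h1, h3]
    simp
  · show a • p.2 t + b • q.2 t = _
    rw [h2, h4]
    simp

theorem J_comb (p q : Par) (a b : ℝ) (z v : V) :
    J (a • p + b • q) z v = a • J p z v + b • J q z v := by
  unfold J JJ
  have h1 : (a • p + b • q).1 (tI z) = a * p.1 (tI z) + b * q.1 (tI z) := rfl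
  have h2 : (a • p + b • q).2 (tI z) = a * p.2 (tI z) + b * q.2 (tI z) := by
    show a • p.2 (tI z) + b • q.2 (tI z) = _
    simp
  rw [h1, h2]
  funext i
  simp only [Pi.add_apply, Pi.smul_apply, smul_eq_mul, Complex.real_smul]
  push_cast
  ring

theorem co_comb (a b : ℝ) (v w : V) (k : Fin 3 × Fin 2) :
    co (a • v + b • w) k = a * co v k + b * co w k := by
  unfold co
  split_ifs <;> simp

theorem PP_comb (η : N) (z : KK) (v w w' : V) (a b : ℝ) :
    PP η z v (a • w + b • w') = a * PP η z v w + b * PP η z v w' := by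
  unfold PP
  rw [Finset.mul_sum, Finset.mul_sum, ← Finset.sum_add_distrib]
  refine Finset.sum_congr rfl fun i _ => ?_
  rw [Finset.mul_sum, Finset.mul_sum, ← Finset.sum_add_distrib]
  refine Finset.sum_congr rfl fun j _ => ?_
  rw [co_comb]
  ring

theorem pos_comb {x y a b : ℝ} (hx : 0 < x) (hy : 0 < y) (ha : 0 ≤ a) (hb : 0 ≤ b)
    (hab : a + b = 1) : 0 < a * x + b * y := by
  rcases ha.lt_or_eq with h | h
  · have := mul_pos h hx
    have := mul_nonneg hb hy.le
    linarith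
  · have hb1 : b = 1 := by linarith
    rw [← h, hb1]
    linarith

theorem OO_comb {η : N} {p q : Par} (hp : (η, p) ∈ OO) (hq : (η, q) ∈ OO) {a b : ℝ}
    (ha : 0 ≤ a) (hb : 0 ≤ b) (hab : a + b = 1) : (η, a • p + b • q) ∈ OO := by
  intro r hr
  show 0 < PP η r.1 r.2 (J (a • p + b • q) r.1 r.2)
  rw [J_comb, PP_comb]
  exact pos_comb (hp r hr) (hq r hr) ha hb hab

/-- the point of the sphere for a value of the parameter -/
theorem exists_point (t : unitInterval) : ∃ z : KK, tI z = t ∧ (z : V) 2 = 0 := by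
  let z0 : V := ![(√(t : ℝ) : ℝ), (√(1 - (t : ℝ)) : ℝ), 0]
  have ht : 0 ≤ (t : ℝ) := t.2.1
  have ht' : 0 ≤ 1 - (t : ℝ) := by linarith [t.2.2]
  have hn : nsq z0 = 1 := by
    rw [nsq_eq]
    simp only [z0, Matrix.cons_val_zero, Matrix.cons_val_one, Matrix.cons_val]
    rw [Complex.norm_real, Complex.norm_real, Real.norm_eq_abs, Real.norm_eq_abs, sq_abs, sq_abs,
      Real.sq_sqrt ht, Real.sq_sqrt ht']
    simp
  have hz0 : z0 ≠ 0 := by
    intro h
    rw [h, nsq_eq] at hn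
    simp at hn
  have hr : 0 < ‖z0‖⁻¹ := inv_pos.2 (norm_pos_iff.2 hz0)
  have hc : ((‖z0‖⁻¹ : ℝ) : ℂ) ≠ 0 := by exact_mod_cast hr.ne'
  have h1 : ((‖z0‖⁻¹ : ℝ) : ℂ) • z0 ∈ KK := by
    rw [mem_sphere_zero_iff_norm, norm_smul, Complex.norm_real, Real.norm_eq_abs,
      abs_of_pos hr, inv_mul_cancel₀ (norm_pos_iff.2 hz0).ne']
  refine ⟨⟨_, h1⟩, ?_, ?_⟩
  · rw [tI_smul hc]
    refine Subtype.ext ?_
    show TT z0 = t
    unfold TT
    rw [hn, div_one]
    simp only [z0, Matrix.cons_val_zero]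
    rw [Complex.norm_real, Real.norm_eq_abs, sq_abs, Real.sq_sqrt ht]
  · show ((‖z0‖⁻¹ : ℝ) : ℂ) • z0 2 = 0
    simp [z0]

theorem nonvanish {η : N} {p : Par} (h : (η, p) ∈ OO) (t : unitInterval) :
    p.1 t ≠ 0 ∨ p.2 t ≠ 0 := by
  by_contra hc
  rw [not_or, not_not, not_not] at hc
  obtain ⟨z, hz, hz2⟩ := exists_point t
  have h1 := h (z, Pi.single 2 1) ⟨?_, ?_⟩
  · have h2 : J p z (Pi.single 2 1) = 0 := by
      unfold J JJ
      rw [hz, hc.1, hc.2]
      simp
    have h3 : PP η z (Pi.single 2 1) (J p z (Pi.single 2 1)) = 0 := by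
      rw [h2]
      have := PP_comb η z (Pi.single 2 1) 0 0 0 0
      simpa using this
    exact absurd h1 (by rw [h3]; exact lt_irrefl 0)
  · show nsq (Pi.single 2 1) = 1
    rw [nsq_eq]
    simp
  · show hp (z : V) (Pi.single 2 1) = 0
    rw [hp_eq, hz2]
    simp

/-- polynomial parameters for which the positivity holds -/
def PO (η : N) : Set Par := {p | IsPol p ∧ 0 < p.1 0 ∧ (η, p) ∈ OO}

theorem convex_PO (η : N) : Convex ℝ (PO η) := by
  rintro p ⟨h1, h2, h3⟩ q ⟨h4, h5, h6⟩ a b ha hb hab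
  exact ⟨h1.comb h4 a b, pos_comb h2 h5 ha hb hab, OO_comb h3 h6 ha hb hab⟩

/-- the first selection -/
theorem sel1 : ∃ s : C({η : N // (PO η).Nonempty}, Par),
    ∀ η : {η : N // (PO η).Nonempty}, s η ∈ PO (η : N) := by
  refine exists_continuous_forall_mem_convex_of_local_const
    (t := fun η : {η : N // (PO η).Nonempty} => PO (η : N)) (fun η => convex_PO (η : N))
    fun η => ?_
  obtain ⟨p, h1, h2, h3⟩ := η.2
  refine ⟨p, ?_⟩
  have h4 : ∀ᶠ η' : N in 𝓝 (η : N), (η', p) ∈ OO :=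
    (Continuous.prodMk_left p).continuousAt.eventually (isOpen_OO.mem_nhds h3)
  have h5 := (continuous_subtype_val.tendsto η).eventually h4
  filter_upwards [h5] with η' hη'
  exact ⟨h1, h2, hη'⟩

/-- the admissible polynomial parameters -/
def PS : Set Par :=
  {p | IsPol p ∧ 0 < p.1 0 ∧ ∀ t : unitInterval, p.1 t ≠ 0 ∨ p.2 t ≠ 0 ∨ t = 0}

/-- the space for the jets -/
abbrev Jets : Type := (q : V × V × ℕ) → C(V', V [×q.2.2]→L[ℝ] ℝ)

/-- the jets as one linear map -/
def jetAll : FS →ₗ[ℝ] Jets := LinearMap.pi fun q => jetL q.1 q.2.1 q.2.2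

/-- forms in the class and in `C` with positivity for the parameter `p` -/
def GF (C : Set (V → Bil)) (p : Par) : Set FS := {a | InClass a.1 ∧ a.1 ∈ C ∧ TameF a.1 p}

theorem TameF.comb {Ω₁ Ω₂ : V → Bil} {p : Par} (h₁ : TameF Ω₁ p) (h₂ : TameF Ω₂ p) {a b : ℝ}
    (ha : 0 ≤ a) (hb : 0 ≤ b) (hab : a + b = 1) : TameF (a • Ω₁ + b • Ω₂) p := by
  intro z hz v hv
  show 0 < a * Ω₁ z v (J p z v) + b * Ω₂ z v (J p z v)
  exact pos_comb (h₁ z hz v hv) (h₂ z hz v hv) ha hb hab

theorem convex_GF {C : Set (V → Bil)} (hC : Convex ℝ C) (p : Par) : Convex ℝ (GF C p) := by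
  rintro x ⟨h1, h2, h3⟩ y ⟨h4, h5, h6⟩ a b ha hb hab
  exact ⟨h1.comb h4 hab, hC h2 h5 ha hb hab, h3.comb h6 ha hb hab⟩

/-- the second selection -/
theorem sel2 {C : Set (V → Bil)} (hC : Convex ℝ C) (hex : ∀ p ∈ PS, (GF C p).Nonempty) :
    ∃ T : PS → Forms, Continuous T ∧ ∀ p : PS, InClass (T p).val ∧ (T p).val ∈ C ∧
      TameF (T p).val p := by
  have h := exists_continuous_forall_mem_convex_of_local_const (X := PS) (E := Jets)
    (t := fun p => jetAll '' GF C p) (fun p => (convex_GF hC p).linear_image jetAll) ?_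
  · obtain ⟨g, hg⟩ := h
    choose a ha hga using hg
    refine ⟨fun p => toForms (a p), ?_, fun p => ha p⟩
    refine continuous_forms fun v w j => ?_
    have h1 : (fun p => jet v w j (toForms (a p))) = fun p => g p (v, w, j) := by
      funext p
      rw [← hga p]
      rfl
    rw [h1]
    exact (continuous_apply (v, w, j)).comp g.continuous
  · intro p
    obtain ⟨a, h1, h2, h3⟩ := hex p p.2
    refine ⟨jetAll a, ?_⟩
    have h4 : (resN (toForms a), (p : Par)) ∈ OO := (mem_OO (toForms a) p).2 h3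
    have h5 : ∀ᶠ p' : Par in 𝓝 (p : Par), (resN (toForms a), p') ∈ OO :=
      (Continuous.prodMk_right (resN (toForms a))).continuousAt.eventually (isOpen_OO.mem_nhds h4)
    have h6 := (continuous_subtype_val.tendsto p).eventually h5
    filter_upwards [h6] with p' hp'
    exact ⟨a, ⟨h1, h2, (mem_OO (toForms a) p').1 hp'⟩, rfl⟩

end Pool.Agent.K6.H10.SU
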